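import Pool.Agent.Lib.P76b2.Ident

set_option autoImplicit false

namespace Pool.Agent.P76b2.AlphaTwo

open Finset Pool.Agent.P76b2

section backward

variable {V : Type*} [Fintype V] [DecidableEq V]

/-- The circulant digraphs have the properties. -/
private lemma back (E : Finset (V × V)) (m n : ℕ) (hn : Fintype.card V = n)
    (hnm : n = 3 * m + 1 ∨ n = 3 * m + 2) (g : ℕ → V) (hper : ∀ a, g (a + n) = g a)
    (hbij : Set.BijOn g (Set.Iio n) Set.univ)
    (harc : ∀ a b, b < n → ((g a, g (a + b)) ∈ E ↔ 1 ≤ b ∧ b ≤ m)) :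
    (∀ v, (v, v) ∉ E) ∧
    (∀ v, (E.filter (fun e => e.1 = v)).card = (E.filter (fun e => e.2 = v)).card) ∧
    (∀ u v, (u, v) ∈ E → (v, u) ∉ E) ∧
    (∀ u v w, (u, v) ∈ E → (v, w) ∈ E → (w, u) ∉ E) ∧
    (∀ u v w, u ≠ v → v ≠ w → u ≠ w → (u, v) ∈ E ∨ (v, u) ∈ E ∨ (u, w) ∈ E ∨ (w, u) ∈ E ∨
      (v, w) ∈ E ∨ (w, v) ∈ E) ∧
    (∀ v, (E.filter (fun e => e.1 = v)).card = m) := by
  have hpos : 0 < n := by omega
  have hsurj : ∀ v, ∃ a, a < n ∧ g a = v := by
    intro v
    obtain ⟨a, ha, e⟩ := hbij.surjOn (Set.mem_univ v)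
    exact ⟨a, ha, e⟩
  have hinj : ∀ a b, a < n → b < n → g a = g b → a = b := fun a b ha hb h => hbij.injOn ha hb h
  -- the arcs out of `g a`
  have hfrom : ∀ a u, (g a, u) ∈ E → ∃ j, 1 ≤ j ∧ j ≤ m ∧ u = g (a + j) := by
    intro a u hu
    obtain ⟨b, hb, rfl⟩ := hsurj u
    -- write b = a + j mod n
    have hmod : ∀ q : ℕ, g (b + q * n) = g b := by
      intro q
      induction q with
      | zero => simp
      | succ q ih => rw [Nat.succ_mul, ← Nat.add_assoc, hper, ih]
    have hle : a ≤ b + a * n := by
      have : a ≤ a * n := Nat.le_mul_of_pos_right a hpos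
      omega
    have e1 : g b = g (a + (b + a * n - a)) := by
      rw [show a + (b + a * n - a) = b + a * n by omega, hmod]
    have hmod' : ∀ q t : ℕ, g (a + (t + q * n)) = g (a + t) := by
      intro q t
      induction q with
      | zero => simp
      | succ q ih => rw [Nat.succ_mul, ← Nat.add_assoc, ← Nat.add_assoc, hper, Nat.add_assoc, ih]
    set t := b + a * n - a with ht
    have e2 : g (a + t) = g (a + t % n) := by
      conv_lhs => rw [← Nat.mod_add_div t n, Nat.mul_comm n (t / n)]
      exact hmod' _ _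
    have hlt : t % n < n := Nat.mod_lt _ hpos
    rw [e1, e2] at hu
    obtain ⟨h1, h2⟩ := (harc a (t % n) hlt).mp hu
    exact ⟨t % n, h1, h2, by rw [e1, e2]⟩
  have hloop : ∀ v, (v, v) ∉ E := by
    intro v hv
    obtain ⟨a, ha, rfl⟩ := hsurj v
    have := (harc a 0 hpos).mp (by simpa using hv)
    omega
  have hto : ∀ a j, 1 ≤ j → j ≤ m → (g a, g (a + j)) ∈ E := fun a j h1 h2 =>
    (harc a j (by omega)).mpr ⟨h1, h2⟩
  -- injectivity of the translates
  have hinj' : ∀ a i j, i < n → j < n → g (a + i) = g (a + j) → i = j := by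
    intro a i j hi hj h
    have hmod : ∀ q t : ℕ, g (t + q * n) = g t := by
      intro q t
      induction q with
      | zero => simp
      | succ q ih => rw [Nat.succ_mul, ← Nat.add_assoc, hper, ih]
    have hr : ∀ t, g t = g (t % n) := by
      intro t
      conv_lhs => rw [← Nat.mod_add_div t n, Nat.mul_comm n (t / n)]
      exact hmod _ _
    have h1 : (a + i) % n = (a + j) % n :=
      hinj _ _ (Nat.mod_lt _ hpos) (Nat.mod_lt _ hpos) (by rw [← hr, ← hr, h])
    have h2 : i % n = j % n := Nat.ModEq.add_left_cancel' a h1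
    rwa [Nat.mod_eq_of_lt hi, Nat.mod_eq_of_lt hj] at h2
  have hout : ∀ v, (E.filter (fun e => e.1 = v)).card = m := by
    intro v
    obtain ⟨a, ha, rfl⟩ := hsurj v
    have e : E.filter (fun e => e.1 = g a) =
        (Finset.Icc 1 m).image (fun j => ((g a, g (a + j)) : V × V)) := by
      ext ⟨p, q⟩
      simp only [mem_filter, mem_image, mem_Icc, Prod.mk.injEq]
      constructor
      · rintro ⟨h1, rfl⟩
        obtain ⟨j, hj1, hj2, e⟩ := hfrom a q h1
        exact ⟨j, ⟨hj1, hj2⟩, rfl, e.symm⟩
      · rintro ⟨j, ⟨hj1, hj2⟩, rfl, rfl⟩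
        exact ⟨hto a j hj1 hj2, rfl⟩
    rw [e, Finset.card_image_of_injOn]
    · simp
    · intro i hi j hj h
      simp only [coe_Icc, Set.mem_Icc] at hi hj
      simp only [Prod.mk.injEq, true_and] at h
      exact hinj' a i j (by omega) (by omega) h
  have hin : ∀ v, (E.filter (fun e => e.2 = v)).card = m := by
    intro v
    obtain ⟨a, ha, rfl⟩ := hsurj v
    have e : E.filter (fun e => e.2 = g a) =
        (Finset.Icc 1 m).image (fun j => ((g (a + (n - j)), g a) : V × V)) := by
      ext ⟨p, q⟩
      simp only [mem_filter, mem_image, mem_Icc, Prod.mk.injEq]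
      constructor
      · rintro ⟨h1, rfl⟩
        obtain ⟨b, hb, rfl⟩ := hsurj p
        obtain ⟨j, hj1, hj2, e⟩ := hfrom b (g a) h1
        refine ⟨j, ⟨hj1, hj2⟩, ?_, rfl⟩
        -- g (a + (n - j)) = g b
        by_cases hbj : b + j < n
        · have : a = b + j := hinj _ _ ha hbj e
          rw [this, show b + j + (n - j) = b + n by omega, hper]
        · have e' : g a = g (b + j - n) := by
            rw [e]
            conv_lhs => rw [show b + j = b + j - n + n by omega]
            exact hper _
          have : a = b + j - n := hinj _ _ ha (by omega) e'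
          rw [this, show b + j - n + (n - j) = b by omega]
      · rintro ⟨j, ⟨hj1, hj2⟩, rfl, rfl⟩
        refine ⟨?_, rfl⟩
        have := hto (a + (n - j)) j hj1 hj2
        rwa [show a + (n - j) + j = a + n by omega, hper] at this
    rw [e, Finset.card_image_of_injOn]
    · simp
    · intro i hi j hj h
      simp only [coe_Icc, Set.mem_Icc] at hi hj
      simp only [Prod.mk.injEq, and_true] at h
      have := hinj' a (n - i) (n - j) (by omega) (by omega) h
      omega
  refine ⟨hloop, fun v => by rw [hout, hin], ?_, ?_, ?_, hout⟩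
  · intro u v huv hvu
    obtain ⟨a, ha, rfl⟩ := hsurj u
    obtain ⟨j, hj1, hj2, rfl⟩ := hfrom a v huv
    obtain ⟨k, hk1, hk2, e⟩ := hfrom _ _ hvu
    have := hinj' a 0 (j + k) hpos (by omega) (by rw [Nat.add_zero, ← Nat.add_assoc]; exact e)
    omega
  · intro u v w huv hvw hwu
    obtain ⟨a, ha, rfl⟩ := hsurj u
    obtain ⟨j, hj1, hj2, rfl⟩ := hfrom a v huv
    obtain ⟨k, hk1, hk2, rfl⟩ := hfrom _ _ hvw
    obtain ⟨l, hl1, hl2, e⟩ := hfrom _ _ hwu
    by_cases hlt : j + k + l < n
    · have := hinj' a 0 (j + k + l) hpos hlt (by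
        rw [Nat.add_zero, ← Nat.add_assoc, ← Nat.add_assoc]; exact e)
      omega
    · omega
  · -- no independent triple
    have key : ∀ a b c, a < b → b < c → c < n → (g a, g b) ∈ E ∨ (g b, g c) ∈ E ∨
        (g c, g a) ∈ E := by
      intro a b c hab hbc hc
      by_cases h1 : b - a ≤ m
      · left
        have := hto a (b - a) (by omega) h1
        rwa [show a + (b - a) = b by omega] at this
      by_cases h2 : c - b ≤ m
      · right; left
        have := hto b (c - b) (by omega) h2
        rwa [show b + (c - b) = c by omega] at this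
      · right; right
        have := hto c (n - (c - a)) (by omega) (by omega)
        rwa [show c + (n - (c - a)) = a + n by omega, hper] at this
    intro u v w huv hvw huw
    obtain ⟨a, ha, rfl⟩ := hsurj u
    obtain ⟨b, hb, rfl⟩ := hsurj v
    obtain ⟨c, hc, rfl⟩ := hsurj w
    have hab : a ≠ b := fun h => huv (by rw [h])
    have hbc : b ≠ c := fun h => hvw (by rw [h])
    have hac : a ≠ c := fun h => huw (by rw [h])
    rcases Nat.lt_or_gt_of_ne hab with h1 | h1 <;> rcases Nat.lt_or_gt_of_ne hbc with h2 | h2 <;>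
      rcases Nat.lt_or_gt_of_ne hac with h3 | h3
    · have := key a b c h1 h2 hc; tauto
    · omega
    · have := key a c b h3 h2 hb; tauto
    · have := key c a b h3 h1 hb; tauto
    · have := key b a c h1 h3 hc; tauto
    · have := key b c a h2 h3 ha; tauto
    · omega
    · have := key c b a h2 h1 ha; tauto

end backward

/-- **Theorem.** A digraph `E` on a nonempty finite vertex set `V` with `n` vertices is loopless,
has in-degree equal to out-degree at every vertex, has no directed cycle of length at most `3` and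
no three pairwise nonadjacent vertices if and only if `n = 3 m + 1` or `n = 3 m + 2` and it is
isomorphic to the circulant digraph on the integers modulo `n` with the arcs `a → a + b`,
`1 ≤ b ≤ m`. -/
theorem result {V : Type*} [Fintype V] [DecidableEq V] [Nonempty V] (E : Finset (V × V)) :
    ((∀ v, (v, v) ∉ E) ∧
      (∀ v, (E.filter (fun e => e.1 = v)).card = (E.filter (fun e => e.2 = v)).card) ∧
      (∀ u v, (u, v) ∈ E → (v, u) ∉ E) ∧
      (∀ u v w, (u, v) ∈ E → (v, w) ∈ E → (w, u) ∉ E) ∧
      (∀ u v w, u ≠ v → v ≠ w → u ≠ w → (u, v) ∈ E ∨ (v, u) ∈ E ∨ (u, w) ∈ E ∨ (w, u) ∈ E ∨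
        (v, w) ∈ E ∨ (w, v) ∈ E)) ↔
    ∃ m : ℕ, (Fintype.card V = 3 * m + 1 ∨ Fintype.card V = 3 * m + 2) ∧
      ∃ g : ℕ → V, (∀ a, g (a + Fintype.card V) = g a) ∧
        Set.BijOn g (Set.Iio (Fintype.card V)) Set.univ ∧
        ∀ a b, b < Fintype.card V → ((g a, g (a + b)) ∈ E ↔ 1 ≤ b ∧ b ≤ m) := by
  classical
  constructor
  swap
  · rintro ⟨m, hnm, g, hper, hbij, harc⟩
    obtain ⟨h1, h2, h3, h4, h5, -⟩ := back E m _ rfl hnm g hper hbij harc
    exact ⟨h1, h2, h3, h4, h5⟩
  rintro ⟨hloop, hbal, h2, h3, hind⟩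
  set n : ℤ := ((Fintype.card V : ℕ) : ℤ) with hn
  set d : V → ℤ := fun v => (E.filter (fun e => e.1 = v)).card with hd
  have hid : ∑ v, (3 * d v - n + 1) * (3 * d v - n + 2) =
      6 * ((indep3 E).card : ℤ) - 3 * ((cherries E).card : ℤ) := identity E hloop hbal h2 h3
  have hi0' : indep3 E = ∅ := by
    rw [Finset.eq_empty_iff_forall_notMem]
    intro s hs
    simp only [indep3, mem_filter, mem_powersetCard, subset_univ, true_and] at hs
    obtain ⟨hc, hi⟩ := hs
    obtain ⟨x, y, z, hxy, hxz, hyz, rfl⟩ := Finset.card_eq_three.mp hc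
    have mx : x ∈ ({x, y, z} : Finset V) := by simp
    have my : y ∈ ({x, y, z} : Finset V) := by simp
    have mz : z ∈ ({x, y, z} : Finset V) := by simp
    rcases hind x y z hxy hyz hxz with h | h | h | h | h | h
    · exact hi _ mx _ my h
    · exact hi _ my _ mx h
    · exact hi _ mx _ mz h
    · exact hi _ mz _ mx h
    · exact hi _ my _ mz h
    · exact hi _ mz _ my h
  set y : V → ℤ := fun v => 3 * d v - n + 1 with hy
  have hpos : ∀ v, 0 ≤ y v * (y v + 1) := by
    intro v
    rcases le_or_gt 0 (y v) with h | h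
    · exact mul_nonneg h (by linarith)
    · have : y v + 1 ≤ 0 := by omega
      nlinarith
  have hid' : ∑ v, y v * (y v + 1) = - (3 * ((cherries E).card : ℤ)) := by
    have e : ∑ v, y v * (y v + 1) = ∑ v, (3 * d v - n + 1) * (3 * d v - n + 2) := by
      refine Finset.sum_congr rfl fun v _ => ?_
      simp only [hy]; ring
    rw [e, hid, hi0']; simp
  have hge : 0 ≤ ∑ v, y v * (y v + 1) := Finset.sum_nonneg fun v _ => hpos v
  have hc0' : cherries E = ∅ := by
    have h5 : (0 : ℤ) ≤ ((cherries E).card : ℤ) := by positivity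
    have h6 : ((cherries E).card : ℤ) = 0 := by linarith
    exact Finset.card_eq_zero.mp (by exact_mod_cast h6)
  have hz : ∀ v, y v * (y v + 1) = 0 := by
    have h5 : ∑ v, y v * (y v + 1) = 0 := by rw [hid', hc0']; simp
    intro v
    exact (Finset.sum_eq_zero_iff_of_nonneg (fun v _ => hpos v)).mp h5 v (Finset.mem_univ v)
  have hy01 : ∀ v, y v = 0 ∨ y v = -1 := by
    intro v
    rcases mul_eq_zero.mp (hz v) with h | h
    · exact Or.inl h
    · exact Or.inr (by linarith)
  obtain ⟨v₀⟩ := ‹Nonempty V›
  obtain ⟨m, hm⟩ : ∃ m : ℕ, (m : ℤ) = d v₀ := ⟨_, rfl⟩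
  have hdm : ∀ v, d v = m := by
    intro v
    rcases hy01 v with h | h <;> rcases hy01 v₀ with h' | h' <;>
      simp only [hy] at h h' <;> rw [hm] <;> omega
  have hnm : Fintype.card V = 3 * m + 1 ∨ Fintype.card V = 3 * m + 2 := by
    have h5 : n = 3 * m + 1 ∨ n = 3 * m + 2 := by
      rcases hy01 v₀ with h' | h' <;> simp only [hy] at h' <;> rw [hm]
      · left; linarith
      · right; linarith
    rw [hn] at h5
    rcases h5 with h5 | h5
    · left; exact_mod_cast h5
    · right; exact_mod_cast h5
  refine ⟨m, hnm, ?_⟩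
  rcases Nat.eq_zero_or_pos m with hm0 | hm0
  · -- no arcs
    subst hm0
    have hnoarc : ∀ u v, (u, v) ∉ E := by
      intro u v huv
      have h5 : ((E.filter (fun e => e.1 = u)).card : ℤ) = ((0 : ℕ) : ℤ) := hdm u
      have h6 : (E.filter (fun e => e.1 = u)).card = 0 := by exact_mod_cast h5
      rw [Finset.card_eq_zero] at h6
      have : (u, v) ∈ E.filter (fun e => e.1 = u) := by simp [huv]
      rw [h6] at this
      simp at this
    obtain ⟨e⟩ : Nonempty (Fin (Fintype.card V) ≃ V) := ⟨(Fintype.equivFin V).symm⟩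
    have hpos' : 0 < Fintype.card V := Fintype.card_pos_iff.mpr ⟨v₀⟩
    refine ⟨fun a => e ⟨a % Fintype.card V, Nat.mod_lt _ hpos'⟩, ?_, ?_, ?_⟩
    · intro a
      simp
    · refine ⟨fun _ _ => Set.mem_univ _, ?_, ?_⟩
      · intro a ha b hb' hab
        simp only [Set.mem_Iio] at ha hb'
        have := e.injective hab
        simpa [Nat.mod_eq_of_lt ha, Nat.mod_eq_of_lt hb'] using this
      · intro w _
        refine ⟨(e.symm w : ℕ), (e.symm w).2, ?_⟩
        simp [Nat.mod_eq_of_lt (e.symm w).2]
    · intro a b _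
      constructor
      · intro h'; exact absurd h' (hnoarc _ _)
      · rintro ⟨h5, h6⟩; omega
  · apply circ E hloop h2 h3 ?_ ?_ ?_ m hm0 ?_ v₀
    · -- out-neighbourhoods are tournaments
      intro v x y' hx hy' hxy
      by_contra hcon
      push Not at hcon
      have : (v, ({x, y'} : Finset V)) ∈ cherries E := by
        simp only [cherries, mem_filter, mem_product, mem_univ, mem_powersetCard, subset_univ,
          true_and]
        refine ⟨?_, ?_, ?_⟩
        · rw [card_insert_of_notMem, card_singleton]; simp [hxy]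
        · intro p hp q hq
          simp only [mem_insert, mem_singleton] at hp hq
          rcases hp with rfl | rfl <;> rcases hq with rfl | rfl <;>
            first | exact hloop _ | exact hcon.1 | exact hcon.2
        · left; intro p hp
          simp only [mem_insert, mem_singleton] at hp
          rcases hp with rfl | rfl <;> assumption
      rw [hc0'] at this; simp at this
    · intro v x y' hx hy' hxy
      by_contra hcon
      push Not at hcon
      have : (v, ({x, y'} : Finset V)) ∈ cherries E := by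
        simp only [cherries, mem_filter, mem_product, mem_univ, mem_powersetCard, subset_univ,
          true_and]
        refine ⟨?_, ?_, ?_⟩
        · rw [card_insert_of_notMem, card_singleton]; simp [hxy]
        · intro p hp q hq
          simp only [mem_insert, mem_singleton] at hp hq
          rcases hp with rfl | rfl <;> rcases hq with rfl | rfl <;>
            first | exact hloop _ | exact hcon.1 | exact hcon.2
        · right; intro p hp
          simp only [mem_insert, mem_singleton] at hp
          rcases hp with rfl | rfl <;> assumption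
      rw [hc0'] at this; simp at this
    · intro x y' z hxy hxz hyz
      have := hind x y' z hxy hyz hxz
      tauto
    · intro v
      rw [out_card]
      have h5 : ((E.filter (fun e => e.1 = v)).card : ℤ) = (m : ℤ) := hdm v
      exact_mod_cast h5

end Pool.Agent.P76b2.AlphaTwo
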