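import Pool.Agent.Lib.P76b2.NoCh

/-!
# A cherry gives a module (MP_76b2fe_co)

`Star A S`: whenever `p`, `q` are nonadjacent vertices with a common out-neighbour `w` (all in `S`), every
vertex of `S` that distinguishes `p` and `q` is an in-neighbour of `w`.

For a weighted Eulerian digraph without directed cycles of length at most three that satisfies `Star`, an
in-cherry gives a nontrivial module.
-/

set_option autoImplicit false
set_option linter.unusedSectionVars false

open Finset

namespace Pool.Agent.P76b2.Forb

variable {V : Type*} [DecidableEq V] {A : V → V → Prop} [DecidableRel A] {S : Finset V} {x : V → ℝ}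

/-- `p` and `q` are different and nonadjacent. -/
def NA (A : V → V → Prop) (p q : V) : Prop := p ≠ q ∧ ¬ A p q ∧ ¬ A q p

/-- `v` does not distinguish `p` and `q`. -/
def Hom (A : V → V → Prop) (v p q : V) : Prop := (A v p ↔ A v q) ∧ (A p v ↔ A q v)

/-- The local condition. -/
def Star (A : V → V → Prop) (S : Finset V) : Prop :=
  ∀ w ∈ S, ∀ p ∈ S, ∀ q ∈ S, NA A p q → A p w → A q w → ∀ v ∈ S, ¬ Hom A v p q → A v w

lemma NA.symm {p q : V} (h : NA A p q) : NA A q p := ⟨h.1.symm, h.2.2, h.2.1⟩

lemma Hom.symm {v p q : V} (h : Hom A v p q) : Hom A v q p := ⟨h.1.symm, h.2.symm⟩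

lemma Hom.trans {v p q r : V} (h : Hom A v p q) (h' : Hom A v q r) : Hom A v p r :=
  ⟨h.1.trans h'.1, h.2.trans h'.2⟩

lemma Hom.refl (v p : V) : Hom A v p p := ⟨Iff.rfl, Iff.rfl⟩

/-- The connected component of `r` in the nonadjacency graph on `N`. -/
noncomputable def comp (A : V → V → Prop) (N : Finset V) (r : V) : Finset V := by
  classical exact N.filter (fun y => Relation.ReflTransGen (fun s t => t ∈ N ∧ NA A s t) r y)

lemma mem_comp {N : Finset V} {r y : V} :
    y ∈ comp A N r ↔ y ∈ N ∧ Relation.ReflTransGen (fun s t => t ∈ N ∧ NA A s t) r y := by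
  classical
  unfold comp
  rw [Finset.mem_filter]

lemma self_mem_comp {N : Finset V} {r : V} (hr : r ∈ N) : r ∈ comp A N r :=
  mem_comp.mpr ⟨hr, Relation.ReflTransGen.refl⟩

lemma comp_sub {N : Finset V} {r : V} : comp A N r ⊆ N := fun _ hy => (mem_comp.mp hy).1

lemma comp_closed {N : Finset V} {r s t : V} (hs : s ∈ comp A N r) (ht : t ∈ N) (h : NA A s t) :
    t ∈ comp A N r :=
  mem_comp.mpr ⟨ht, (mem_comp.mp hs).2.tail ⟨ht, h⟩⟩

/-- Induction over a component. -/
lemma comp_induction {N : Finset V} {r : V} (hr : r ∈ N) (P : V → Prop) (h0 : P r)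
    (h1 : ∀ s ∈ N, ∀ t ∈ N, NA A s t → P s → P t) : ∀ y ∈ comp A N r, P y := by
  intro y hy
  have h := (mem_comp.mp hy).2
  have : y ∈ N ∧ P y := by
    induction h with
    | refl => exact ⟨hr, h0⟩
    | tail hst hts ih =>
      rename_i b c
      have hb : b ∈ N := by
        rcases Relation.ReflTransGen.cases_tail hst with h | ⟨d, _, h⟩
        · rw [h]; exact hr
        · exact h.1
      have ih' := ih (mem_comp.mpr ⟨hb, hst⟩)
      exact ⟨hts.1, h1 b hb c hts.1 hts.2 ih'.2⟩
  exact this.2

/-- `M u w = 1`, `-1` or `0`. -/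
def MM (A : V → V → Prop) [DecidableRel A] (u w : V) : ℝ := e A u w - e A w u

lemma MM_pos (hd : ∀ a b, A a b → ¬ A b a) {u w : V} (h : A u w) : MM A u w = 1 := by
  unfold MM; rw [e_one h, e_zero (hd u w h)]; norm_num

lemma MM_neg (hd : ∀ a b, A a b → ¬ A b a) {u w : V} (h : A w u) : MM A u w = -1 := by
  unfold MM; rw [e_one h, e_zero (hd w u h)]; norm_num

lemma MM_congr {v p q : V} (h : Hom A v p q) : MM A p v = MM A q v := by
  unfold MM; rw [e_congr h.1, e_congr' h.2]

/-- The variance trick: let `M ⊆ N ⊆ S`, let every vertex of `S \ N` be homogeneous on `M` and every vertex of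
`N \ M` adjacent to all of `M`. Then the sum of `x r * MM s r` over `r ∈ N \ M` does not depend on `s ∈ M`. -/
lemma variance (hd : ∀ a b, A a b → ¬ A b a) (ht : ∀ a b c, A a b → A b c → ¬ A c a)
    (hx : ∀ v ∈ S, 0 < x v) (hB : Bal A S x) {N M : Finset V} (hNS : N ⊆ S) (hMN : M ⊆ N)
    (h1 : ∀ p ∈ M, ∀ r ∈ N, r ∉ M → A p r ∨ A r p)
    (h2 : ∀ v ∈ S, v ∉ N → ∀ p ∈ M, ∀ q ∈ M, Hom A v p q) :
    ∀ p ∈ M, ∀ q ∈ M, ∑ r ∈ N \ M, x r * MM A p r = ∑ r ∈ N \ M, x r * MM A q r := by
  intro p hp q hq
  set f : V → ℝ := fun s => ∑ r ∈ N \ M, x r * MM A s r with hf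
  set h := ∑ v ∈ S \ N, x v * MM A p v with hh
  -- balance
  have hbal : ∀ s ∈ M, ∑ t ∈ M, x t * MM A s t = -(f s + h) := by
    intro s hs
    have e1 : ∑ w ∈ S, x w * MM A s w = 0 := hB s (hNS (hMN hs))
    have e2 : ∑ w ∈ S, x w * MM A s w = ∑ w ∈ M, x w * MM A s w + ∑ r ∈ N \ M, x r * MM A s r +
        ∑ v ∈ S \ N, x v * MM A s v := by
      rw [split_sum hNS, split_sum hMN]
    have e3 : ∑ v ∈ S \ N, x v * MM A s v = h := by
      rw [hh]
      refine Finset.sum_congr rfl fun v hv => ?_
      obtain ⟨hvS, hvN⟩ := Finset.mem_sdiff.mp hv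
      rw [MM_congr (h2 v hvS hvN s hs p hp)]
    rw [e2, e3] at e1
    show _ = -((∑ r ∈ N \ M, x r * MM A s r) + h)
    linarith
  have hanti : ∑ s ∈ M, x s * ∑ t ∈ M, x t * MM A s t = 0 := anti A M x
  -- monotonicity along the arcs
  have hmono : ∀ s ∈ M, ∀ t ∈ M, A s t → f t ≤ f s := by
    intro s hs t ht' hst
    refine Finset.sum_le_sum fun r hr => ?_
    obtain ⟨hrN, hrM⟩ := Finset.mem_sdiff.mp hr
    refine mul_le_mul_of_nonneg_left ?_ (hx r (hNS hrN)).le
    rcases h1 s hs r hrN hrM with h3 | h3
    · rw [MM_pos hd h3]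
      rcases h1 t ht' r hrN hrM with h4 | h4
      · rw [MM_pos hd h4]
      · rw [MM_neg hd h4]; norm_num
    · rcases h1 t ht' r hrN hrM with h4 | h4
      · exact absurd h3 (ht s t r hst h4)
      · rw [MM_neg hd h3, MM_neg hd h4]
  have hpair : 0 ≤ ∑ s ∈ M, x s * (f s * ∑ t ∈ M, x t * MM A s t) := by
    have e1 : ∑ s ∈ M, x s * (f s * ∑ t ∈ M, x t * MM A s t) =
        ∑ s ∈ M, ∑ t ∈ M, x s * x t * (f s * MM A s t) := by
      refine Finset.sum_congr rfl fun s _ => ?_
      rw [Finset.mul_sum, Finset.mul_sum]
      exact Finset.sum_congr rfl fun t _ => by ring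
    have e2 : ∑ s ∈ M, ∑ t ∈ M, x s * x t * (f s * MM A s t) =
        ∑ s ∈ M, ∑ t ∈ M, x s * x t * (f t * MM A t s) := by
      rw [Finset.sum_comm]
      exact Finset.sum_congr rfl fun s _ => Finset.sum_congr rfl fun t _ => by ring
    have e3 : 2 * ∑ s ∈ M, ∑ t ∈ M, x s * x t * (f s * MM A s t) =
        ∑ s ∈ M, ∑ t ∈ M, x s * x t * (f s * MM A s t + f t * MM A t s) := by
      have : ∑ s ∈ M, ∑ t ∈ M, x s * x t * (f s * MM A s t + f t * MM A t s) =
          ∑ s ∈ M, ∑ t ∈ M, x s * x t * (f s * MM A s t) +
            ∑ s ∈ M, ∑ t ∈ M, x s * x t * (f t * MM A t s) := by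
        rw [← Finset.sum_add_distrib]
        refine Finset.sum_congr rfl fun s _ => ?_
        rw [← Finset.sum_add_distrib]
        exact Finset.sum_congr rfl fun t _ => by ring
      rw [this, ← e2]
      ring
    have e4 : 0 ≤ ∑ s ∈ M, ∑ t ∈ M, x s * x t * (f s * MM A s t + f t * MM A t s) := by
      refine Finset.sum_nonneg fun s hs => Finset.sum_nonneg fun t ht' => ?_
      refine mul_nonneg (mul_nonneg (hx s (hNS (hMN hs))).le (hx t (hNS (hMN ht'))).le) ?_
      by_cases hst : A s t
      · rw [MM_pos hd hst, MM_neg hd hst]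
        linarith [hmono s hs t ht' hst]
      · by_cases hts : A t s
        · rw [MM_pos hd hts, MM_neg hd hts]
          linarith [hmono t ht' s hs hts]
        · unfold MM
          rw [e_zero hst, e_zero hts]
          simp
    rw [e1]
    linarith
  -- the variance vanishes
  have hvar : ∑ s ∈ M, x s * (f s + h) ^ 2 ≤ 0 := by
    have e1 : ∑ s ∈ M, x s * (f s + h) = 0 := by
      have : ∑ s ∈ M, x s * ∑ t ∈ M, x t * MM A s t = -∑ s ∈ M, x s * (f s + h) := by
        rw [← Finset.sum_neg_distrib]
        exact Finset.sum_congr rfl fun s hs => by rw [hbal s hs]; ring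
      linarith
    have e2 : ∑ s ∈ M, x s * (f s * ∑ t ∈ M, x t * MM A s t) = -∑ s ∈ M, x s * (f s * (f s + h)) := by
      rw [← Finset.sum_neg_distrib]
      exact Finset.sum_congr rfl fun s hs => by rw [hbal s hs]; ring
    have e3 : ∑ s ∈ M, x s * (f s + h) ^ 2 =
        ∑ s ∈ M, x s * (f s * (f s + h)) + h * ∑ s ∈ M, x s * (f s + h) := by
      rw [Finset.mul_sum, ← Finset.sum_add_distrib]
      exact Finset.sum_congr rfl fun s _ => by ring
    rw [e3, e1]
    linarith
  have hzero : ∀ s ∈ M, f s + h = 0 := by
    intro s hs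
    have h3 : x s * (f s + h) ^ 2 ≤ ∑ s ∈ M, x s * (f s + h) ^ 2 :=
      Finset.single_le_sum (f := fun s => x s * (f s + h) ^ 2)
        (fun t ht' => mul_nonneg (hx t (hNS (hMN ht'))).le (sq_nonneg _)) hs
    have h4 : 0 < x s := hx s (hNS (hMN hs))
    have h5 : (f s + h) ^ 2 ≤ 0 := by
      by_contra hcon
      push Not at hcon
      have := mul_pos h4 hcon
      linarith
    exact pow_eq_zero_iff (two_ne_zero) |>.mp (le_antisymm h5 (sq_nonneg _))
  have h6 := hzero p hp
  have h7 := hzero q hq
  show f p = f q
  linarith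

/-- An in-cherry gives a nontrivial module. -/
theorem cherry_module (hd : ∀ a b, A a b → ¬ A b a) (ht : ∀ a b c, A a b → A b c → ¬ A c a)
    (hx : ∀ v ∈ S, 0 < x v) (hB : Bal A S x) (hst : Star A S) {w a b : V} (hw : w ∈ S) (ha : a ∈ S)
    (hb : b ∈ S) (hab : NA A a b) (haw : A a w) (hbw : A b w) :
    ∃ M, IsMod A S M ∧ 2 ≤ M.card ∧ M.card < S.card := by
  classical
  set N := S.filter (fun v => A v w) with hN
  have hNS : N ⊆ S := Finset.filter_subset _ _
  have memN : ∀ v, v ∈ N ↔ v ∈ S ∧ A v w := fun v => Finset.mem_filter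
  -- vertices outside `N` are homogeneous on the components
  have hcomp : ∀ r ∈ N, ∀ v ∈ S, v ∉ N → ∀ y ∈ comp A N r, Hom A v r y := by
    intro r hr v hv hvN
    refine comp_induction hr (fun y => Hom A v r y) (Hom.refl v r) ?_
    intro s hs t ht' hna hhom
    refine hhom.trans ?_
    by_contra hcon
    exact hvN ((memN v).mpr ⟨hv, hst w hw s (hNS hs) t (hNS ht') hna ((memN s).mp hs).2
      ((memN t).mp ht').2 v hv hcon⟩)
  -- the family
  set F : Finset (Finset V) := N.powerset.filter (fun M => (a ∈ M ∧ b ∈ M) ∧
    (∀ p ∈ M, ∀ r ∈ N, r ∉ M → A p r ∨ A r p) ∧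
    (∀ v ∈ S, v ∉ N → ∀ p ∈ M, ∀ q ∈ M, Hom A v p q)) with hF
  have haN : a ∈ N := (memN a).mpr ⟨ha, haw⟩
  have hbN : b ∈ N := (memN b).mpr ⟨hb, hbw⟩
  have hclosed : ∀ r s t, s ∈ comp A N r → t ∈ N → t ∉ comp A N r → A s t ∨ A t s := by
    intro r s t hs ht' hnt
    by_contra hcon
    push Not at hcon
    exact hnt (comp_closed hs ht' ⟨fun h => hnt (h ▸ hs), hcon.1, hcon.2⟩)
  have hne : F.Nonempty := by
    refine ⟨comp A N a, ?_⟩
    rw [hF, Finset.mem_filter]
    refine ⟨Finset.mem_powerset.mpr comp_sub, ⟨self_mem_comp haN, comp_closed (self_mem_comp haN) hbN hab⟩,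
      fun p hp r hr hrn => hclosed a p r hp hr hrn, ?_⟩
    intro v hv hvN p hp q hq
    exact (hcomp a haN v hv hvN p hp).symm.trans (hcomp a haN v hv hvN q hq)
  obtain ⟨M, hM, hmax⟩ := Finset.exists_max_image F Finset.card hne
  rw [hF, Finset.mem_filter, Finset.mem_powerset] at hM
  obtain ⟨hMN, ⟨haM, hbM⟩, h1, h2⟩ := hM
  refine ⟨M, ⟨hMN.trans hNS, ?_⟩, ?_, ?_⟩
  · intro v hv hvM
    by_cases hvN : v ∈ N
    · -- the main case
      by_contra hcon
      have hsplit : ∃ p ∈ M, ∃ q ∈ M, A p v ∧ A v q := by
        by_contra hno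
        push Not at hno
        apply hcon
        intro p hp q hq
        rcases h1 p hp v hvN hvM with hp1 | hp1
        · have hq1 : A q v := by
            rcases h1 q hq v hvN hvM with h | h
            · exact h
            · exact absurd h (hno p hp q hq hp1)
          exact ⟨⟨fun h => absurd h (hd _ _ hp1), fun h => absurd h (hd _ _ hq1)⟩, ⟨fun _ => hq1, fun _ => hp1⟩⟩
        · have hq1 : A v q := by
            rcases h1 q hq v hvN hvM with h | h
            · exact absurd hp1 (hno q hq p hp h)
            · exact h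
          exact ⟨⟨fun _ => hq1, fun _ => hp1⟩, ⟨fun h => absurd h (hd _ _ hp1), fun h => absurd h (hd _ _ hq1)⟩⟩
      obtain ⟨p, hp, q, hq, hpr, hrq⟩ := hsplit
      -- the opposite vertex `r'`
      have hvar := variance hd ht hx hB hNS hMN h1 h2 p hp q hq
      have hr' : ∃ r' ∈ N \ M, A r' p ∧ A q r' := by
        by_contra hno
        push Not at hno
        have hlt : ∑ r ∈ N \ M, x r * MM A q r < ∑ r ∈ N \ M, x r * MM A p r := by
          refine Finset.sum_lt_sum (fun r hr => ?_) ⟨v, Finset.mem_sdiff.mpr ⟨hvN, hvM⟩, ?_⟩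
          · obtain ⟨hrN, hrM⟩ := Finset.mem_sdiff.mp hr
            refine mul_le_mul_of_nonneg_left ?_ (hx r (hNS hrN)).le
            rcases h1 p hp r hrN hrM with h3 | h3
            · rw [MM_pos hd h3]
              rcases h1 q hq r hrN hrM with h4 | h4
              · rw [MM_pos hd h4]
              · rw [MM_neg hd h4]; norm_num
            · rcases h1 q hq r hrN hrM with h4 | h4
              · exact absurd h4 (hno r hr h3)
              · rw [MM_neg hd h3, MM_neg hd h4]
          · rw [MM_neg hd hrq, MM_pos hd hpr]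
            have := hx v hv
            linarith
        linarith
      obtain ⟨r', hr'm, hr'p, hqr'⟩ := hr'
      obtain ⟨hr'N, hr'M⟩ := Finset.mem_sdiff.mp hr'm
      have hvr' : NA A v r' := by
        refine ⟨?_, ?_, ?_⟩
        · rintro rfl
          exact hd _ _ hpr hr'p
        · intro h
          exact ht p v r' hpr h hr'p
        · intro h
          exact ht v q r' hrq hqr' h
      have hpq : NA A p q := by
        refine ⟨?_, ?_, ?_⟩
        · rintro rfl
          exact hd _ _ hpr hrq
        · intro h
          exact ht p q r' h hqr' hr'p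
        · intro h
          exact ht q p v h hpr hrq
      set L := comp A N v with hL
      have hvL : v ∈ L := self_mem_comp hvN
      have hr'L : r' ∈ L := comp_closed hvL hr'N hvr'
      have hLM : ∀ y ∈ L, y ∉ M := by
        refine comp_induction hvN (fun y => y ∉ M) hvM ?_
        intro s hs t _ hna hsM htM
        rcases h1 t htM s hs hsM with h | h
        · exact hna.2.2 h
        · exact hna.2.1 h
      have hpS : p ∈ S := hNS (hMN hp)
      have hqS : q ∈ S := hNS (hMN hq)
      have hr'S : r' ∈ S := hNS hr'N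
      have hbig : M ∪ L ∈ F := by
        rw [hF, Finset.mem_filter, Finset.mem_powerset]
        refine ⟨Finset.union_subset hMN comp_sub, ⟨Finset.mem_union_left _ haM, Finset.mem_union_left _ hbM⟩,
          ?_, ?_⟩
        · intro s hs t ht' hnt
          rw [Finset.mem_union] at hs hnt
          push Not at hnt
          rcases hs with hs | hs
          · exact h1 s hs t ht' hnt.1
          · exact hclosed v s t hs ht' hnt.2
        · intro z hz hzN
          -- `z` has the same relation to `p` and to `v`
          have hzv : ∀ y ∈ L, Hom A z v y := hcomp v hvN z hz hzN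
          have hzr' := hzv r' hr'L
          have hzpq := h2 z hz hzN p hp q hq
          have key : Hom A z p v := by
            by_contra hcon2
            -- relation of `z` to `p`
            by_cases c1 : A z p
            · have c1q : A z q := hzpq.1.mp c1
              by_cases c2 : A v z
              · exact ht p v z hpr c2 c1
              · by_cases c3 : A z v
                · exact hcon2 ⟨⟨fun _ => c3, fun _ => c1⟩,
                    ⟨fun h => absurd h (hd _ _ c1), fun h => absurd h c2⟩⟩
                · -- `z → p, q`, `z ∥ v, r'`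
                  have n1 : NA A z r' := by
                    refine ⟨?_, fun h => c3 (hzr'.1.mpr h), fun h => c2 (hzr'.2.mpr h)⟩
                    rintro rfl
                    exact hzN hr'N
                  have := hst p hpS z hz r' hr'S n1 c1 hr'p q hqS (fun h => by
                    have h6 : A q z := h.1.mpr hqr'
                    exact hd _ _ c1q h6)
                  exact hpq.2.2 this
            · by_cases c2 : A p z
              · have c2q : A q z := hzpq.2.mp c2
                by_cases c3 : A z v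
                · exact ht z v q c3 hrq c2q
                · by_cases c4 : A v z
                  · exact hcon2 ⟨⟨fun h => absurd h c1, fun h => absurd h c3⟩, ⟨fun _ => c4, fun _ => c2⟩⟩
                  · have := hst z hz p hpS q hqS hpq c2 c2q v hv (fun h => by
                      have h5 := h.1.mpr hrq
                      exact hd _ _ hpr h5)
                    exact c4 this
              · -- `z ∥ p, q`
                have c1q : ¬ A z q := fun h => c1 (hzpq.1.mpr h)
                have c2q : ¬ A q z := fun h => c2 (hzpq.2.mpr h)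
                by_cases c3 : A v z
                · have c3' : A r' z := hzr'.2.mp c3
                  have := hst z hz v hv r' hr'S hvr' c3 c3' q hqS (fun h => by
                    have h5 := h.2.mp hrq
                    exact hd _ _ hqr' h5)
                  exact c2q this
                · by_cases c4 : A z v
                  · have c4' : A z r' := hzr'.1.mp c4
                    have n1 : NA A p z := ⟨by
                      rintro rfl
                      exact hzN (hMN hp), c2, c1⟩
                    have := hst v hv p hpS z hz n1 hpr c4 r' hr'S (fun h => by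
                      have h5 := h.1.mp hr'p
                      exact hd _ _ c4' h5)
                    exact hvr'.2.2 this
                  · exact hcon2 ⟨⟨fun h => absurd h c1, fun h => absurd h c4⟩,
                      ⟨fun h => absurd h c2, fun h => absurd h c3⟩⟩
          have hall : ∀ y ∈ M ∪ L, Hom A z p y := by
            intro y hy
            rcases Finset.mem_union.mp hy with hy | hy
            · exact h2 z hz hzN p hp y hy
            · exact key.trans (hzv y hy)
          intro s hs t ht'
          exact (hall s hs).symm.trans (hall t ht')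
      have hcard := hmax _ hbig
      have hlt : M.card < (M ∪ L).card := by
        refine Finset.card_lt_card ⟨Finset.subset_union_left, fun h => ?_⟩
        exact hLM v hvL (h (Finset.mem_union_right _ hvL))
      omega
    · intro p hp q hq
      exact h2 v hv hvN p hp q hq
  · have : ({a, b} : Finset V) ⊆ M := by
      intro y hy
      rcases Finset.mem_insert.mp hy with rfl | hy
      · exact haM
      · rw [Finset.mem_singleton] at hy
        rw [hy]; exact hbM
    have h3 := Finset.card_le_card this
    rw [Finset.card_pair hab.1] at h3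
    exact h3
  · refine Finset.card_lt_card ⟨hMN.trans hNS, fun h => ?_⟩
    have h3 := ((memN w).mp (hMN (h hw))).2
    exact hd _ _ h3 h3

end Pool.Agent.P76b2.Forb
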