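import Pool.Agent.Lib.P76b2.ForbMain

/-!
# Three forbidden orgraphs (MP_76b2fe_co)

`Cls A S`: no directed cycle of length at most three, and for nonadjacent `p`, `q` in `S`:
* if `u → p`, `u → q`, then every out-neighbour of `p` that is not an out-neighbour of `q` is an out-neighbour
  of `u`;
* if `p → w`, `q → w`, then every in-neighbour of `p` that is not an in-neighbour of `q` is an in-neighbour
  of `w`.

In a balanced weighted digraph of this class without nontrivial modules the condition `Star` holds.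
-/

set_option autoImplicit false
set_option linter.unusedSectionVars false

open Finset

namespace Pool.Agent.P76b2.Forb

variable {V : Type*} [DecidableEq V]

/-- The class of digraphs. -/
structure Cls (A : V → V → Prop) (S : Finset V) : Prop where
  hd : ∀ a b, A a b → ¬ A b a
  ht : ∀ a b c, A a b → A b c → ¬ A c a
  ho : ∀ u ∈ S, ∀ p ∈ S, ∀ q ∈ S, NA A p q → A u p → A u q → ∀ v ∈ S, A p v → ¬ A q v → A u v
  hi : ∀ w ∈ S, ∀ p ∈ S, ∀ q ∈ S, NA A p q → A p w → A q w → ∀ v ∈ S, A v p → ¬ A v q → A v w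

/-- The reversed digraph. -/
abbrev fl (A : V → V → Prop) : V → V → Prop := fun a b => A b a

instance (A : V → V → Prop) [DecidableRel A] : DecidableRel (fl A) := fun a b => inferInstanceAs (Decidable (A b a))

lemma NA.fl {A : V → V → Prop} {p q : V} (h : NA A p q) : NA (fl A) p q := ⟨h.1, h.2.2, h.2.1⟩

lemma NA.of_fl {A : V → V → Prop} {p q : V} (h : NA (Forb.fl A) p q) : NA A p q := ⟨h.1, h.2.2, h.2.1⟩

lemma Cls.fl {A : V → V → Prop} {S : Finset V} (h : Cls A S) : Cls (fl A) S where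
  hd := fun a b h1 => h.hd b a h1
  ht := fun a b c h1 h2 h3 => h.ht c b a h2 h1 h3
  ho := fun u hu p hp q hq hn h1 h2 v hv h3 h4 => h.hi u hu p hp q hq hn.of_fl h1 h2 v hv h3 h4
  hi := fun u hu p hp q hq hn h1 h2 v hv h3 h4 => h.ho u hu p hp q hq hn.of_fl h1 h2 v hv h3 h4

variable {A : V → V → Prop} [DecidableRel A] {S : Finset V} {x : V → ℝ}

lemma e_fl (a b : V) : e (fl A) a b = e A b a := by
  by_cases h : A b a
  · rw [e_one h, e_one (A := fl A) h]
  · rw [e_zero h, e_zero (A := fl A) h]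

lemma Bal.fl (h : Bal A S x) : Bal (fl A) S x := by
  intro v hv
  have h1 := h v hv
  have h2 : ∑ w ∈ S, x w * (e (Forb.fl A) v w - e (Forb.fl A) w v) =
      -∑ w ∈ S, x w * (e A v w - e A w v) := by
    rw [← Finset.sum_neg_distrib]
    refine Finset.sum_congr rfl fun w _ => ?_
    rw [e_fl (A := A) v w, e_fl (A := A) w v]; ring
  rw [h2, h1, neg_zero]

lemma IsMod.of_fl {M : Finset V} (h : IsMod (fl A) S M) : IsMod A S M :=
  ⟨h.1, fun v hv hvM a ha b hb => ⟨(h.2 v hv hvM a ha b hb).2, (h.2 v hv hvM a ha b hb).1⟩⟩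

/-- The local lemma. -/
lemma Cls.loc (h : Cls A S) {w z p q : V} (hw : w ∈ S) (hz : z ∈ S) (hp : p ∈ S) (hq : q ∈ S) (hpq : NA A p q)
    (hqz : NA A q z) (hpw : A p w) (hqw : A q w) (hpz : A p z) (hzw : ¬ A z w) :
    ∀ y ∈ S, A y p → A y w := by
  intro y hy hyp
  by_contra hyw
  have hyq : A y q := by
    by_contra hyq
    exact hyw (h.hi w hw p hp q hq hpq hpw hqw y hy hyp hyq)
  have hyz : A y z := h.ho y hy p hp q hq hpq hyp hyq z hz hpz hqz.2.1
  exact hyw (h.ho y hy q hq z hz hqz hyq hyz w hw hqw hzw)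

/-- The path `q → w ← p → z` is not an induced subgraph. -/
lemma Cls.noF2 (h : Cls A S) (hx : ∀ v ∈ S, 0 < x v) (hB : Bal A S x) {w z p q : V} (hw : w ∈ S) (hz : z ∈ S)
    (hp : p ∈ S) (hq : q ∈ S) (hpq : NA A p q) (hqz : NA A q z) (hzw : NA A z w) (hpw : A p w) (hqw : A q w)
    (hpz : A p z) : False := by
  have h1 := h.loc hw hz hp hq hpq hqz hpw hqw hpz hzw.2.1
  have h2 : ∀ y ∈ S, A w y → A p y :=
    h.fl.loc hp hq hw hz hzw.symm.fl hqz.symm.fl hpw hpz hqw hpq.2.1
  have e1 : dd A S x w ≤ dd A S x p := by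
    unfold dd
    refine Finset.sum_le_sum fun y hy => mul_le_mul_of_nonneg_left ?_ (hx y hy).le
    by_cases h3 : A w y
    · rw [e_one h3, e_one (h2 y hy h3)]
    · rw [e_zero h3]; exact e_nonneg _ _
  have e2 : dd A S x p < dd A S x w := by
    rw [hB.dd_eq hp, hB.dd_eq hw]
    refine Finset.sum_lt_sum (fun y hy => mul_le_mul_of_nonneg_left ?_ (hx y hy).le) ⟨p, hp, ?_⟩
    · by_cases h3 : A y p
      · rw [e_one h3, e_one (h1 y hy h3)]
      · rw [e_zero h3]; exact e_nonneg _ _
    · rw [e_one hpw, e_zero (fun h3 => h.hd p p h3 h3)]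
      have := hx p hp
      linarith
  linarith

/-- The in-neighbourhood in `S`. -/
def Nin (A : V → V → Prop) [DecidableRel A] (S : Finset V) (w : V) : Finset V := S.filter (fun v => A v w)

lemma mem_Nin {w v : V} : v ∈ Nin A S w ↔ v ∈ S ∧ A v w := Finset.mem_filter

lemma Nin_sub {w : V} : Nin A S w ⊆ S := Finset.filter_subset _ _

/-- A dirty pair. -/
structure Dirty (A : V → V → Prop) (S : Finset V) (w z p q : V) : Prop where
  hw : w ∈ S
  hz : z ∈ S
  hp : p ∈ S
  hq : q ∈ S
  hpw : A p w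
  hqw : A q w
  hpq : NA A p q
  hpz : A p z
  hqz : NA A q z
  hwz : A w z

/-- A vertex outside `N⁻(w)` that distinguishes two nonadjacent in-neighbours of `w` gives a dirty pair. -/
lemma Cls.edge (h : Cls A S) (hx : ∀ v ∈ S, 0 < x v) (hB : Bal A S x) {w s t v : V} (hw : w ∈ S) (hs : s ∈ S)
    (ht : t ∈ S) (hv : v ∈ S) (hst : NA A s t) (hsw : A s w) (htw : A t w) (hvw : ¬ A v w) (hh : ¬ Hom A v s t) :
    Dirty A S w v s t ∨ Dirty A S w v t s := by
  have h1 : A v s ↔ A v t := by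
    constructor
    · intro h1
      by_contra h2
      exact hvw (h.hi w hw s hs t ht hst hsw htw v hv h1 h2)
    · intro h1
      by_contra h2
      exact hvw (h.hi w hw t ht s hs hst.symm htw hsw v hv h1 h2)
  have key : ∀ s t : V, s ∈ S → t ∈ S → NA A s t → A s w → A t w → (A v s ↔ A v t) → A s v → ¬ A t v →
      Dirty A S w v s t := by
    intro s t hs ht hst hsw htw h1 h2 h3
    have h4 : ¬ A v t := fun h4 => h.hd _ _ h2 (h1.mpr h4)
    have h5 : NA A t v := ⟨by
      rintro rfl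
      exact hvw htw, h3, h4⟩
    have h6 : A w v := by
      by_contra h6
      have h7 : NA A v w := ⟨by
        rintro rfl
        exact h3 htw, hvw, h6⟩
      exact h.noF2 hx hB hw hv hs ht hst h5 h7 hsw htw h2
    exact ⟨hw, hv, hs, ht, hsw, htw, hst, h2, h5, h6⟩
  by_cases h2 : A s v
  · by_cases h3 : A t v
    · exact absurd ⟨h1, ⟨fun _ => h3, fun _ => h2⟩⟩ hh
    · exact Or.inl (key s t hs ht hst hsw htw h1 h2 h3)
  · by_cases h3 : A t v
    · exact Or.inr (key t s ht hs hst.symm htw hsw h1.symm h3 h2)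
    · exact absurd ⟨h1, ⟨fun h4 => absurd h4 h2, fun h4 => absurd h4 h3⟩⟩ hh

lemma comp_symm {N : Finset V} {r y : V} (hr : r ∈ N) (hy : y ∈ comp A N r) : r ∈ comp A N y := by
  refine comp_induction hr (fun y => r ∈ comp A N y) (self_mem_comp hr) ?_ y hy
  intro s hs t _ hna h
  exact mem_comp.mpr ⟨hr, Relation.ReflTransGen.head ⟨hs, hna.symm⟩ (mem_comp.mp h).2⟩

lemma comp_trans {N : Finset V} {r y z : V} (hy : y ∈ comp A N r) (hz : z ∈ comp A N y) : z ∈ comp A N r :=
  mem_comp.mpr ⟨(mem_comp.mp hz).1, (mem_comp.mp hy).2.trans (mem_comp.mp hz).2⟩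

lemma comp_eq {N : Finset V} {r y : V} (hr : r ∈ N) (hy : y ∈ comp A N r) : comp A N y = comp A N r := by
  ext z
  exact ⟨fun hz => comp_trans hy hz, fun hz => comp_trans (comp_symm hr hy) hz⟩

lemma comp_adj {N : Finset V} {r s t : V} (hs : s ∈ comp A N r) (ht : t ∈ N) (hnt : t ∉ comp A N r) :
    A s t ∨ A t s := by
  by_contra hcon
  push Not at hcon
  exact hnt (comp_closed hs ht ⟨fun h => hnt (h ▸ hs), hcon.1, hcon.2⟩)

/-- No module. -/
def Prm (A : V → V → Prop) (S : Finset V) : Prop := ¬ ∃ M, IsMod A S M ∧ 2 ≤ M.card ∧ M.card < S.card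

/-- In a digraph without modules, a component of `N⁻(w)` that contains an arc is distinguished by a vertex
outside `N⁻(w)`. -/
lemma exists_split (hd : ∀ a b, A a b → ¬ A b a) (ht : ∀ a b c, A a b → A b c → ¬ A c a)
    (hx : ∀ v ∈ S, 0 < x v) (hB : Bal A S x) (hP : Prm A S) {w p z : V} (hw : w ∈ S) (hp : p ∈ Nin A S w)
    (hz : z ∈ comp A (Nin A S w) p) (hpz : A p z ∨ A z p) :
    ∃ v ∈ S, v ∉ Nin A S w ∧ ∃ y ∈ comp A (Nin A S w) p, ¬ Hom A v p y := by
  classical
  by_contra hcon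
  push Not at hcon
  set N := Nin A S w with hN
  set K := comp A N p with hK
  have hNS : N ⊆ S := Nin_sub
  have hpK : p ∈ K := self_mem_comp hp
  have hclean : ∀ v ∈ S, v ∉ N → ∀ s ∈ K, ∀ t ∈ K, Hom A v s t := fun v hv hvN s hs t ht' =>
    (hcon v hv hvN s hs).symm.trans (hcon v hv hvN t ht')
  have hvar := variance (S := S) (x := x) hd ht hx hB hNS comp_sub
    (fun s hs r hr hrn => comp_adj hs hr hrn) hclean
  -- arcs in `K` have the same relations to `N \ K`
  have harc : ∀ s ∈ K, ∀ t ∈ K, A s t → ∀ v ∈ N, v ∉ K → Hom A v s t := by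
    intro s hs t ht' hst v hv hvK
    have hle : ∀ r ∈ N \ K, x r * MM A t r ≤ x r * MM A s r := by
      intro r hr
      obtain ⟨hrN, hrK⟩ := Finset.mem_sdiff.mp hr
      refine mul_le_mul_of_nonneg_left ?_ (hx r (hNS hrN)).le
      rcases comp_adj hs hrN hrK with h3 | h3
      · rw [MM_pos hd h3]
        rcases comp_adj ht' hrN hrK with h4 | h4
        · rw [MM_pos hd h4]
        · rw [MM_neg hd h4]; norm_num
      · rcases comp_adj ht' hrN hrK with h4 | h4
        · exact absurd h3 (ht s t r hst h4)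
        · rw [MM_neg hd h3, MM_neg hd h4]
    have heq := (Finset.sum_eq_sum_iff_of_le hle).mp (hvar t ht' s hs) v (Finset.mem_sdiff.mpr ⟨hv, hvK⟩)
    have hxv := hx v (hNS hv)
    have heq' : MM A t v = MM A s v := mul_left_cancel₀ hxv.ne' heq
    rcases comp_adj hs hv hvK with h3 | h3
    · rcases comp_adj ht' hv hvK with h4 | h4
      · exact ⟨⟨fun h => absurd h (hd _ _ h3), fun h => absurd h (hd _ _ h4)⟩, ⟨fun _ => h4, fun _ => h3⟩⟩
      · rw [MM_pos hd h3, MM_neg hd h4] at heq'; norm_num at heq'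
    · rcases comp_adj ht' hv hvK with h4 | h4
      · rw [MM_neg hd h3, MM_pos hd h4] at heq'; norm_num at heq'
      · exact ⟨⟨fun _ => h4, fun _ => h3⟩, ⟨fun h => absurd h (hd _ _ h3), fun h => absurd h (hd _ _ h4)⟩⟩
  -- the module
  set T := K.filter (fun t => ∀ v ∈ N, v ∉ K → Hom A v p t) with hT
  have hTK : ∀ t ∈ T, t ∈ K ∧ ∀ v ∈ N, v ∉ K → Hom A v p t := fun t h => Finset.mem_filter.mp h
  apply hP
  refine ⟨T, ⟨fun t h => hNS (comp_sub (hTK t h).1), ?_⟩, ?_, ?_⟩
  · intro v hv hvT s hs t ht'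
    obtain ⟨hs1, hs2⟩ := hTK s hs
    obtain ⟨ht1, ht2⟩ := hTK t ht'
    by_cases hvN : v ∈ N
    · by_cases hvK : v ∈ K
      · have hnone : ∀ t ∈ T, ¬ A v t ∧ ¬ A t v := by
          intro t ht'
          obtain ⟨ht1, ht2⟩ := hTK t ht'
          constructor
          · intro h1
            apply hvT
            rw [hT, Finset.mem_filter]
            exact ⟨hvK, fun y hy hyK => (ht2 y hy hyK).trans (harc v hvK t ht1 h1 y hy hyK).symm⟩
          · intro h1
            apply hvT
            rw [hT, Finset.mem_filter]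
            exact ⟨hvK, fun y hy hyK => (ht2 y hy hyK).trans (harc t ht1 v hvK h1 y hy hyK)⟩
        obtain ⟨a1, a2⟩ := hnone s hs
        obtain ⟨b1, b2⟩ := hnone t ht'
        exact ⟨⟨fun h => absurd h a1, fun h => absurd h b1⟩, ⟨fun h => absurd h a2, fun h => absurd h b2⟩⟩
      · exact (hs2 v hvN hvK).symm.trans (ht2 v hvN hvK)
    · exact hclean v hv hvN s hs1 t ht1
  · have hne : p ≠ z := by
      rintro rfl
      rcases hpz with h | h <;> exact hd _ _ h h
    have hsub : ({p, z} : Finset V) ⊆ T := by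
      intro y hy
      rcases Finset.mem_insert.mp hy with rfl | hy
      · rw [hT, Finset.mem_filter]
        exact ⟨hpK, fun v _ _ => Hom.refl v _⟩
      · rw [Finset.mem_singleton] at hy
        subst hy
        rw [hT, Finset.mem_filter]
        refine ⟨hz, fun v hv hvK => ?_⟩
        rcases hpz with h | h
        · exact harc p hpK y hz h v hv hvK
        · exact (harc y hz p hpK h v hv hvK).symm
    have := Finset.card_le_card hsub
    rw [Finset.card_pair hne] at this
    exact this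
  · refine Finset.card_lt_card ⟨fun t h => hNS (comp_sub (hTK t h).1), fun h => ?_⟩
    have h3 := (mem_Nin.mp (comp_sub (hTK w (h hw)).1)).2
    exact hd _ _ h3 h3

end Pool.Agent.P76b2.Forb
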