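import Pool.Agent.Lib.P76b2.NoChEq

/-!
# Equality for weighted Eulerian digraphs without cherries: circulants (MP_76b2fe_co)
-/

set_option autoImplicit false
set_option linter.unusedSectionVars false

open Finset

namespace Pool.Agent.P76b2.Forb

variable {V : Type*} [DecidableEq V] {A : V → V → Prop} [DecidableRel A] {S : Finset V} {x : V → ℝ}

/-- The number of vertices between `v` and `t`. -/
def rk (A : V → V → Prop) [DecidableRel A] (S : Finset V) (v t : V) : ℕ :=
  (S.filter (fun w => A v w ∧ A w t)).card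

lemma rk_spec (hd : ∀ a b, A a b → ¬ A b a) (ht : ∀ a b c, A a b → A b c → ¬ A c a)
    (hi : ∀ u ∈ S, ∀ a ∈ S, ∀ b ∈ S, A a u → A b u → a ≠ b → A a b ∨ A b a)
    {s : V → V} (hs : ∀ v ∈ S, s v ∈ S ∧ A v (s v) ∧ ∀ w ∈ S, A v w → w ≠ s v → A (s v) w) :
    ∀ k : ℕ, ∀ v ∈ S, ∀ t ∈ S, A v t → rk A S v t = k → t = s^[k + 1] v := by
  intro k
  induction k with
  | zero =>
    intro v hv t ht' hvt hk
    by_contra hne
    obtain ⟨h1, h2, h3⟩ := hs v hv
    have h4 : s v ∈ S.filter (fun w => A v w ∧ A w t) := Finset.mem_filter.mpr ⟨h1, h2, h3 t ht' hvt hne⟩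
    have h5 : 0 < (S.filter (fun w => A v w ∧ A w t)).card := Finset.card_pos.mpr ⟨_, h4⟩
    unfold rk at hk
    omega
  | succ k ih =>
    intro v hv t ht' hvt hk
    obtain ⟨h1, h2, h3⟩ := hs v hv
    have hne : t ≠ s v := by
      rintro rfl
      have : S.filter (fun w => A v w ∧ A w (s v)) = ∅ := by
        rw [Finset.filter_eq_empty_iff]
        rintro w hw ⟨h4, h5⟩
        by_cases h6 : w = s v
        · rw [h6] at h5; exact hd _ _ h5 h5
        · exact hd _ _ h5 (h3 w hw h4 h6)
      unfold rk at hk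
      rw [this, Finset.card_empty] at hk
      omega
    have hst : A (s v) t := h3 t ht' hvt hne
    have hset : S.filter (fun w => A (s v) w ∧ A w t) = (S.filter (fun w => A v w ∧ A w t)).erase (s v) := by
      ext w
      rw [Finset.mem_erase, Finset.mem_filter, Finset.mem_filter]
      constructor
      · rintro ⟨hw, h4, h5⟩
        refine ⟨?_, hw, ?_, h5⟩
        · rintro rfl
          exact hd _ _ h4 h4
        · have hne2 : v ≠ w := by
            rintro rfl
            exact hd _ _ h2 h4
          rcases hi t ht' v hv w hw hvt h5 hne2 with h6 | h6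
          · exact h6
          · exact absurd h6 (ht v (s v) w h2 h4)
      · rintro ⟨h4, hw, h5, h6⟩
        exact ⟨hw, h3 w hw h5 h4, h6⟩
    have hmem : s v ∈ S.filter (fun w => A v w ∧ A w t) := Finset.mem_filter.mpr ⟨h1, h2, hst⟩
    have hrk : rk A S (s v) t = k := by
      unfold rk at hk ⊢
      rw [hset, Finset.card_erase_of_mem hmem, hk]
      omega
    rw [ih (s v) h1 t ht' hst hrk, ← Function.iterate_succ_apply]

theorem nocherry_ext (hd : ∀ a b, A a b → ¬ A b a) (ht : ∀ a b c, A a b → A b c → ¬ A c a)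
    (hx : ∀ v ∈ S, 0 < x v) (hB : Bal A S x)
    (ho : ∀ u ∈ S, ∀ a ∈ S, ∀ b ∈ S, A u a → A u b → a ≠ b → A a b ∨ A b a)
    (hi : ∀ u ∈ S, ∀ a ∈ S, ∀ b ∈ S, A a u → A b u → a ≠ b → A a b ∨ A b a)
    (heq : 3 * D A S x + ∑ v ∈ S, x v ^ 2 = (∑ v ∈ S, x v) ^ 2) (hcard : 2 ≤ S.card) : Ext A x S := by
  classical
  obtain ⟨s, l, hs, hl, hall, hinj, hds, hbd⟩ := nocherry_facts hd ht hx hB ho hi heq hcard
  set X := ∑ w ∈ S, x w with hX
  -- iterates
  have hit : ∀ i, ∀ v ∈ S, s^[i] v ∈ S := by
    intro i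
    induction i with
    | zero => intro v hv; exact hv
    | succ i ih => intro v hv; rw [Function.iterate_succ_apply]; exact ih _ (hs v hv).1
  have hcan : ∀ i, ∀ v ∈ S, ∀ w ∈ S, s^[i] v = s^[i] w → v = w := by
    intro i
    induction i with
    | zero => intro v _ w _ h; exact h
    | succ i ih =>
      intro v hv w hw h
      rw [Function.iterate_succ_apply, Function.iterate_succ_apply] at h
      exact hinj hv hw (ih _ (hs v hv).1 _ (hs w hw).1 h)
  have hdi : ∀ i, ∀ v ∈ S, dd A S x (s^[i] v) = dd A S x v := by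
    intro i
    induction i with
    | zero => intro v _; rfl
    | succ i ih =>
      intro v hv
      rw [Function.iterate_succ_apply, ih _ (hs v hv).1, hds v hv]
  have harc : ∀ v ∈ S, ∀ t ∈ S, A v t → t = s^[rk A S v t + 1] v := fun v hv t ht' h =>
    rk_spec hd ht hi hs _ v hv t ht' h rfl
  have hxv : ∀ v ∈ S, x v = X - 3 * dd A S x v := by
    intro v hv
    have h1 := hbd v hv
    have h2 : dd A S x (l v) = dd A S x v := by
      conv_lhs => rw [harc v hv (l v) (hl v hv).1 (hl v hv).2]
      exact hdi _ v hv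
    rw [h2] at h1
    linarith
  -- periodicity
  have hper : ∀ w ∈ S, ∃ P, 0 < P ∧ s^[P] w = w := by
    intro w hw
    have hmaps : Set.MapsTo (fun i => s^[i] w) (Finset.range (S.card + 1)) S := fun i _ => hit i w hw
    obtain ⟨i, hi', j, hj, hij, hsij⟩ := Finset.exists_ne_map_eq_of_card_lt_of_maps_to
      (by rw [Finset.card_range]; omega) hmaps
    rcases lt_or_gt_of_ne hij with h | h
    · refine ⟨j - i, by omega, ?_⟩
      refine hcan i _ (hit _ w hw) w hw ?_
      rw [← Function.iterate_add_apply, Nat.add_sub_cancel' h.le]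
      exact hsij.symm
    · refine ⟨i - j, by omega, ?_⟩
      refine hcan j _ (hit _ w hw) w hw ?_
      rw [← Function.iterate_add_apply, Nat.add_sub_cancel' h.le]
      exact hsij
  obtain ⟨v0, hv0⟩ : S.Nonempty := by rw [← Finset.card_pos]; omega
  -- the orbit of `v0` is everything
  have horb : ∀ w ∈ S, ∃ i, w = s^[i] v0 := by
    intro w hw
    rcases hall v0 hv0 w hw with h | h | h | h
    · exact ⟨0, h⟩
    · exact ⟨_, harc v0 hv0 w hw h⟩
    · obtain ⟨P, hP, hPw⟩ := hper w hw
      set j := rk A S w v0 + 1 with hj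
      have h1 : v0 = s^[j] w := harc w hw v0 hv0 h
      have h2 : ∀ q, s^[P * q] w = w := by
        intro q
        rw [Function.iterate_mul]
        exact Function.iterate_fixed hPw q
      refine ⟨P * j - j, ?_⟩
      have h3 : j ≤ P * j := Nat.le_mul_of_pos_left j hP
      conv_rhs => rw [h1]
      rw [← Function.iterate_add_apply, Nat.sub_add_cancel h3, h2]
    · obtain ⟨h1, h2⟩ := hl v0 hv0
      refine ⟨(rk A S (l v0) w + 1) + (rk A S v0 (l v0) + 1), ?_⟩
      rw [Function.iterate_add_apply, ← harc v0 hv0 (l v0) h1 h2]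
      exact harc (l v0) h1 w hw h
  set n := Function.minimalPeriod s v0 with hn
  have hn0 : 0 < n := by
    obtain ⟨P, hP, hPw⟩ := hper v0 hv0
    exact Function.minimalPeriod_pos_of_mem_periodicPts ⟨P, hP, hPw⟩
  have hinjn : ∀ a < n, ∀ b < n, s^[a] v0 = s^[b] v0 → a = b := by
    intro a ha b hb h
    exact Function.iterate_injOn_Iio_minimalPeriod (Set.mem_Iio.mpr ha) (Set.mem_Iio.mpr hb) h
  have himg : (Finset.range n).image (fun i => s^[i] v0) = S := by
    ext w
    rw [Finset.mem_image]
    constructor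
    · rintro ⟨i, _, rfl⟩
      exact hit i v0 hv0
    · intro hw
      obtain ⟨i, hi'⟩ := horb w hw
      refine ⟨i % n, Finset.mem_range.mpr (Nat.mod_lt _ hn0), ?_⟩
      rw [hi']
      exact Function.iterate_mod_minimalPeriod_eq
  have hcardn : S.card = n := by
    rw [← himg, Finset.card_image_of_injOn, Finset.card_range]
    intro a ha b hb h
    exact hinjn a (Finset.mem_range.mp (Finset.mem_coe.mp ha)) b (Finset.mem_range.mp (Finset.mem_coe.mp hb)) h
  -- uniform weights
  set c := x v0 with hc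
  have hc0 : 0 < c := hx v0 hv0
  have hdv : ∀ v ∈ S, dd A S x v = dd A S x v0 := by
    intro v hv
    obtain ⟨i, rfl⟩ := horb v hv
    exact hdi i v0 hv0
  have hxc : ∀ v ∈ S, x v = c := by
    intro v hv
    rw [hxv v hv, hdv v hv, hc, hxv v0 hv0]
  have hXn : X = n * c := by
    rw [hX, Finset.sum_congr rfl hxc, Finset.sum_const, nsmul_eq_mul, hcardn]
  have hdN : ∀ v ∈ S, dd A S x v = (S.filter (fun w => A v w)).card * c := by
    intro v hv
    unfold dd
    have h1 : ∑ w ∈ S, x w * e A v w = ∑ w ∈ S, if A v w then c else 0 := by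
      refine Finset.sum_congr rfl fun w hw => ?_
      rw [hxc w hw]
      unfold e
      split_ifs <;> simp
    rw [h1, ← Finset.sum_filter, Finset.sum_const, nsmul_eq_mul]
  set m := (S.filter (fun w => A v0 w)).card with hm
  have hNm : ∀ v ∈ S, (S.filter (fun w => A v w)).card = m := by
    intro v hv
    have h1 := hdv v hv
    rw [hdN v hv, hdN v0 hv0] at h1
    have h2 := mul_right_cancel₀ hc0.ne' h1
    exact_mod_cast h2
  have hm1 : 1 ≤ m := by
    have h1 : s v0 ∈ S.filter (fun w => A v0 w) := Finset.mem_filter.mpr ⟨(hs v0 hv0).1, (hs v0 hv0).2.1⟩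
    have := Finset.card_pos.mpr ⟨_, h1⟩
    omega
  have hmn : m < n := by
    rw [← hcardn, hm]
    refine Finset.card_lt_card ⟨Finset.filter_subset _ _, fun h => ?_⟩
    have := (Finset.mem_filter.mp (h hv0)).2
    exact hd _ _ this this
  have hn3 : n = 3 * m + 1 := by
    have h1 := hxv v0 hv0
    rw [hdN v0 hv0, hXn, ← hc, ← hm] at h1
    have h2 : ((n : ℝ) - (3 * m + 1)) * c = 0 := by linarith
    rcases mul_eq_zero.mp h2 with h3 | h3
    · have h4 : (n : ℝ) = ((3 * m + 1 : ℕ) : ℝ) := by push_cast; linarith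
      exact_mod_cast h4
    · exact absurd h3 hc0.ne'
  -- out-neighbourhoods
  have hN : ∀ v ∈ S, S.filter (fun w => A v w) = (Finset.Icc 1 m).image (fun j => s^[j] v) := by
    intro v hv
    have hsub : S.filter (fun w => A v w) ⊆ (Finset.Icc 1 m).image (fun j => s^[j] v) := by
      intro t ht'
      obtain ⟨h1, h2⟩ := Finset.mem_filter.mp ht'
      refine Finset.mem_image.mpr ⟨rk A S v t + 1, Finset.mem_Icc.mpr ⟨by omega, ?_⟩, (harc v hv t h1 h2).symm⟩
      have h3 : S.filter (fun w => A v w ∧ A w t) ⊆ (S.filter (fun w => A v w)).erase t := by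
        intro w hw
        obtain ⟨h4, h5, h6⟩ := Finset.mem_filter.mp hw
        refine Finset.mem_erase.mpr ⟨?_, Finset.mem_filter.mpr ⟨h4, h5⟩⟩
        rintro rfl
        exact hd _ _ h6 h6
      have h4 := Finset.card_le_card h3
      rw [Finset.card_erase_of_mem ht', hNm v hv] at h4
      have h5 : rk A S v t ≤ m - 1 := h4
      omega
    refine Finset.eq_of_subset_of_card_le hsub ?_
    rw [hNm v hv]
    refine Finset.card_image_le.trans ?_
    rw [Nat.card_Icc]
    omega
  have hperv : s^[n] v0 = v0 := Function.iterate_minimalPeriod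
  refine Ext.circ S m (fun a => {s^[a] v0}) hm1 ?_ ?_ ?_ ?_ ?_ (fun a => Ext.single _)
  · intro a
    show ({s^[a + (3 * m + 1)] v0} : Finset V) = {s^[a] v0}
    rw [← hn3, Function.iterate_add_apply, hperv]
  · intro a ha b hb hab
    rw [← hn3] at ha hb
    rw [Finset.disjoint_singleton]
    exact fun h => hab (hinjn a ha b hb h)
  · rw [← hn3]
    ext w
    rw [Finset.mem_biUnion]
    constructor
    · intro hw
      rw [← himg, Finset.mem_image] at hw
      obtain ⟨i, hi', rfl⟩ := hw
      exact ⟨i, hi', Finset.mem_singleton_self _⟩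
    · rintro ⟨i, _, h⟩
      rw [Finset.mem_singleton.mp h]
      exact hit i v0 hv0
  · intro a b
    rw [Finset.sum_singleton, Finset.sum_singleton, hxc _ (hit a v0 hv0), hxc _ (hit b v0 hv0)]
  · intro a b hb0 hbn u hu v hv
    rw [← hn3] at hbn
    rw [Finset.mem_singleton] at hu hv
    subst hu hv
    have hua : s^[a] v0 ∈ S := hit a v0 hv0
    have hab : s^[a + b] v0 = s^[b] (s^[a] v0) := by rw [add_comm, Function.iterate_add_apply]
    constructor
    · intro h
      have h1 : s^[a + b] v0 ∈ S.filter (fun w => A (s^[a] v0) w) :=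
        Finset.mem_filter.mpr ⟨hit _ v0 hv0, h⟩
      rw [hN _ hua, Finset.mem_image] at h1
      obtain ⟨j, hj, hj2⟩ := h1
      obtain ⟨hj3, hj4⟩ := Finset.mem_Icc.mp hj
      have h2 : s^[a] (s^[j] v0) = s^[a] (s^[b] v0) := by
        rw [← Function.iterate_add_apply, ← Function.iterate_add_apply, ← hj2, add_comm a j,
          Function.iterate_add_apply]
      have h3 := hcan a _ (hit j v0 hv0) _ (hit b v0 hv0) h2
      have h4 := hinjn j (by omega) b hbn h3
      omega
    · intro h
      have h1 : s^[b] (s^[a] v0) ∈ S.filter (fun w => A (s^[a] v0) w) := by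
        rw [hN _ hua]
        exact Finset.mem_image.mpr ⟨b, Finset.mem_Icc.mpr ⟨hb0, h⟩, rfl⟩
      rw [hab]
      exact (Finset.mem_filter.mp h1).2

end Pool.Agent.P76b2.Forb
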