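import Pool.Agent.Lib.P76b2.EqCirc

/-!
# The equality case (MP_76b2fe_co)
-/

set_option autoImplicit false
set_option linter.unusedSectionVars false

open Finset

namespace Pool.Agent.P76b2.Forb

variable {V : Type*} [DecidableEq V] {A : V → V → Prop} [DecidableRel A]

/-- Equality passes to the module and to the quotient. -/
lemma IsMod.glue_eq {S M : Finset V} {x : V → ℝ} {m : V} (hM : IsMod A S M) (hm : m ∈ M) (hl : ¬ A m m)
    (h1 : 3 * D A M x + ∑ v ∈ M, x v ^ 2 ≤ (∑ v ∈ M, x v) ^ 2)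
    (h2 : 3 * D A (qS S M m) (qx x M m) + ∑ v ∈ qS S M m, qx x M m v ^ 2 ≤ (∑ v ∈ qS S M m, qx x M m v) ^ 2)
    (h : 3 * D A S x + ∑ v ∈ S, x v ^ 2 = (∑ v ∈ S, x v) ^ 2) :
    3 * D A M x + ∑ v ∈ M, x v ^ 2 = (∑ v ∈ M, x v) ^ 2 ∧
    3 * D A (qS S M m) (qx x M m) + ∑ v ∈ qS S M m, qx x M m v ^ 2 = (∑ v ∈ qS S M m, qx x M m v) ^ 2 := by
  have e1 := sum_q (S := S) (x := x) hm (fun _ y => y ^ 2)
  have e2 := sum_q (S := S) (x := x) hm (fun _ y => y)
  rw [e1, e2] at h2 ⊢
  rw [hM.qD hm hl, split_sum hM.1 (fun v => x v ^ 2), split_sum hM.1 x] at h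
  constructor <;> linarith

/-- The equality case of `weighted3`. -/
theorem weighted3_eq : ∀ n : ℕ, ∀ S : Finset V, S.card = n → S.Nonempty → Cls A S → ∀ x : V → ℝ,
    (∀ v ∈ S, 0 < x v) → Bal A S x → 3 * D A S x + ∑ v ∈ S, x v ^ 2 = (∑ v ∈ S, x v) ^ 2 → Ext A x S := by
  intro n
  induction n using Nat.strong_induction_on with
  | _ n ih =>
    intro S hS hne h x hx hB heq
    by_cases hP : Prm A S
    · rcases Nat.lt_or_ge S.card 2 with h2 | h2
      · have h3 : S.card = 1 := by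
          have := Finset.card_pos.mpr hne
          omega
        obtain ⟨v, rfl⟩ := Finset.card_eq_one.mp h3
        exact Ext.single v
      · have hst := h.star hx hB hP
        have hi : ∀ u ∈ S, ∀ a ∈ S, ∀ b ∈ S, A a u → A b u → a ≠ b → A a b ∨ A b a := by
          intro u hu a ha b hb hau hbu hab
          by_contra hcon
          push Not at hcon
          exact hP (cherry_module h.hd h.ht hx hB hst hu ha hb ⟨hab, hcon.1, hcon.2⟩ hau hbu)
        exact nocherry_ext h.hd h.ht hx hB (no_out h.hd hx hB hi) hi heq h2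
    · unfold Prm at hP
      push Not at hP
      obtain ⟨M, hM, hM2, hMS⟩ := hP
      obtain ⟨m, hm⟩ : M.Nonempty := by
        rw [← Finset.card_pos]; omega
      have hl : ¬ A m m := fun h1 => h.hd m m h1 h1
      have hxM : ∀ v ∈ M, 0 < x v := fun v hv => hx v (hM.1 hv)
      have hcq : (qS S M m).card < n := hS ▸ card_qS hM hm hM2
      obtain ⟨e1, e2⟩ := hM.glue_eq hm hl
        (weighted3 _ M rfl (h.mono hM.1) x hxM (hM.bal hx hB))
        (weighted3 _ (qS S M m) rfl (h.mono (qS_sub hM hm)) _ (qx_pos hM hm hx) (hM.qbal hx hB hm)) heq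
      have i1 := ih M.card (hS ▸ hMS) M rfl ⟨m, hm⟩ (h.mono hM.1) x hxM (hM.bal hx hB) e1
      have i2 := ih (qS S M m).card hcq _ rfl ⟨m, Finset.mem_insert_self _ _⟩ (h.mono (qS_sub hM hm)) _
        (qx_pos hM hm hx) (hM.qbal hx hB hm) e2
      exact Ext.subst hm i1 i2 S hM rfl

end Pool.Agent.P76b2.Forb
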