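import Pool.Agent.Lib.P76b2.NoDirty

/-!
# Extremal digraphs: definition and the easy direction (MP_76b2fe_co)
-/

set_option autoImplicit false
set_option linter.unusedSectionVars false

open Finset

namespace Pool.Agent.P76b2.Forb

variable {V : Type*} [DecidableEq V]

/-- Iterated substitution of circulants: a one-vertex set belongs to the class; if `B 0, ..., B (3 m)` (indices
modulo `3 m + 1`, `m ≥ 1`) are disjoint sets of the class with the same total weight and all arcs from `B a` to
`B (a + b)` are present for `1 ≤ b ≤ m` and none for `m < b ≤ 3 m`, then their union belongs to the class. -/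
inductive Ext (A : V → V → Prop) (x : V → ℝ) : Finset V → Prop
  | single (v : V) : Ext A x {v}
  | circ (S : Finset V) (m : ℕ) (B : ℕ → Finset V) (hm : 1 ≤ m) (hper : ∀ a, B (a + (3 * m + 1)) = B a)
      (hdisj : ∀ a < 3 * m + 1, ∀ b < 3 * m + 1, a ≠ b → Disjoint (B a) (B b))
      (hS : S = (Finset.range (3 * m + 1)).biUnion B)
      (hw : ∀ a b, ∑ v ∈ B a, x v = ∑ v ∈ B b, x v)
      (harc : ∀ a b, 0 < b → b < 3 * m + 1 → ∀ u ∈ B a, ∀ v ∈ B (a + b), (A u v ↔ b ≤ m))
      (h : ∀ a, Ext A x (B a)) : Ext A x S

variable {A : V → V → Prop}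

/-- A periodic family at an index modulo the period. -/
lemma per_mod {n : ℕ} {B : ℕ → Finset V} (hper : ∀ a, B (a + n) = B a) (a : ℕ) : B a = B (a % n) := by
  have h1 : ∀ k a, B (a + k * n) = B a := by
    intro k
    induction k with
    | zero => intro a; simp
    | succ k ihk =>
      intro a
      rw [Nat.succ_mul, ← add_assoc, hper, ihk]
  conv_lhs => rw [← Nat.mod_add_div a n, mul_comm]
  rw [h1]

/-- The class depends only on the weights on the set. -/
lemma Ext.congr {x y : V → ℝ} {S : Finset V} (h : Ext A x S) (hxy : ∀ v ∈ S, x v = y v) : Ext A y S := by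
  induction h with
  | single v => exact Ext.single v
  | circ S m B hm hper hdisj hS hw harc h ih =>
    have hsub : ∀ a, B a ⊆ S := by
      intro a
      rw [per_mod hper a, hS]
      exact Finset.subset_biUnion_of_mem B (Finset.mem_range.mpr (Nat.mod_lt _ (by omega)))
    refine Ext.circ S m B hm hper hdisj hS ?_ harc (fun a => ih a (fun v hv => hxy v (hsub a hv)))
    intro a b
    rw [← Finset.sum_congr rfl (fun v hv => hxy v (hsub a hv)), ← Finset.sum_congr rfl (fun v hv => hxy v (hsub b hv))]
    exact hw a b

variable [DecidableRel A] {x : V → ℝ}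

/-- The members of the class attain equality. -/
theorem Ext.eq (hl : ∀ v, ¬ A v v) {S : Finset V} (h : Ext A x S) :
    3 * D A S x + ∑ v ∈ S, x v ^ 2 = (∑ v ∈ S, x v) ^ 2 := by
  induction h with
  | single v =>
    unfold D
    simp [e_zero (hl v)]
  | circ S m B hm hper hdisj hS hw harc h ih =>
    set n := 3 * m + 1 with hn
    set c := ∑ v ∈ B 0, x v with hc
    have hwc : ∀ a, ∑ v ∈ B a, x v = c := fun a => hw a 0
    have hpd : Set.PairwiseDisjoint (↑(Finset.range n)) B := by
      intro a ha b hb hab
      exact hdisj a (Finset.mem_range.mp (Finset.mem_coe.mp ha)) b (Finset.mem_range.mp (Finset.mem_coe.mp hb)) hab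
    have hsum : ∀ f : V → ℝ, ∑ v ∈ S, f v = ∑ a ∈ range n, ∑ v ∈ B a, f v := by
      intro f
      rw [hS, Finset.sum_biUnion hpd]
    -- arcs between the blocks
    have hblk : ∀ a ∈ range n, ∀ b ∈ range n, a ≠ b →
        ∑ u ∈ B a, ∑ v ∈ B b, x u * x v * e A u v = if (b + n - a) % n ≤ m then c ^ 2 else 0 := by
      intro a ha b hb hab
      have ha' := Finset.mem_range.mp ha
      have hb' := Finset.mem_range.mp hb
      set t := (b + n - a) % n with ht
      have htn : t < n := Nat.mod_lt _ (by omega)
      have hmod : (a + t) % n = b := by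
        rw [ht, Nat.add_mod_mod]
        have : a + (b + n - a) = b + n := by omega
        rw [this, Nat.add_mod_right, Nat.mod_eq_of_lt hb']
      have ht0 : 0 < t := by
        rcases Nat.eq_zero_or_pos t with h0 | h0
        · rw [h0, add_zero, Nat.mod_eq_of_lt ha'] at hmod
          exact absurd hmod hab
        · exact h0
      have hBb : B (a + t) = B b := by rw [per_mod hper (a + t), hmod]
      have hA : ∀ u ∈ B a, ∀ v ∈ B b, (A u v ↔ t ≤ m) := by
        intro u hu v hv
        exact harc a t ht0 htn u hu v (hBb ▸ hv)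
      by_cases htm : t ≤ m
      · rw [if_pos htm]
        have : ∑ u ∈ B a, ∑ v ∈ B b, x u * x v * e A u v = (∑ u ∈ B a, x u) * ∑ v ∈ B b, x v := by
          rw [Finset.sum_mul_sum]
          refine Finset.sum_congr rfl fun u hu => Finset.sum_congr rfl fun v hv => ?_
          rw [e_one ((hA u hu v hv).mpr htm), mul_one]
        rw [this, hwc, hwc]; ring
      · rw [if_neg htm]
        refine Finset.sum_eq_zero fun u hu => Finset.sum_eq_zero fun v hv => ?_
        rw [e_zero (fun h1 => htm ((hA u hu v hv).mp h1)), mul_zero]
    -- the number of `b` with `1 ≤ b - a ≤ m`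
    have hcount : ∀ a ∈ range n, ∑ b ∈ (range n).erase a, (if (b + n - a) % n ≤ m then c ^ 2 else 0) =
        m * c ^ 2 := by
      intro a ha
      have ha' := Finset.mem_range.mp ha
      rw [← Finset.sum_filter, Finset.sum_const, nsmul_eq_mul]
      congr 2
      have : ((range n).erase a).filter (fun b => (b + n - a) % n ≤ m) =
          (Finset.Icc 1 m).image (fun t => (a + t) % n) := by
        ext b
        simp only [Finset.mem_filter, Finset.mem_erase, Finset.mem_range, Finset.mem_image, Finset.mem_Icc]
        constructor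
        · rintro ⟨⟨hba, hb⟩, hle⟩
          refine ⟨(b + n - a) % n, ⟨?_, hle⟩, ?_⟩
          · rcases Nat.eq_zero_or_pos ((b + n - a) % n) with h0 | h0
            · exfalso
              rcases lt_or_ge b a with h1 | h1
              · rw [Nat.mod_eq_of_lt (by omega)] at h0; omega
              · have : b + n - a = (b - a) + n := by omega
                rw [this, Nat.add_mod_right, Nat.mod_eq_of_lt (by omega)] at h0
                omega
            · exact h0
          · rw [Nat.add_mod_mod]
            have : a + (b + n - a) = b + n := by omega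
            rw [this, Nat.add_mod_right, Nat.mod_eq_of_lt hb]
        · rintro ⟨t, ⟨h1, h2⟩, rfl⟩
          rcases lt_or_ge (a + t) n with h3 | h3
          · rw [Nat.mod_eq_of_lt h3]
            have h4 : a + t + n - a = t + n := by omega
            rw [h4, Nat.add_mod_right, Nat.mod_eq_of_lt (by omega)]
            omega
          · have h5 : (a + t) % n = a + t - n := by
              rw [Nat.mod_eq_sub_mod h3, Nat.mod_eq_of_lt (by omega)]
            rw [h5]
            have h4 : a + t - n + n - a = t := by omega
            rw [h4, Nat.mod_eq_of_lt (by omega)]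
            omega
      rw [this, Finset.card_image_of_injOn]
      · simp
      · intro t ht t' ht' htt
        simp only [Finset.coe_Icc, Set.mem_Icc] at ht ht'
        simp only at htt
        rcases lt_or_ge (a + t) n with h3 | h3 <;> rcases lt_or_ge (a + t') n with h4 | h4
        · rw [Nat.mod_eq_of_lt h3, Nat.mod_eq_of_lt h4] at htt; omega
        · rw [Nat.mod_eq_of_lt h3, Nat.mod_eq_sub_mod h4, Nat.mod_eq_of_lt (by omega)] at htt; omega
        · rw [Nat.mod_eq_of_lt h4, Nat.mod_eq_sub_mod h3, Nat.mod_eq_of_lt (by omega)] at htt; omega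
        · rw [Nat.mod_eq_sub_mod h4, Nat.mod_eq_sub_mod h3, Nat.mod_eq_of_lt (by omega),
            Nat.mod_eq_of_lt (by omega)] at htt
          omega
    have hD : D A S x = ∑ a ∈ range n, (D A (B a) x + m * c ^ 2) := by
      unfold D
      rw [hsum]
      refine Finset.sum_congr rfl fun a ha => ?_
      have h1 : ∑ u ∈ B a, ∑ w ∈ S, x u * x w * e A u w =
          ∑ b ∈ range n, ∑ u ∈ B a, ∑ w ∈ B b, x u * x w * e A u w := by
        calc ∑ u ∈ B a, ∑ w ∈ S, x u * x w * e A u w
            = ∑ u ∈ B a, ∑ b ∈ range n, ∑ w ∈ B b, x u * x w * e A u w :=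
              Finset.sum_congr rfl fun u _ => hsum _
          _ = _ := Finset.sum_comm
      rw [h1, ← Finset.add_sum_erase _ _ ha, ← hcount a ha]
      congr 1
      refine Finset.sum_congr rfl fun b hb => ?_
      obtain ⟨hba, hb⟩ := Finset.mem_erase.mp hb
      exact hblk a ha b hb hba.symm
    have hX : ∑ v ∈ S, x v = n * c := by
      rw [hsum, Finset.sum_congr rfl (fun a _ => hwc a), Finset.sum_const, Finset.card_range, nsmul_eq_mul]
    have hfin : 3 * D A S x + ∑ v ∈ S, x v ^ 2 = ∑ a ∈ range n, (c ^ 2 + 3 * m * c ^ 2) := by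
      rw [hD, hsum (fun v => x v ^ 2), Finset.mul_sum, ← Finset.sum_add_distrib]
      refine Finset.sum_congr rfl fun a _ => ?_
      have := ih a
      rw [hwc a] at this
      linarith
    rw [hfin, hX, Finset.sum_const, Finset.card_range, nsmul_eq_mul, hn]
    push_cast
    ring

end Pool.Agent.P76b2.Forb
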