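import Pool.Agent.Lib.P76b2.ExtDef

/-!
# Extremal digraphs: substitution (MP_76b2fe_co)
-/

set_option autoImplicit false
set_option linter.unusedSectionVars false

open Finset

namespace Pool.Agent.P76b2.Forb

variable {V : Type*} [DecidableEq V] {A : V → V → Prop} {x : V → ℝ}

/-- Different blocks of a circular family are disjoint. -/
lemma blocks_disj {n : ℕ} {B : ℕ → Finset V} (hper : ∀ a, B (a + n) = B a)
    (hdisj : ∀ a < n, ∀ b < n, a ≠ b → Disjoint (B a) (B b)) {a b : ℕ} (hb0 : 0 < b) (hbn : b < n) :
    Disjoint (B a) (B (a + b)) := by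
  rw [per_mod hper a, per_mod hper (a + b)]
  have hn : 0 < n := by omega
  refine hdisj _ (Nat.mod_lt _ hn) _ (Nat.mod_lt _ hn) ?_
  intro h
  have h1 : (a + b) % n = (a + 0) % n := by rw [add_zero]; exact h.symm
  have h2 : b % n = 0 % n := Nat.ModEq.add_left_cancel' a h1
  rw [Nat.mod_eq_of_lt hbn, Nat.zero_mod] at h2
  omega

/-- A module of the class can be substituted into a quotient of the class. -/
theorem Ext.subst {M : Finset V} {m : V} (hm : m ∈ M) (hM : Ext A x M) {T : Finset V}
    (hT : Ext A (qx x M m) T) : ∀ S, IsMod A S M → T = qS S M m → Ext A x S := by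
  induction hT with
  | single v =>
    intro S hS hTS
    have h1 : S \ M = ∅ := by
      rw [Finset.eq_empty_iff_forall_notMem]
      intro y hy
      have h2 : m ∈ ({v} : Finset V) := by rw [hTS]; exact Finset.mem_insert_self _ _
      have h3 : y ∈ ({v} : Finset V) := by rw [hTS]; exact Finset.mem_insert_of_mem hy
      rw [Finset.mem_singleton] at h2 h3
      rw [h3, ← h2] at hy
      exact (Finset.mem_sdiff.mp hy).2 hm
    have h2 : S = M := Finset.Subset.antisymm (Finset.sdiff_eq_empty_iff_subset.mp h1) hS.1
    rw [h2]; exact hM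
  | circ T k B hk hper hdisj hT hw harc hB ih =>
    intro S hS hTS
    set n := 3 * k + 1 with hn
    have hBT : ∀ a, B a ⊆ T := by
      intro a
      rw [per_mod hper a, hT]
      exact Finset.subset_biUnion_of_mem B (Finset.mem_range.mpr (Nat.mod_lt _ (by omega)))
    have hBS : ∀ a, ∀ v ∈ B a, v ≠ m → v ∈ S ∧ v ∉ M := by
      intro a v hv hvm
      have h1 := hBT a hv
      rw [hTS] at h1
      rcases Finset.mem_insert.mp h1 with h2 | h2
      · exact absurd h2 hvm
      · exact Finset.mem_sdiff.mp h2
    set B' : ℕ → Finset V := fun a => if m ∈ B a then M ∪ (B a).erase m else B a with hB'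
    have hB'1 : ∀ a, m ∈ B a → B' a = M ∪ (B a).erase m := fun a h => if_pos h
    have hB'2 : ∀ a, m ∉ B a → B' a = B a := fun a h => if_neg h
    -- representatives
    have hrep : ∀ a, ∀ v ∈ B' a, (v ∈ M ∧ m ∈ B a) ∨ (v ∉ M ∧ v ∈ B a ∧ v ∈ S) := by
      intro a v hv
      by_cases hma : m ∈ B a
      · rw [hB'1 a hma] at hv
        rcases Finset.mem_union.mp hv with h1 | h1
        · exact Or.inl ⟨h1, hma⟩
        · obtain ⟨h2, h3⟩ := Finset.mem_erase.mp h1
          obtain ⟨h4, h5⟩ := hBS a v h3 h2
          exact Or.inr ⟨h5, h3, h4⟩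
      · rw [hB'2 a hma] at hv
        have h2 : v ≠ m := by
          rintro rfl
          exact hma hv
        obtain ⟨h4, h5⟩ := hBS a v hv h2
        exact Or.inr ⟨h5, hv, h4⟩
    refine Ext.circ S k B' hk ?_ ?_ ?_ ?_ ?_ ?_
    · intro a
      show (if m ∈ B (a + n) then M ∪ (B (a + n)).erase m else B (a + n)) = B' a
      rw [hper]
    · intro a ha b hb hab
      rw [Finset.disjoint_left]
      intro v hva hvb
      have hd := hdisj a ha b hb hab
      rw [Finset.disjoint_left] at hd
      rcases hrep a v hva with ⟨h1, h2⟩ | ⟨h1, h2, -⟩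
      · rcases hrep b v hvb with ⟨h3, h4⟩ | ⟨h3, h4, -⟩
        · exact hd h2 h4
        · exact h3 h1
      · rcases hrep b v hvb with ⟨h3, h4⟩ | ⟨h3, h4, -⟩
        · exact h1 h3
        · exact hd h2 h4
    · ext v
      rw [Finset.mem_biUnion]
      constructor
      · intro hv
        by_cases hvM : v ∈ M
        · have h1 : m ∈ T := by rw [hTS]; exact Finset.mem_insert_self _ _
          rw [hT, Finset.mem_biUnion] at h1
          obtain ⟨a, ha, hma⟩ := h1
          exact ⟨a, ha, by rw [hB'1 a hma]; exact Finset.mem_union_left _ hvM⟩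
        · have h1 : v ∈ T := by
            rw [hTS]
            exact Finset.mem_insert_of_mem (Finset.mem_sdiff.mpr ⟨hv, hvM⟩)
          rw [hT, Finset.mem_biUnion] at h1
          obtain ⟨a, ha, hva⟩ := h1
          refine ⟨a, ha, ?_⟩
          by_cases hma : m ∈ B a
          · rw [hB'1 a hma]
            refine Finset.mem_union_right _ (Finset.mem_erase.mpr ⟨?_, hva⟩)
            rintro rfl
            exact hvM hm
          · rw [hB'2 a hma]; exact hva
      · rintro ⟨a, ha, hva⟩
        rcases hrep a v hva with ⟨h1, -⟩ | ⟨-, -, h1⟩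
        · exact hS.1 h1
        · exact h1
    · have key : ∀ a, ∑ v ∈ B' a, x v = ∑ v ∈ B a, qx x M m v := by
        intro a
        by_cases hma : m ∈ B a
        · rw [hB'1 a hma, Finset.sum_union, ← Finset.add_sum_erase _ _ hma]
          · congr 1
            · unfold qx; rw [Function.update_self]
            · refine Finset.sum_congr rfl fun v hv => ?_
              unfold qx; rw [Function.update_of_ne (Finset.mem_erase.mp hv).1]
          · rw [Finset.disjoint_left]
            intro v hvM hv
            obtain ⟨h2, h3⟩ := Finset.mem_erase.mp hv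
            exact (hBS a v h3 h2).2 hvM
        · rw [hB'2 a hma]
          refine Finset.sum_congr rfl fun v hv => ?_
          unfold qx
          rw [Function.update_of_ne]
          rintro rfl
          exact hma hv
      intro a b
      rw [key, key]
      exact hw a b
    · intro a b hb0 hbn u hu v hv
      have hd := blocks_disj hper hdisj (a := a) hb0 hbn
      rw [Finset.disjoint_left] at hd
      rcases hrep a u hu with ⟨h1, h2⟩ | ⟨h1, h2, h2S⟩
      · rcases hrep (a + b) v hv with ⟨h3, h4⟩ | ⟨h3, h4, h4S⟩
        · exact absurd h4 (hd h2)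
        · rw [(hS.2 v h4S h3 u h1 m hm).2]
          exact harc a b hb0 hbn m h2 v h4
      · rcases hrep (a + b) v hv with ⟨h3, h4⟩ | ⟨h3, h4, h4S⟩
        · rw [(hS.2 u h2S h1 v h3 m hm).1]
          exact harc a b hb0 hbn u h2 m h4
        · exact harc a b hb0 hbn u h2 v h4
    · intro a
      by_cases hma : m ∈ B a
      · refine ih a (B' a) ⟨?_, ?_⟩ ?_
        · rw [hB'1 a hma]; exact Finset.subset_union_left
        · intro v hv hvM
          rcases hrep a v hv with ⟨h1, -⟩ | ⟨-, -, h1⟩
          · exact absurd h1 hvM
          · exact hS.2 v h1 hvM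
        · rw [hB'1 a hma]
          unfold qS
          have h1 : (M ∪ (B a).erase m) \ M = (B a).erase m := by
            ext v
            rw [Finset.mem_sdiff, Finset.mem_union]
            constructor
            · rintro ⟨h1 | h1, h2⟩
              · exact absurd h1 h2
              · exact h1
            · intro h1
              refine ⟨Or.inr h1, ?_⟩
              obtain ⟨h2, h3⟩ := Finset.mem_erase.mp h1
              exact (hBS a v h3 h2).2
          rw [h1, Finset.insert_erase hma]
      · rw [hB'2 a hma]
        refine (hB a).congr fun v hv => ?_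
        unfold qx
        rw [Function.update_of_ne]
        rintro rfl
        exact hma hv

end Pool.Agent.P76b2.Forb
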