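import Pool.Agent.Lib.P76b2.CherryMod

/-!
# The theorem on `Star` digraphs (MP_76b2fe_co)
-/

set_option autoImplicit false
set_option linter.unusedSectionVars false

open Finset

namespace Pool.Agent.P76b2.Forb

variable {V : Type*} [DecidableEq V] {A : V → V → Prop} [DecidableRel A] {S : Finset V} {x : V → ℝ}

/-- Rotation of a triple sum. -/
lemma rot (S : Finset V) (F : V → V → V → ℝ) :
    ∑ v ∈ S, ∑ a ∈ S, ∑ b ∈ S, F a b v = ∑ v ∈ S, ∑ a ∈ S, ∑ b ∈ S, F v a b := by
  rw [Finset.sum_comm]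
  refine Finset.sum_congr rfl fun a _ => ?_
  rw [Finset.sum_comm]

/-- The indicator of different and nonadjacent vertices. -/
def gg (A : V → V → Prop) [DecidableRel A] (a b : V) : ℝ :=
  1 - e A a b - e A b a - (if a = b then 1 else 0)

lemma gg_nonneg (hd : ∀ a b, A a b → ¬ A b a) (a b : V) : 0 ≤ gg A a b := by
  unfold gg
  by_cases hab : a = b
  · subst hab
    rw [e_zero (fun h => hd a a h h), if_pos rfl]; norm_num
  · rw [if_neg hab]
    by_cases h : A a b
    · rw [e_one h, e_zero (hd a b h)]; norm_num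
    · rw [e_zero h]
      by_cases h' : A b a
      · rw [e_one h']; norm_num
      · rw [e_zero h']; norm_num

lemma gg_one {a b : V} (h1 : a ≠ b) (h2 : ¬ A a b) (h3 : ¬ A b a) : gg A a b = 1 := by
  unfold gg
  rw [e_zero h2, e_zero h3, if_neg h1]; norm_num

lemma gg_zero (hd : ∀ a b, A a b → ¬ A b a) {a b : V} (h : a = b ∨ A a b ∨ A b a) : gg A a b = 0 := by
  unfold gg
  rcases h with rfl | h | h
  · rw [e_zero (fun h => hd a a h h), if_pos rfl]; norm_num
  · rw [e_one h, e_zero (hd a b h), if_neg]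
    · norm_num
    · rintro rfl
      exact hd a a h h
  · rw [e_one h, e_zero (hd b a h), if_neg]
    · norm_num
    · rintro rfl
      exact hd a a h h

lemma e_nonneg (a b : V) : 0 ≤ e A a b := by
  unfold e
  split_ifs <;> norm_num

lemma e_sq (a b : V) : e A a b * e A a b = e A a b := by
  unfold e
  split_ifs <;> norm_num

/-- The weighted numbers of out-cherries and of in-cherries agree. -/
lemma cherry_count (hB : Bal A S x) :
    ∑ v ∈ S, ∑ a ∈ S, ∑ b ∈ S, x v * x a * x b * (e A v a * e A v b * gg A a b) =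
      ∑ v ∈ S, ∑ a ∈ S, ∑ b ∈ S, x v * x a * x b * (e A a v * e A b v * gg A a b) := by
  -- the two sums of squares
  have h0 : ∑ v ∈ S, ∑ a ∈ S, ∑ b ∈ S, x v * x a * x b * (e A v a * e A v b) =
      ∑ v ∈ S, ∑ a ∈ S, ∑ b ∈ S, x v * x a * x b * (e A a v * e A b v) := by
    refine Finset.sum_congr rfl fun v hv => ?_
    have e1 : ∑ a ∈ S, ∑ b ∈ S, x v * x a * x b * (e A v a * e A v b) = x v * (dd A S x v) ^ 2 := by
      have : (dd A S x v) ^ 2 = ∑ a ∈ S, ∑ b ∈ S, (x a * e A v a) * (x b * e A v b) := by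
        rw [sq]
        unfold dd
        rw [Finset.sum_mul_sum]
      rw [this, Finset.mul_sum]
      refine Finset.sum_congr rfl fun a _ => ?_
      rw [Finset.mul_sum]
      exact Finset.sum_congr rfl fun b _ => by ring
    have e2 : ∑ a ∈ S, ∑ b ∈ S, x v * x a * x b * (e A a v * e A b v) = x v * (dd A S x v) ^ 2 := by
      have : (dd A S x v) ^ 2 = ∑ a ∈ S, ∑ b ∈ S, (x a * e A a v) * (x b * e A b v) := by
        rw [sq, hB.dd_eq hv, Finset.sum_mul_sum]
      rw [this, Finset.mul_sum]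
      refine Finset.sum_congr rfl fun a _ => ?_
      rw [Finset.mul_sum]
      exact Finset.sum_congr rfl fun b _ => by ring
    rw [e1, e2]
  -- transitive triangles
  have h1 : ∑ v ∈ S, ∑ a ∈ S, ∑ b ∈ S, x v * x a * x b * (e A v a * e A v b * e A a b) =
      ∑ v ∈ S, ∑ a ∈ S, ∑ b ∈ S, x v * x a * x b * (e A a v * e A b v * e A a b) := by
    rw [← rot S (fun v a b => x v * x a * x b * (e A v a * e A v b * e A a b))]
    exact Finset.sum_congr rfl fun v _ => Finset.sum_congr rfl fun a _ =>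
      Finset.sum_congr rfl fun b _ => by ring
  have h2 : ∑ v ∈ S, ∑ a ∈ S, ∑ b ∈ S, x v * x a * x b * (e A v a * e A v b * e A b a) =
      ∑ v ∈ S, ∑ a ∈ S, ∑ b ∈ S, x v * x a * x b * (e A a v * e A b v * e A b a) := by
    have s1 : ∑ v ∈ S, ∑ a ∈ S, ∑ b ∈ S, x v * x a * x b * (e A v a * e A v b * e A b a) =
        ∑ v ∈ S, ∑ a ∈ S, ∑ b ∈ S, x v * x a * x b * (e A v a * e A v b * e A a b) := by
      refine Finset.sum_congr rfl fun v _ => ?_
      rw [Finset.sum_comm]
      exact Finset.sum_congr rfl fun a _ => Finset.sum_congr rfl fun b _ => by ring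
    have s2 : ∑ v ∈ S, ∑ a ∈ S, ∑ b ∈ S, x v * x a * x b * (e A a v * e A b v * e A b a) =
        ∑ v ∈ S, ∑ a ∈ S, ∑ b ∈ S, x v * x a * x b * (e A a v * e A b v * e A a b) := by
      refine Finset.sum_congr rfl fun v _ => ?_
      rw [Finset.sum_comm]
      exact Finset.sum_congr rfl fun a _ => Finset.sum_congr rfl fun b _ => by ring
    rw [s1, s2, h1]
  -- the diagonal
  have h3 : ∑ v ∈ S, ∑ a ∈ S, ∑ b ∈ S, x v * x a * x b * (e A v a * e A v b * (if a = b then 1 else 0)) =
      ∑ v ∈ S, ∑ a ∈ S, ∑ b ∈ S, x v * x a * x b * (e A a v * e A b v * (if a = b then 1 else 0)) := by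
    have s1 : ∑ v ∈ S, ∑ a ∈ S, ∑ b ∈ S, x v * x a * x b * (e A v a * e A v b * (if a = b then 1 else 0)) =
        ∑ a ∈ S, x a ^ 2 * dd A S x a := by
      rw [Finset.sum_comm]
      refine Finset.sum_congr rfl fun a ha => ?_
      rw [hB.dd_eq ha, Finset.mul_sum]
      refine Finset.sum_congr rfl fun v _ => ?_
      rw [Finset.sum_eq_single a]
      · rw [if_pos rfl, e_sq]; ring
      · intro b _ hb
        rw [if_neg (fun h => hb h.symm)]; ring
      · intro h; exact absurd ha h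
    have s2 : ∑ v ∈ S, ∑ a ∈ S, ∑ b ∈ S, x v * x a * x b * (e A a v * e A b v * (if a = b then 1 else 0)) =
        ∑ a ∈ S, x a ^ 2 * dd A S x a := by
      rw [Finset.sum_comm]
      refine Finset.sum_congr rfl fun a ha => ?_
      unfold dd
      rw [Finset.mul_sum]
      refine Finset.sum_congr rfl fun v _ => ?_
      rw [Finset.sum_eq_single a]
      · rw [if_pos rfl, e_sq]; ring
      · intro b _ hb
        rw [if_neg (fun h => hb h.symm)]; ring
      · intro h; exact absurd ha h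
    rw [s1, s2]
  have hexp : ∀ F : V → V → V → ℝ,
      ∑ v ∈ S, ∑ a ∈ S, ∑ b ∈ S, x v * x a * x b * (F v a b * gg A a b) =
        ∑ v ∈ S, ∑ a ∈ S, ∑ b ∈ S, x v * x a * x b * F v a b -
          ∑ v ∈ S, ∑ a ∈ S, ∑ b ∈ S, x v * x a * x b * (F v a b * e A a b) -
          ∑ v ∈ S, ∑ a ∈ S, ∑ b ∈ S, x v * x a * x b * (F v a b * e A b a) -
          ∑ v ∈ S, ∑ a ∈ S, ∑ b ∈ S, x v * x a * x b * (F v a b * (if a = b then 1 else 0)) := by
    intro F
    simp only [← Finset.sum_sub_distrib]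
    refine Finset.sum_congr rfl fun v _ => Finset.sum_congr rfl fun a _ =>
      Finset.sum_congr rfl fun b _ => ?_
    unfold gg
    ring
  rw [hexp (fun v a b => e A v a * e A v b), hexp (fun v a b => e A a v * e A b v), h0, h1, h2, h3]

/-- Without in-cherries there are no out-cherries. -/
lemma no_out (hd : ∀ a b, A a b → ¬ A b a) (hx : ∀ v ∈ S, 0 < x v) (hB : Bal A S x)
    (hi : ∀ u ∈ S, ∀ a ∈ S, ∀ b ∈ S, A a u → A b u → a ≠ b → A a b ∨ A b a) :
    ∀ u ∈ S, ∀ a ∈ S, ∀ b ∈ S, A u a → A u b → a ≠ b → A a b ∨ A b a := by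
  intro u hu a ha b hb hua hub hab
  by_contra hcon
  push Not at hcon
  have hin : ∑ v ∈ S, ∑ a ∈ S, ∑ b ∈ S, x v * x a * x b * (e A a v * e A b v * gg A a b) = 0 := by
    refine Finset.sum_eq_zero fun v hv => Finset.sum_eq_zero fun a ha => Finset.sum_eq_zero fun b hb => ?_
    by_cases h1 : A a v
    · by_cases h2 : A b v
      · rw [gg_zero hd]
        · ring
        · by_cases h3 : a = b
          · exact Or.inl h3
          · exact Or.inr (hi v hv a ha b hb h1 h2 h3)
      · rw [e_zero h2]; ring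
    · rw [e_zero h1]; ring
  rw [← cherry_count hB] at hin
  have hnn : ∀ v ∈ S, ∀ a ∈ S, ∀ b ∈ S, 0 ≤ x v * x a * x b * (e A v a * e A v b * gg A a b) := by
    intro v hv a ha b hb
    exact mul_nonneg (mul_nonneg (mul_nonneg (hx v hv).le (hx a ha).le) (hx b hb).le)
      (mul_nonneg (mul_nonneg (e_nonneg _ _) (e_nonneg _ _)) (gg_nonneg hd _ _))
  have h1 : x u * x a * x b * (e A u a * e A u b * gg A a b) ≤
      ∑ b ∈ S, x u * x a * x b * (e A u a * e A u b * gg A a b) :=
    Finset.single_le_sum (f := fun b => x u * x a * x b * (e A u a * e A u b * gg A a b))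
      (fun b' hb' => hnn u hu a ha b' hb') hb
  have h2 : ∑ b ∈ S, x u * x a * x b * (e A u a * e A u b * gg A a b) ≤
      ∑ a ∈ S, ∑ b ∈ S, x u * x a * x b * (e A u a * e A u b * gg A a b) :=
    Finset.single_le_sum (f := fun a => ∑ b ∈ S, x u * x a * x b * (e A u a * e A u b * gg A a b))
      (fun a' ha' => Finset.sum_nonneg fun b' hb' => hnn u hu a' ha' b' hb') ha
  have h3 : ∑ a ∈ S, ∑ b ∈ S, x u * x a * x b * (e A u a * e A u b * gg A a b) ≤
      ∑ v ∈ S, ∑ a ∈ S, ∑ b ∈ S, x v * x a * x b * (e A v a * e A v b * gg A a b) :=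
    Finset.single_le_sum (f := fun v => ∑ a ∈ S, ∑ b ∈ S, x v * x a * x b * (e A v a * e A v b * gg A a b))
      (fun v' hv' => Finset.sum_nonneg fun a' ha' => Finset.sum_nonneg fun b' hb' => hnn v' hv' a' ha' b' hb') hu
  have h0 : x u * x a * x b * (e A u a * e A u b * gg A a b) = x u * x a * x b := by
    rw [gg_one hab hcon.1 hcon.2, e_one hua, e_one hub]; ring
  have h4 : 0 < x u * x a * x b := mul_pos (mul_pos (hx u hu) (hx a ha)) (hx b hb)
  linarith

lemma Star.mono {S T : Finset V} (h : Star A S) (hT : T ⊆ S) : Star A T :=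
  fun w hw p hp q hq hn h1 h2 v hv => h w (hT hw) p (hT hp) q (hT hq) hn h1 h2 v (hT hv)

/-- The weighted theorem. -/
theorem weighted (hd : ∀ a b, A a b → ¬ A b a) (ht : ∀ a b c, A a b → A b c → ¬ A c a) :
    ∀ n : ℕ, ∀ S : Finset V, S.card = n → Star A S → ∀ x : V → ℝ, (∀ v ∈ S, 0 < x v) → Bal A S x →
      3 * D A S x + ∑ v ∈ S, x v ^ 2 ≤ (∑ v ∈ S, x v) ^ 2 := by
  intro n
  induction n using Nat.strong_induction_on with
  | _ n ih =>
    intro S hS hst x hx hB
    by_cases hi : ∀ u ∈ S, ∀ a ∈ S, ∀ b ∈ S, A a u → A b u → a ≠ b → A a b ∨ A b a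
    · exact nocherry hd ht hx hB (no_out hd hx hB hi) hi
    · push Not at hi
      obtain ⟨w, hw, a, ha, b, hb, haw, hbw, hab, h1, h2⟩ := hi
      obtain ⟨M, hM, hM2, hMS⟩ := cherry_module hd ht hx hB hst hw ha hb ⟨hab, h1, h2⟩ haw hbw
      obtain ⟨m, hm⟩ : M.Nonempty := by
        rw [← Finset.card_pos]; omega
      refine hM.glue hm (fun h => hd m m h h) ?_ ?_
      · exact ih M.card (hS ▸ hMS) M rfl (hst.mono hM.1) x (fun v hv => hx v (hM.1 hv)) (hM.bal hx hB)
      · exact ih (qS S M m).card (hS ▸ card_qS hM hm hM2) _ rfl (hst.mono (qS_sub hM hm)) _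
          (qx_pos hM hm hx) (hM.qbal hx hB hm)

end Pool.Agent.P76b2.Forb
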