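import Mathlib

/-!
# Eulerian digraphs without directed cycles of length at most 3: a counting identity

MP_76b2fe (helper79). `identity` is the identity, `circ` the structure of the digraphs without
independent triples and cherries.
-/

set_option autoImplicit false

namespace Pool.Agent.P76b2

open Finset

section counting

variable {V : Type*} [Fintype V] [DecidableEq V]

/-- integer indicator of an arc -/
def ar (E : Finset (V × V)) (u v : V) : ℤ := if (u, v) ∈ E then 1 else 0

/-- integer indicator of equality -/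
def dl (u v : V) : ℤ := if u = v then 1 else 0

/-- integer indicator of `distinct and nonadjacent` -/
def na (E : Finset (V × V)) (u v : V) : ℤ :=
  if u ≠ v ∧ (u, v) ∉ E ∧ (v, u) ∉ E then 1 else 0

lemma sum_dl_left (f : V → ℤ) (v : V) : ∑ u, dl v u * f u = f v := by
  unfold dl; simp

omit [DecidableEq V] in
lemma p12 (f : V → V → V → ℤ) :
    ∑ u, ∑ v, ∑ w, f u v w = ∑ u, ∑ v, ∑ w, f v u w := by
  rw [Finset.sum_comm]

omit [DecidableEq V] in
lemma p23 (f : V → V → V → ℤ) :
    ∑ u, ∑ v, ∑ w, f u v w = ∑ u, ∑ v, ∑ w, f u w v := by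
  refine Finset.sum_congr rfl fun u _ => ?_
  rw [Finset.sum_comm]

omit [DecidableEq V] in
lemma pcyc (f : V → V → V → ℤ) :
    ∑ u, ∑ v, ∑ w, f u v w = ∑ u, ∑ v, ∑ w, f v w u := by
  rw [p12 f, p23 (fun u v w => f v u w), p12 (fun u v w => f w u v), p23 (fun u v w => f w v u)]

omit [DecidableEq V] in
lemma p13 (f : V → V → V → ℤ) :
    ∑ u, ∑ v, ∑ w, f u v w = ∑ u, ∑ v, ∑ w, f w v u := by
  rw [p12 f, p23 (fun u v w => f v u w), p12 (fun u v w => f w u v)]

lemma outdeg_eq (E : Finset (V × V)) (v : V) :
    ((E.filter (fun e => e.1 = v)).card : ℤ) = ∑ u, ar E v u := by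
  unfold ar
  rw [Finset.sum_ite, Finset.sum_const_zero, add_zero, Finset.sum_const, nsmul_eq_mul, mul_one]
  norm_cast
  apply Finset.card_bij (fun e _ => e.2)
  · intro e he
    simp only [mem_filter] at he
    simp only [mem_filter, mem_univ, true_and]
    obtain ⟨h1, h2⟩ := he
    subst h2
    simpa using h1
  · intro e he f hf hef
    simp only [mem_filter] at he hf
    exact Prod.ext (he.2.trans hf.2.symm) hef
  · intro b hb
    simp only [mem_filter, mem_univ, true_and] at hb
    exact ⟨(v, b), by simp [hb], rfl⟩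

lemma indeg_eq (E : Finset (V × V)) (v : V) :
    ((E.filter (fun e => e.2 = v)).card : ℤ) = ∑ u, ar E u v := by
  unfold ar
  rw [Finset.sum_ite, Finset.sum_const_zero, add_zero, Finset.sum_const, nsmul_eq_mul, mul_one]
  norm_cast
  apply Finset.card_bij (fun e _ => e.1)
  · intro e he
    simp only [mem_filter] at he
    simp only [mem_filter, mem_univ, true_and]
    obtain ⟨h1, h2⟩ := he
    subst h2
    simpa using h1
  · intro e he f hf hef
    simp only [mem_filter] at he hf
    exact Prod.ext hef (he.2.trans hf.2.symm)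
  · intro b hb
    simp only [mem_filter, mem_univ, true_and] at hb
    exact ⟨(b, v), by simp [hb], rfl⟩

lemma card_arcs (E : Finset (V × V)) : (E.card : ℤ) = ∑ u, ∑ v, ar E u v := by
  unfold ar
  rw [← Finset.sum_product']
  simp

/-- The identity, in the form of matrix sums. -/
lemma core (a q : V → V → ℤ) (d : V → ℤ)
    (hout : ∀ v, ∑ u, a v u = d v) (hin : ∀ v, ∑ u, a u v = d v)
    (hsq : ∀ u v, a u v * a u v = a u v) (qsq : ∀ u v, q u v * q u v = q u v)
    (c2 : ∀ u v, a u v * a v u = 0) (caq : ∀ u v, a u v * q u v = 0)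
    (caq' : ∀ u v, a v u * q u v = 0)
    (c3 : ∀ u v w, a u v * a v w * a w u = 0)
    (qsymm : ∀ u v, q u v = q v u)
    (hone : ∀ u v, dl u v + q u v + a u v + a v u = 1) :
    2 * ∑ v, (3 * d v - (Fintype.card V : ℤ) + 1) * (3 * d v - (Fintype.card V : ℤ) + 2) =
      2 * ∑ u, ∑ v, ∑ w, q u v * q u w * q v w
      - 3 * ∑ u, ∑ v, ∑ w, q v w * (a u v * a u w + a v u * a w u) := by
  classical
  set k : V → ℤ := fun v => ∑ u, q v u with hk
  have hkd : ∀ v, k v = (Fintype.card V : ℤ) - 1 - 2 * d v := by
    intro v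
    have h1 : ∑ u, (dl v u + q v u + a v u + a u v) = (Fintype.card V : ℤ) := by
      simp only [hone]; simp
    rw [Finset.sum_add_distrib, Finset.sum_add_distrib, Finset.sum_add_distrib, hout, hin] at h1
    have h2 : ∑ u, dl v u = 1 := by
      have := sum_dl_left (fun _ => 1) v
      simpa using this
    rw [h2] at h1
    simp only [hk]; linarith
  -- the triple sums
  set T := ∑ u, ∑ v, ∑ w, a u v * a v w * a u w with hT
  set P := ∑ u, ∑ v, ∑ w, a u v * a v w * q u w with hP
  set E1 := ∑ u, ∑ v, ∑ w, a u v * q u w * q v w with hE1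
  set I := ∑ u, ∑ v, ∑ w, q u v * q u w * q v w with hI
  set Co := ∑ u, ∑ v, ∑ w, a u v * a u w * q v w with hCo
  set Ci := ∑ u, ∑ v, ∑ w, a v u * a w u * q v w with hCi
  have hsplit : ∀ f g : V → V → ℤ, ∑ u, (∑ v, f u v) * (∑ w, g u w) =
      (∑ u, ∑ v, f u v * g u v) + (∑ u, ∑ v, ∑ w, f u v * g u w * q v w)
      + (∑ u, ∑ v, ∑ w, f u v * g u w * a v w) + (∑ u, ∑ v, ∑ w, f u v * g u w * a w v) := by
    intro f g
    rw [← Finset.sum_add_distrib, ← Finset.sum_add_distrib, ← Finset.sum_add_distrib]
    refine Finset.sum_congr rfl fun u _ => ?_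
    rw [Finset.sum_mul, ← Finset.sum_add_distrib, ← Finset.sum_add_distrib,
      ← Finset.sum_add_distrib]
    refine Finset.sum_congr rfl fun v _ => ?_
    rw [Finset.mul_sum]
    have e1 : f u v * g u v = ∑ w, dl v w * (f u v * g u w) := by
      rw [sum_dl_left (fun w => f u v * g u w) v]
    rw [e1, ← Finset.sum_add_distrib, ← Finset.sum_add_distrib, ← Finset.sum_add_distrib]
    refine Finset.sum_congr rfl fun w _ => ?_
    have := hone v w
    calc f u v * g u w = (dl v w + q v w + a v w + a w v) * (f u v * g u w) := by rw [this, one_mul]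
      _ = _ := by ring
  -- out-out
  have hOO : ∑ v, d v * d v = ∑ v, d v + Co + T + T := by
    have h := hsplit (fun u v => a u v) (fun u v => a u v)
    simp only [hout] at h
    rw [h]
    have e0 : ∑ u, ∑ v, a u v * a u v = ∑ v, d v := by
      simp only [hsq, hout]
    have e1 : ∑ u, ∑ v, ∑ w, a u v * a u w * a v w = T := by
      rw [hT]; refine Finset.sum_congr rfl fun u _ => Finset.sum_congr rfl fun v _ =>
        Finset.sum_congr rfl fun w _ => by ring
    have e2 : ∑ u, ∑ v, ∑ w, a u v * a u w * a w v = T := by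
      rw [hT, p23 (fun u v w => a u v * a v w * a u w)]; refine Finset.sum_congr rfl fun u _ => Finset.sum_congr rfl fun v _ =>
        Finset.sum_congr rfl fun w _ => by ring
    rw [e0, e1, e2]
  have hII : ∑ v, d v * d v = ∑ v, d v + Ci + T + T := by
    have h := hsplit (fun u v => a v u) (fun u v => a v u)
    simp only [hin] at h
    rw [h]
    have e0 : ∑ u, ∑ v, a v u * a v u = ∑ v, d v := by
      simp only [hsq, hin]
    have e1 : ∑ u, ∑ v, ∑ w, a v u * a w u * a v w = T := by
      rw [hT, pcyc (fun u v w => a u v * a v w * a u w)]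
      refine Finset.sum_congr rfl fun u _ => Finset.sum_congr rfl fun v _ =>
        Finset.sum_congr rfl fun w _ => by ring
    have e2 : ∑ u, ∑ v, ∑ w, a v u * a w u * a w v = T := by
      rw [hT, p13 (fun u v w => a u v * a v w * a u w)]
      refine Finset.sum_congr rfl fun u _ => Finset.sum_congr rfl fun v _ =>
        Finset.sum_congr rfl fun w _ => by ring
    rw [e0, e1, e2]
  have hIO : ∑ v, d v * d v = P + T := by
    have h := hsplit (fun u v => a v u) (fun u v => a u v)
    simp only [hin, hout] at h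
    rw [h]
    have e0 : ∑ u, ∑ v, a v u * a u v = 0 :=
      Finset.sum_eq_zero fun u _ => Finset.sum_eq_zero fun v _ => c2 v u
    have e1 : ∑ u, ∑ v, ∑ w, a v u * a u w * q v w = P := by
      rw [hP, p12 (fun u v w => a u v * a v w * q u w)]
    have e2 : ∑ u, ∑ v, ∑ w, a v u * a u w * a v w = T := by
      rw [hT, p12 (fun u v w => a u v * a v w * a u w)]
    have e3 : ∑ u, ∑ v, ∑ w, a v u * a u w * a w v = 0 :=
      Finset.sum_eq_zero fun u _ => Finset.sum_eq_zero fun v _ =>
        Finset.sum_eq_zero fun w _ => c3 v u w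
    rw [e0, e1, e2, e3]; ring
  have hDO : ∑ v, d v * k v = E1 + P + Ci := by
    have h := hsplit (fun u v => a u v) (fun u v => q u v)
    simp only [hout] at h
    rw [h]
    have e0 : ∑ u, ∑ v, a u v * q u v = 0 :=
      Finset.sum_eq_zero fun u _ => Finset.sum_eq_zero fun v _ => caq u v
    have e2 : ∑ u, ∑ v, ∑ w, a u v * q u w * a v w = P := by
      rw [hP]; refine Finset.sum_congr rfl fun u _ => Finset.sum_congr rfl fun v _ =>
        Finset.sum_congr rfl fun w _ => by ring
    have e3 : ∑ u, ∑ v, ∑ w, a u v * q u w * a w v = Ci := by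
      rw [hCi, p12 (fun u v w => a v u * a w u * q v w)]
      refine Finset.sum_congr rfl fun u _ => Finset.sum_congr rfl fun v _ =>
        Finset.sum_congr rfl fun w _ => by ring
    rw [e0, e2, e3]; ring
  have hDI : ∑ v, d v * k v = E1 + P + Co := by
    have h := hsplit (fun u v => a v u) (fun u v => q u v)
    simp only [hin] at h
    rw [h]
    have e0 : ∑ u, ∑ v, a v u * q u v = 0 :=
      Finset.sum_eq_zero fun u _ => Finset.sum_eq_zero fun v _ => caq' u v
    have e1 : ∑ u, ∑ v, ∑ w, a v u * q u w * q v w = E1 := by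
      rw [hE1, p12 (fun u v w => a u v * q u w * q v w)]
      refine Finset.sum_congr rfl fun u _ => Finset.sum_congr rfl fun v _ =>
        Finset.sum_congr rfl fun w _ => by ring
    have e2 : ∑ u, ∑ v, ∑ w, a v u * q u w * a v w = Co := by
      rw [hCo, p12 (fun u v w => a u v * a u w * q v w)]
      refine Finset.sum_congr rfl fun u _ => Finset.sum_congr rfl fun v _ =>
        Finset.sum_congr rfl fun w _ => by ring
    have e3 : ∑ u, ∑ v, ∑ w, a v u * q u w * a w v = P := by
      rw [hP, p13 (fun u v w => a u v * a v w * q u w)]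
      refine Finset.sum_congr rfl fun u _ => Finset.sum_congr rfl fun v _ =>
        Finset.sum_congr rfl fun w _ => by rw [qsymm u w]; ring
    rw [e0, e1, e2, e3]; ring
  have hKK : ∑ v, k v * k v = ∑ v, k v + I + E1 + E1 := by
    have h := hsplit (fun u v => q u v) (fun u v => q u v)
    rw [show (∑ v, k v * k v) = ∑ u, (∑ v, q u v) * (∑ w, q u w) from rfl, h]
    have e0 : ∑ u, ∑ v, q u v * q u v = ∑ v, k v := by
      simp only [qsq, hk]
    have e2 : ∑ u, ∑ v, ∑ w, q u v * q u w * a v w = E1 := by
      rw [hE1, pcyc (fun u v w => a u v * q u w * q v w)]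
      refine Finset.sum_congr rfl fun u _ => Finset.sum_congr rfl fun v _ =>
        Finset.sum_congr rfl fun w _ => by rw [qsymm u v, qsymm u w]; ring
    have e3 : ∑ u, ∑ v, ∑ w, q u v * q u w * a w v = E1 := by
      rw [hE1, p13 (fun u v w => a u v * q u w * q v w)]
      refine Finset.sum_congr rfl fun u _ => Finset.sum_congr rfl fun v _ =>
        Finset.sum_congr rfl fun w _ => by rw [qsymm u v, qsymm u w]; ring
    rw [e0, e2, e3]
  have hC : ∑ u, ∑ v, ∑ w, q v w * (a u v * a u w + a v u * a w u) = Co + Ci := by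
    rw [hCo, hCi, ← Finset.sum_add_distrib]
    refine Finset.sum_congr rfl fun u _ => ?_
    rw [← Finset.sum_add_distrib]
    refine Finset.sum_congr rfl fun v _ => ?_
    rw [← Finset.sum_add_distrib]
    refine Finset.sum_congr rfl fun w _ => by ring
  have hL : ∑ v, (3 * d v - (Fintype.card V : ℤ) + 1) * (3 * d v - (Fintype.card V : ℤ) + 2) =
      ∑ v, d v * d v - 2 * ∑ v, d v * k v + ∑ v, k v * k v + ∑ v, d v - ∑ v, k v := by
    rw [Finset.mul_sum, ← Finset.sum_sub_distrib, ← Finset.sum_add_distrib,
      ← Finset.sum_add_distrib, ← Finset.sum_sub_distrib]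
    refine Finset.sum_congr rfl fun v _ => ?_
    rw [hkd v]; ring
  rw [hC, hL]
  linarith

/-- The independent sets of three vertices. -/
def indep3 (E : Finset (V × V)) : Finset (Finset V) :=
  ((univ : Finset V).powersetCard 3).filter (fun s => ∀ u ∈ s, ∀ v ∈ s, (u, v) ∉ E)

/-- The cherries: a centre `p.1` and a set `p.2` of two nonadjacent vertices such that both are
out-neighbours of the centre or both are in-neighbours of the centre. -/
def cherries (E : Finset (V × V)) : Finset (V × Finset V) :=
  ((univ : Finset V) ×ˢ (univ : Finset V).powersetCard 2).filter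
    (fun p => (∀ x ∈ p.2, ∀ y ∈ p.2, (x, y) ∉ E) ∧
      ((∀ x ∈ p.2, (p.1, x) ∈ E) ∨ (∀ x ∈ p.2, (x, p.1) ∈ E)))

omit [Fintype V] in
lemma six_card {x y z : V} (hxy : x ≠ y) (hxz : x ≠ z) (hyz : y ≠ z) :
    ({(x, y, z), (x, z, y), (y, x, z), (y, z, x), (z, x, y), (z, y, x)} :
      Finset (V × V × V)).card = 6 := by
  rw [card_insert_of_notMem, card_insert_of_notMem, card_insert_of_notMem,
    card_insert_of_notMem, card_insert_of_notMem, card_singleton] <;>
  simp [hxy, hxz, hyz, hxy.symm, hxz.symm, hyz.symm]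

lemma card_ordered (E : Finset (V × V)) (hloop : ∀ v, (v, v) ∉ E) :
    ∑ u, ∑ v, ∑ w, na E u v * na E u w * na E v w = 6 * ((indep3 E).card : ℤ) := by
  classical
  set O3 : Finset (V × V × V) := univ.filter (fun t =>
    (t.1 ≠ t.2.1 ∧ (t.1, t.2.1) ∉ E ∧ (t.2.1, t.1) ∉ E) ∧
    (t.1 ≠ t.2.2 ∧ (t.1, t.2.2) ∉ E ∧ (t.2.2, t.1) ∉ E) ∧
    (t.2.1 ≠ t.2.2 ∧ (t.2.1, t.2.2) ∉ E ∧ (t.2.2, t.2.1) ∉ E)) with hO3
  have h1 : ∑ u, ∑ v, ∑ w, na E u v * na E u w * na E v w = (O3.card : ℤ) := by
    have : ∑ u, ∑ v, ∑ w, na E u v * na E u w * na E v w =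
        ∑ t : V × V × V, na E t.1 t.2.1 * na E t.1 t.2.2 * na E t.2.1 t.2.2 := by
      rw [Fintype.sum_prod_type]
      refine Finset.sum_congr rfl fun u _ => ?_
      rw [Fintype.sum_prod_type]
    rw [this, hO3, Finset.card_filter, Nat.cast_sum]
    refine Finset.sum_congr rfl fun t _ => ?_
    unfold na
    split_ifs <;> simp_all
  rw [h1]
  have h2 : O3.card = ∑ s ∈ indep3 E, (O3.filter (fun t => ({t.1, t.2.1, t.2.2} : Finset V) = s)).card := by
    apply Finset.card_eq_sum_card_fiberwise
    intro t ht
    simp only [hO3, coe_filter, mem_univ, true_and, Set.mem_ofPred_eq] at ht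
    obtain ⟨⟨a1, a2, a3⟩, ⟨b1, b2, b3⟩, ⟨c1, c2, c3⟩⟩ := ht
    simp only [indep3, coe_filter, Set.mem_ofPred_eq, mem_powersetCard, subset_univ, true_and]
    refine ⟨?_, ?_⟩
    · rw [card_insert_of_notMem, card_insert_of_notMem, card_singleton] <;> simp [a1, b1, c1]
    · intro u hu v hv
      simp only [mem_insert, mem_singleton] at hu hv
      rcases hu with rfl | rfl | rfl <;> rcases hv with rfl | rfl | rfl <;>
        first | assumption | exact hloop _
  have h3 : ∀ s ∈ indep3 E, (O3.filter (fun t => ({t.1, t.2.1, t.2.2} : Finset V) = s)).card = 6 := by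
    intro s hs
    simp only [indep3, mem_filter, mem_powersetCard, subset_univ, true_and] at hs
    obtain ⟨hc, hi⟩ := hs
    obtain ⟨x, y, z, hxy, hxz, hyz, rfl⟩ := Finset.card_eq_three.mp hc
    rw [← six_card hxy hxz hyz]
    congr 1
    ext ⟨a, b, c⟩
    simp only [hO3, mem_filter, mem_univ, true_and, mem_insert, mem_singleton, Prod.mk.injEq]
    constructor
    · rintro ⟨⟨⟨a1, -, -⟩, ⟨b1, -, -⟩, ⟨c1, -, -⟩⟩, hs⟩
      have ha : a ∈ ({x, y, z} : Finset V) := by rw [← hs]; simp
      have hb : b ∈ ({x, y, z} : Finset V) := by rw [← hs]; simp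
      have hc' : c ∈ ({x, y, z} : Finset V) := by rw [← hs]; simp
      simp only [mem_insert, mem_singleton] at ha hb hc'
      clear hs
      rcases ha with ha | ha | ha <;> rcases hb with hb | hb | hb <;>
        rcases hc' with hc' | hc' | hc' <;>
        first
          | exact absurd (ha.trans hb.symm) a1
          | exact absurd (ha.trans hc'.symm) b1
          | exact absurd (hb.trans hc'.symm) c1
          | (simp [ha, hb, hc'])
    · have key : ∀ p q : V, p ∈ ({x, y, z} : Finset V) → q ∈ ({x, y, z} : Finset V) →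
          (p, q) ∉ E := fun p q hp hq => hi p hp q hq
      have mx : x ∈ ({x, y, z} : Finset V) := by simp
      have my : y ∈ ({x, y, z} : Finset V) := by simp
      have mz : z ∈ ({x, y, z} : Finset V) := by simp
      have k1 := key x y mx my
      have k2 := key y x my mx
      have k3 := key x z mx mz
      have k4 := key z x mz mx
      have k5 := key y z my mz
      have k6 := key z y mz my
      rintro (⟨rfl, rfl, rfl⟩ | ⟨rfl, rfl, rfl⟩ | ⟨rfl, rfl, rfl⟩ | ⟨rfl, rfl, rfl⟩ |
        ⟨rfl, rfl, rfl⟩ | ⟨rfl, rfl, rfl⟩)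
      all_goals
        refine ⟨⟨⟨?_, ?_, ?_⟩, ⟨?_, ?_, ?_⟩, ⟨?_, ?_, ?_⟩⟩, ?_⟩
        all_goals first
          | assumption
          | (apply Ne.symm; assumption)
          | rfl
          | (ext t; simp only [mem_insert, mem_singleton]; tauto)
  rw [h2, Finset.sum_congr rfl h3, Finset.sum_const, smul_eq_mul]
  push_cast; ring

lemma card_cherries (E : Finset (V × V)) (hloop : ∀ v, (v, v) ∉ E)
    (h2 : ∀ u v, (u, v) ∈ E → (v, u) ∉ E) :
    ∑ u, ∑ v, ∑ w, na E v w * (ar E u v * ar E u w + ar E v u * ar E w u) =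
      2 * ((cherries E).card : ℤ) := by
  classical
  set O3 : Finset (V × V × V) := univ.filter (fun t =>
    (t.2.1 ≠ t.2.2 ∧ (t.2.1, t.2.2) ∉ E ∧ (t.2.2, t.2.1) ∉ E) ∧
    (((t.1, t.2.1) ∈ E ∧ (t.1, t.2.2) ∈ E) ∨ ((t.2.1, t.1) ∈ E ∧ (t.2.2, t.1) ∈ E))) with hO3
  have h1 : ∑ u, ∑ v, ∑ w, na E v w * (ar E u v * ar E u w + ar E v u * ar E w u)
      = (O3.card : ℤ) := by
    have : ∑ u, ∑ v, ∑ w, na E v w * (ar E u v * ar E u w + ar E v u * ar E w u) =
        ∑ t : V × V × V, na E t.2.1 t.2.2 *
          (ar E t.1 t.2.1 * ar E t.1 t.2.2 + ar E t.2.1 t.1 * ar E t.2.2 t.1) := by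
      rw [Fintype.sum_prod_type]
      refine Finset.sum_congr rfl fun u _ => ?_
      rw [Fintype.sum_prod_type]
    rw [this, hO3, Finset.card_filter, Nat.cast_sum]
    refine Finset.sum_congr rfl fun t _ => ?_
    obtain ⟨u, v, w⟩ := t
    have e1 := h2 u v
    have e2 := h2 u w
    simp only [na, ar]
    by_cases hn : v ≠ w ∧ (v, w) ∉ E ∧ (w, v) ∉ E
    · by_cases hA : (u, v) ∈ E <;> by_cases hB : (u, w) ∈ E <;>
        by_cases hC : (v, u) ∈ E <;> by_cases hD : (w, u) ∈ E <;> simp_all
    · simp [hn]
  rw [h1]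
  have h2' : O3.card = ∑ p ∈ cherries E,
      (O3.filter (fun t => ((t.1, ({t.2.1, t.2.2} : Finset V)) : V × Finset V) = p)).card := by
    apply Finset.card_eq_sum_card_fiberwise
    intro t ht
    obtain ⟨u, v, w⟩ := t
    simp only [hO3, coe_filter, mem_univ, true_and, Set.mem_ofPred_eq] at ht
    obtain ⟨⟨a1, a2, a3⟩, hh⟩ := ht
    simp only [cherries, coe_filter, Set.mem_ofPred_eq, mem_product, mem_univ, mem_powersetCard,
      subset_univ, true_and]
    refine ⟨?_, ?_, ?_⟩
    · rw [card_insert_of_notMem, card_singleton]; simp [a1]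
    · intro x hx y hy
      simp only [mem_insert, mem_singleton] at hx hy
      rcases hx with rfl | rfl <;> rcases hy with rfl | rfl <;>
        first | assumption | exact hloop _
    · rcases hh with ⟨p1, p2⟩ | ⟨p1, p2⟩
      · left; intro x hx
        simp only [mem_insert, mem_singleton] at hx
        rcases hx with rfl | rfl <;> assumption
      · right; intro x hx
        simp only [mem_insert, mem_singleton] at hx
        rcases hx with rfl | rfl <;> assumption
  have h3 : ∀ p ∈ cherries E,
      (O3.filter (fun t => ((t.1, ({t.2.1, t.2.2} : Finset V)) : V × Finset V) = p)).card = 2 := by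
    rintro ⟨u, s⟩ hs
    simp only [cherries, mem_filter, mem_product, mem_univ, mem_powersetCard, subset_univ,
      true_and] at hs
    obtain ⟨hc, hi, hd⟩ := hs
    obtain ⟨x, y, hxy, rfl⟩ := Finset.card_eq_two.mp hc
    have hcard : ({(u, x, y), (u, y, x)} : Finset (V × V × V)).card = 2 := by
      rw [card_insert_of_notMem, card_singleton]; simp [hxy]
    rw [← hcard]
    congr 1
    ext ⟨a, b, c⟩
    simp only [hO3, mem_filter, mem_univ, true_and, mem_insert, mem_singleton, Prod.mk.injEq]
    have mx : x ∈ ({x, y} : Finset V) := by simp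
    have my : y ∈ ({x, y} : Finset V) := by simp
    constructor
    · rintro ⟨⟨⟨a1, -, -⟩, -⟩, rfl, hs⟩
      have hb : b ∈ ({x, y} : Finset V) := by rw [← hs]; simp
      have hc' : c ∈ ({x, y} : Finset V) := by rw [← hs]; simp
      simp only [mem_insert, mem_singleton] at hb hc'
      rcases hb with rfl | rfl <;> rcases hc' with rfl | rfl <;> simp_all
    · rintro (⟨rfl, rfl, rfl⟩ | ⟨rfl, rfl, rfl⟩)
      · refine ⟨⟨⟨hxy, hi _ mx _ my, hi _ my _ mx⟩, ?_⟩, rfl, rfl⟩
        rcases hd with hd | hd
        · exact Or.inl ⟨hd _ mx, hd _ my⟩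
        · exact Or.inr ⟨hd _ mx, hd _ my⟩
      · refine ⟨⟨⟨hxy.symm, hi _ my _ mx, hi _ mx _ my⟩, ?_⟩, rfl, ?_⟩
        · rcases hd with hd | hd
          · exact Or.inl ⟨hd _ my, hd _ mx⟩
          · exact Or.inr ⟨hd _ my, hd _ mx⟩
        · ext t; simp only [mem_insert, mem_singleton]; tauto
  rw [h2', Finset.sum_congr rfl h3, Finset.sum_const, smul_eq_mul]
  push_cast; ring

/-- The identity. -/
theorem identity (E : Finset (V × V)) (hloop : ∀ v, (v, v) ∉ E)
    (hbal : ∀ v, (E.filter (fun e => e.1 = v)).card = (E.filter (fun e => e.2 = v)).card)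
    (h2 : ∀ u v, (u, v) ∈ E → (v, u) ∉ E)
    (h3 : ∀ u v w, (u, v) ∈ E → (v, w) ∈ E → (w, u) ∉ E) :
    ∑ v, (3 * ((E.filter (fun e => e.1 = v)).card : ℤ) - (Fintype.card V : ℤ) + 1) *
      (3 * ((E.filter (fun e => e.1 = v)).card : ℤ) - (Fintype.card V : ℤ) + 2) =
      6 * ((indep3 E).card : ℤ) - 3 * ((cherries E).card : ℤ) := by
  have hc := core (ar E) (na E) (fun v => ((E.filter (fun e => e.1 = v)).card : ℤ))
    (fun v => (outdeg_eq E v).symm)
    (fun v => by rw [← indeg_eq E v, hbal v])
    (fun u v => by unfold ar; split_ifs <;> norm_num)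
    (fun u v => by unfold na; split_ifs <;> norm_num)
    (fun u v => by
      unfold ar
      by_cases h : (u, v) ∈ E
      · simp [h, h2 u v h]
      · simp [h])
    (fun u v => by
      unfold ar na
      by_cases h : (u, v) ∈ E <;> simp [h])
    (fun u v => by
      unfold ar na
      by_cases h : (v, u) ∈ E <;> simp [h])
    (fun u v w => by
      unfold ar
      by_cases h : (u, v) ∈ E
      · by_cases h' : (v, w) ∈ E
        · simp [h3 u v w h h']
        · simp [h']
      · simp [h])
    (fun u v => by
      unfold na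
      congr 1
      apply propext
      constructor
      · rintro ⟨p, q, r⟩; exact ⟨p.symm, r, q⟩
      · rintro ⟨p, q, r⟩; exact ⟨p.symm, r, q⟩)
    (fun u v => by
      unfold ar na dl
      by_cases h : u = v
      · subst h; simp [hloop u]
      · by_cases h' : (u, v) ∈ E
        · simp [h, h', h2 u v h']
        · by_cases h'' : (v, u) ∈ E <;> simp [h, h', h''])
  rw [card_ordered E hloop, card_cherries E hloop h2] at hc
  linarith

end counting

section circulant

variable {V : Type*} [Fintype V] [DecidableEq V]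

/-- Out-neighbourhood. -/
def out (E : Finset (V × V)) (v : V) : Finset V := univ.filter (fun u => (v, u) ∈ E)

lemma out_card (E : Finset (V × V)) (v : V) :
    (out E v).card = (E.filter (fun e => e.1 = v)).card := by
  symm
  apply Finset.card_bij (fun e _ => e.2)
  · intro e he
    simp only [mem_filter] at he
    simp only [out, mem_filter, mem_univ, true_and]
    obtain ⟨h1, h2⟩ := he
    subst h2
    simpa using h1
  · intro e he f hf hef
    simp only [mem_filter] at he hf
    exact Prod.ext (he.2.trans hf.2.symm) hef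
  · intro b hb
    simp only [out, mem_filter, mem_univ, true_and] at hb
    exact ⟨(v, b), by simp [hb], rfl⟩

/-- The source of the transitive tournament `out v`. -/
lemma exists_source (E : Finset (V × V)) (hloop : ∀ v, (v, v) ∉ E)
    (h2 : ∀ u v, (u, v) ∈ E → (v, u) ∉ E)
    (h3 : ∀ u v w, (u, v) ∈ E → (v, w) ∈ E → (w, u) ∉ E)
    (ht : ∀ v x y, (v, x) ∈ E → (v, y) ∈ E → x ≠ y → (x, y) ∈ E ∨ (y, x) ∈ E)
    (v : V) (hv : (out E v).Nonempty) :
    ∃ x, (v, x) ∈ E ∧ ∀ y, (v, y) ∈ E → y ≠ x → (x, y) ∈ E := by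
  obtain ⟨x, hx, hmin⟩ := Finset.exists_min_image (out E v)
    (fun x => ((out E v).filter (fun y => (y, x) ∈ E)).card) hv
  simp only [out, mem_filter, mem_univ, true_and] at hx hmin
  refine ⟨x, hx, fun y hy hyx => ?_⟩
  rcases ht v y x hy hx hyx with h | h
  · exfalso
    have hm := hmin y hy
    have hlt : ((univ.filter (fun u => (v, u) ∈ E)).filter (fun z => (z, y) ∈ E)).card <
        ((univ.filter (fun u => (v, u) ∈ E)).filter (fun z => (z, x) ∈ E)).card := by
      apply Finset.card_lt_card
      rw [Finset.ssubset_iff_of_subset]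
      · exact ⟨y, by simp [hy, h], by simp [hloop y]⟩
      · intro z hz
        simp only [mem_filter, mem_univ, true_and] at hz ⊢
        refine ⟨hz.1, ?_⟩
        by_cases hzx : z = x
        · subst hzx; exact absurd hz.2 (h2 _ _ h)
        · rcases ht v z x hz.1 hx hzx with h' | h'
          · exact h'
          · exact absurd h' (h3 z y x hz.2 h)
    omega
  · exact h

/-- The structure of the digraphs without independent triples, cherries and short cycles. -/
lemma circ (E : Finset (V × V)) (hloop : ∀ v, (v, v) ∉ E)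
    (h2 : ∀ u v, (u, v) ∈ E → (v, u) ∉ E)
    (h3 : ∀ u v w, (u, v) ∈ E → (v, w) ∈ E → (w, u) ∉ E)
    (ht : ∀ v x y, (v, x) ∈ E → (v, y) ∈ E → x ≠ y → (x, y) ∈ E ∨ (y, x) ∈ E)
    (ht' : ∀ v x y, (x, v) ∈ E → (y, v) ∈ E → x ≠ y → (x, y) ∈ E ∨ (y, x) ∈ E)
    (hi : ∀ x y z, x ≠ y → x ≠ z → y ≠ z → (x, y) ∈ E ∨ (y, x) ∈ E ∨ (x, z) ∈ E ∨
      (z, x) ∈ E ∨ (y, z) ∈ E ∨ (z, y) ∈ E)
    (d : ℕ) (hd : 1 ≤ d) (hdeg : ∀ v, (out E v).card = d) (v₀ : V) :
    ∃ g : ℕ → V, (∀ i, g (i + Fintype.card V) = g i) ∧
      Set.BijOn g (Set.Iio (Fintype.card V)) Set.univ ∧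
      ∀ i j, j < Fintype.card V → ((g i, g (i + j)) ∈ E ↔ 1 ≤ j ∧ j ≤ d) := by
  classical
  have hne : ∀ v, (out E v).Nonempty := fun v => by
    rw [← Finset.card_pos, hdeg v]; omega
  choose s hs hs' using fun v => exists_source E hloop h2 h3 ht v (hne v)
  -- injectivity
  have hinj : Function.Injective s := by
    intro v w hvw
    by_contra hne'
    have hv := hs v
    have hw := hs w
    rw [hvw] at hv
    rcases ht' (s w) v w hv hw hne' with h | h
    · -- v → w, w ≠ s v
      have hws : w ≠ s v := by
        intro h'; rw [hvw] at h'; rw [← h'] at hw; exact hloop w hw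
      have := hs' v w h hws
      rw [hvw] at this
      exact h2 _ _ this hw
    · have hws : v ≠ s w := by
        intro h'; rw [← h'] at hv; exact hloop v hv
      have := hs' w v h hws
      exact h2 _ _ this hv
  -- the successor of a vertex of out v which has an out-neighbour in out v stays in out v
  have hstay : ∀ v y z, (v, y) ∈ E → (v, z) ∈ E → (y, z) ∈ E → (v, s y) ∈ E := by
    intro v y z hy hz hyz
    by_cases hzs : z = s y
    · rw [← hzs]; exact hz
    have hsz : (s y, z) ∈ E := hs' y z hyz hzs
    by_contra hns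
    have hne1 : s y ≠ v := by
      intro h'; have := hs y; rw [h'] at this; exact h2 _ _ this hy
    rcases ht' z (s y) v hsz hz hne1 with h | h
    · exact h3 v y (s y) hy (hs y) h
    · exact hns h
  -- iterates
  have hit : ∀ j, 1 ≤ j → j ≤ d → ∀ v, (v, s^[j] v) ∈ E := by
    intro j
    induction j using Nat.strong_induction_on with
    | _ j ih =>
      intro h1 hjd v
      rcases Nat.lt_or_ge 1 j with h | h
      · obtain ⟨m, rfl⟩ : ∃ m, j = m + 1 := ⟨j - 1, by omega⟩
        have him : ∀ i, 1 ≤ i → i ≤ m → (v, s^[i] v) ∈ E := fun i a b =>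
          ih i (by omega) a (by omega) v
        -- a vertex w of out v not among the first m iterates
        obtain ⟨w, hw, hw'⟩ : ∃ w ∈ out E v, w ∉ (Finset.Icc 1 m).image (fun i => s^[i] v) := by
          by_contra hcon
          push Not at hcon
          have h5 : (out E v).card ≤ ((Finset.Icc 1 m).image (fun i => s^[i] v)).card :=
            Finset.card_le_card hcon
          have h6 : ((Finset.Icc 1 m).image (fun i => s^[i] v)).card ≤ m := by
            refine Finset.card_image_le.trans ?_
            simp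
          rw [hdeg v] at h5; omega
        simp only [out, mem_filter, mem_univ, true_and] at hw
        simp only [mem_image, mem_Icc, not_exists, not_and] at hw'
        have hall : ∀ i, 1 ≤ i → i ≤ m → (s^[i] v, w) ∈ E := by
          intro i
          induction i with
          | zero => intro h'; omega
          | succ i ihi =>
            intro h7 h8
            rcases Nat.eq_zero_or_pos i with rfl | hpos
            · simp only [zero_add, Function.iterate_one]
              exact hs' v w hw (fun h' => hw' 1 ⟨le_refl 1, by omega⟩ (by simp [h']))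
            · rw [Function.iterate_succ_apply']
              apply hs' _ w (ihi hpos (by omega))
              intro h'
              exact hw' (i + 1) ⟨by omega, h8⟩ (by rw [Function.iterate_succ_apply', h'])
        rw [Function.iterate_succ_apply']
        exact hstay v _ w (him m (by omega) (le_refl m)) hw (hall m (by omega) (le_refl m))
      · obtain rfl : j = 1 := by omega
        simpa using hs v
  -- no short period
  have hper : ∀ j, 1 ≤ j → j ≤ d → ∀ v, s^[j] v ≠ v := by
    intro j h1 hj v h'
    have := hit j h1 hj v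
    rw [h'] at this
    exact hloop v this
  have hout : ∀ v u, (v, u) ∈ E → ∃ j, 1 ≤ j ∧ j ≤ d ∧ u = s^[j] v := by
    intro v u hu
    have hsub : (Finset.Icc 1 d).image (fun i => s^[i] v) ⊆ out E v := by
      intro x hx
      simp only [mem_image, mem_Icc] at hx
      obtain ⟨i, ⟨a, b⟩, rfl⟩ := hx
      simp only [out, mem_filter, mem_univ, true_and]
      exact hit i a b v
    have hci : ((Finset.Icc 1 d).image (fun i => s^[i] v)).card = d := by
      rw [Finset.card_image_of_injOn]
      · simp
      · intro i hi' j hj' hij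
        simp only [coe_Icc, Set.mem_Icc] at hi' hj'
        simp only at hij
        by_contra hne'
        rcases Nat.lt_or_gt_of_ne hne' with h | h
        · have : s^[j - i] v = v := by
            have e : s^[i] (s^[j - i] v) = s^[i] v := by
              rw [← Function.iterate_add_apply, show i + (j - i) = j by omega, hij]
            exact hinj.iterate i e
          exact hper (j - i) (by omega) (by omega) v this
        · have : s^[i - j] v = v := by
            have e : s^[j] (s^[i - j] v) = s^[j] v := by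
              rw [← Function.iterate_add_apply, show j + (i - j) = i by omega, hij]
            exact hinj.iterate j e
          exact hper (i - j) (by omega) (by omega) v this
    have heq : (Finset.Icc 1 d).image (fun i => s^[i] v) = out E v :=
      Finset.eq_of_subset_of_card_le hsub (by rw [hci, hdeg v])
    have : u ∈ (Finset.Icc 1 d).image (fun i => s^[i] v) := by
      rw [heq]; simp [out, hu]
    simp only [mem_image, mem_Icc] at this
    obtain ⟨j, ⟨a, b⟩, e⟩ := this
    exact ⟨j, a, b, e.symm⟩
  -- the vertex s^[d+1] v is not adjacent to v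
  have hfar : ∀ v, s^[d + 1] v ≠ v ∧ (v, s^[d + 1] v) ∉ E ∧ (s^[d + 1] v, v) ∉ E := by
    intro v
    have ha : (v, s^[d] v) ∈ E := hit d hd (le_refl d) v
    have hb : (s^[d] v, s^[d + 1] v) ∈ E := by
      rw [Function.iterate_succ_apply']; exact hs _
    refine ⟨?_, ?_, ?_⟩
    · intro h'; rw [h'] at hb; exact h2 _ _ ha hb
    · intro h'
      obtain ⟨j, h1, hj, e⟩ := hout v _ h'
      have : s^[d + 1 - j] v = v := by
        have e' : s^[j] (s^[d + 1 - j] v) = s^[j] v := by
          rw [← Function.iterate_add_apply, show j + (d + 1 - j) = d + 1 by omega, e]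
        exact hinj.iterate j e'
      exact hper (d + 1 - j) (by omega) (by omega) v this
    · exact h3 v (s^[d] v) (s^[d + 1] v) ha hb
  -- one orbit
  have hpt : ∀ v, v ∈ Function.periodicPts s := fun v =>
    hinj.mem_periodicPts v
  have horb : ∀ w, ∃ i, s^[i] v₀ = w := by
    intro w
    by_contra hcon
    push Not at hcon
    -- no arcs between the orbit of v₀ and w
    have hA : ∀ i, (s^[i] v₀, w) ∉ E := by
      intro i h'
      obtain ⟨j, -, -, e⟩ := hout _ _ h'
      rw [← Function.iterate_add_apply] at e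
      exact hcon _ e.symm
    have hB : ∀ i, (w, s^[i] v₀) ∉ E := by
      intro i h'
      obtain ⟨j, -, -, e⟩ := hout _ _ h'
      -- s^[i] v₀ = s^[j] w, so w is in the orbit
      obtain ⟨p, hp, hpp⟩ := Function.mem_periodicPts.mp (hpt w)
      have hw1 : s^[j * p] w = w := by
        have := (hpp.const_mul j)
        exact this
      have : s^[j * p - j + i] v₀ = w := by
        rw [Function.iterate_add_apply, e, ← Function.iterate_add_apply,
          show j * p - j + j = j * p by
            have : j ≤ j * p := Nat.le_mul_of_pos_right j hp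
            omega]
        exact hw1
      exact hcon _ this
    obtain ⟨f1, f2, f3⟩ := hfar v₀
    have hA0 := hA 0
    have hB0 := hB 0
    simp only [Function.iterate_zero, id_eq] at hA0 hB0
    have hw0 : v₀ ≠ w := by
      have := hcon 0
      simpa using this
    rcases hi v₀ (s^[d + 1] v₀) w (Ne.symm f1) hw0 (hcon (d + 1)) with h | h | h | h | h | h
    · exact f2 h
    · exact f3 h
    · exact hA0 h
    · exact hB0 h
    · exact hA _ h
    · exact hB _ h
  set N := Function.minimalPeriod s v₀ with hN
  have hNpos : 0 < N := Function.minimalPeriod_pos_of_mem_periodicPts (hpt v₀)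
  have hbij : Set.BijOn (fun i => s^[i] v₀) (Set.Iio N) Set.univ := by
    refine ⟨fun _ _ => Set.mem_univ _, Function.iterate_injOn_Iio_minimalPeriod, ?_⟩
    intro w _
    obtain ⟨i, hi'⟩ := horb w
    refine ⟨i % N, Nat.mod_lt _ hNpos, ?_⟩
    simp only
    rw [hN, Function.iterate_mod_minimalPeriod_eq, hi']
  have hNcard : N = Fintype.card V := by
    have h1 : (Finset.univ : Finset V) = (Finset.range N).image (fun i => s^[i] v₀) := by
      ext w
      simp only [mem_univ, mem_image, mem_range, true_iff]
      obtain ⟨i, hi', e⟩ := hbij.surjOn (Set.mem_univ w)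
      exact ⟨i, hi', e⟩
    rw [← Finset.card_univ, h1, Finset.card_image_of_injOn]
    · simp
    · intro i hi' j hj' e
      apply hbij.injOn _ _ e
      · simpa using hi'
      · simpa using hj'
  rw [← hNcard]
  have hg : ∀ i, s^[i + N] v₀ = s^[i] v₀ := by
    intro i
    rw [Function.iterate_add_apply]
    congr 1
    exact Function.iterate_minimalPeriod
  refine ⟨fun i => s^[i] v₀, hg, hbij, ?_⟩
  intro i j hj
  have hadd : s^[i + j] v₀ = s^[j] (s^[i] v₀) := by
    rw [← Function.iterate_add_apply, Nat.add_comm]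
  simp only [hadd]
  constructor
  · intro h'
    obtain ⟨l, h1, hl, e⟩ := hout _ _ h'
    suffices j = l by subst this; exact ⟨h1, hl⟩
    -- minimal period of s^[i] v₀ is N
    by_contra hne'
    have hNv : ∀ m, 0 < m → m < N → s^[m] (s^[i] v₀) ≠ s^[i] v₀ := by
      intro m hm hmN e'
      have e2 : s^[i] (s^[m] v₀) = s^[i] v₀ := by
        rw [← Function.iterate_add_apply, Nat.add_comm, Function.iterate_add_apply, e']
      have e3 : s^[m] v₀ = v₀ := hinj.iterate i e2
      have e4 : Function.IsPeriodicPt s m v₀ := e3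
      have := e4.minimalPeriod_le hm
      omega
    have hlN : l < N := by
      -- otherwise l ≥ N gives a short period
      by_contra hge
      push Not at hge
      exact hper N (by omega) (by omega) v₀ Function.iterate_minimalPeriod
    rcases Nat.lt_or_gt_of_ne hne' with h | h
    · apply hNv (l - j) (by omega) (by omega)
      have : s^[j] (s^[l - j] (s^[i] v₀)) = s^[j] (s^[i] v₀) := by
        rw [← Function.iterate_add_apply, show j + (l - j) = l by omega, e]
      exact hinj.iterate j this
    · apply hNv (j - l) (by omega) (by omega)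
      have : s^[l] (s^[j - l] (s^[i] v₀)) = s^[l] (s^[i] v₀) := by
        rw [← Function.iterate_add_apply, show l + (j - l) = j by omega, e]
      exact hinj.iterate l this
  · rintro ⟨h1, hjd⟩
    exact hit j h1 hjd _

end circulant

end Pool.Agent.P76b2
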