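import Pool.Agent.Lib.P76b2.ExtSub

/-!
# Equality for weighted Eulerian digraphs without cherries (MP_76b2fe_co)
-/

set_option autoImplicit false
set_option linter.unusedSectionVars false

open Finset

namespace Pool.Agent.P76b2.Forb

variable {V : Type*} [DecidableEq V] {A : V → V → Prop} [DecidableRel A] {S : Finset V} {x : V → ℝ}

theorem nocherry_facts (hd : ∀ a b, A a b → ¬ A b a) (ht : ∀ a b c, A a b → A b c → ¬ A c a)
    (hx : ∀ v ∈ S, 0 < x v) (hB : Bal A S x)
    (ho : ∀ u ∈ S, ∀ a ∈ S, ∀ b ∈ S, A u a → A u b → a ≠ b → A a b ∨ A b a)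
    (hi : ∀ u ∈ S, ∀ a ∈ S, ∀ b ∈ S, A a u → A b u → a ≠ b → A a b ∨ A b a)
    (heq : 3 * D A S x + ∑ v ∈ S, x v ^ 2 = (∑ v ∈ S, x v) ^ 2) (hcard : 2 ≤ S.card) :
    ∃ s l : V → V, (∀ v ∈ S, s v ∈ S ∧ A v (s v) ∧ ∀ w ∈ S, A v w → w ≠ s v → A (s v) w) ∧
      (∀ v ∈ S, l v ∈ S ∧ A v (l v)) ∧
      (∀ v ∈ S, ∀ w ∈ S, w = v ∨ A v w ∨ A w v ∨ A (l v) w) ∧ Set.InjOn s S ∧
      (∀ v ∈ S, dd A S x (s v) = dd A S x v) ∧
      ∀ v ∈ S, dd A S x (l v) + 2 * dd A S x v + x v = ∑ w ∈ S, x w := by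
  classical
  -- sources and sinks of the out-neighbourhoods
  have hsrc : ∀ v, ∃ s, v ∈ S → (S.filter (fun w => A v w)).Nonempty →
      s ∈ S.filter (fun w => A v w) ∧ ∀ w ∈ S.filter (fun w => A v w), w ≠ s → A s w := by
    intro v
    by_cases hv : v ∈ S ∧ (S.filter (fun w => A v w)).Nonempty
    · obtain ⟨s, hs, h⟩ := exists_source A hd ht _ hv.2 (fun a ha b hb hab => by
        obtain ⟨ha1, ha2⟩ := Finset.mem_filter.mp ha
        obtain ⟨hb1, hb2⟩ := Finset.mem_filter.mp hb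
        exact ho v hv.1 a ha1 b hb1 ha2 hb2 hab)
      exact ⟨s, fun _ _ => ⟨hs, h⟩⟩
    · exact ⟨v, fun h1 h2 => absurd ⟨h1, h2⟩ hv⟩
  have hsnk : ∀ v, ∃ s, v ∈ S → (S.filter (fun w => A v w)).Nonempty →
      s ∈ S.filter (fun w => A v w) ∧ ∀ w ∈ S.filter (fun w => A v w), w ≠ s → A w s := by
    intro v
    by_cases hv : v ∈ S ∧ (S.filter (fun w => A v w)).Nonempty
    · obtain ⟨s, hs, h⟩ := exists_source (fun a b => A b a) (fun a b h => hd b a h)
        (fun a b c h1 h2 => ht c b a h2 h1 |> fun h3 h4 => h3 h4) _ hv.2 (fun a ha b hb hab => by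
        obtain ⟨ha1, ha2⟩ := Finset.mem_filter.mp ha
        obtain ⟨hb1, hb2⟩ := Finset.mem_filter.mp hb
        exact (ho v hv.1 a ha1 b hb1 ha2 hb2 hab).symm)
      exact ⟨s, fun _ _ => ⟨hs, h⟩⟩
    · exact ⟨v, fun h1 h2 => absurd ⟨h1, h2⟩ hv⟩
  choose s hs using hsrc
  choose l hl using hsnk
  set S1 := S.filter (fun v => (S.filter (fun w => A v w)).Nonempty) with hS1
  set d := dd A S x with hdd
  have hmem : ∀ v, v ∈ S1 ↔ v ∈ S ∧ ∃ w ∈ S, A v w := by
    intro v
    rw [hS1, Finset.mem_filter]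
    constructor
    · rintro ⟨h1, w, hw⟩
      exact ⟨h1, w, (Finset.mem_filter.mp hw).1, (Finset.mem_filter.mp hw).2⟩
    · rintro ⟨h1, w, hw, h2⟩
      exact ⟨h1, w, Finset.mem_filter.mpr ⟨hw, h2⟩⟩
  have hs1 : ∀ v ∈ S1, s v ∈ S ∧ A v (s v) ∧ ∀ w ∈ S, A v w → w ≠ s v → A (s v) w := by
    intro v hv
    obtain ⟨h1, w, hw, h2⟩ := (hmem v).mp hv
    obtain ⟨h3, h4⟩ := hs v h1 ⟨w, Finset.mem_filter.mpr ⟨hw, h2⟩⟩
    obtain ⟨h5, h6⟩ := Finset.mem_filter.mp h3
    exact ⟨h5, h6, fun y hy hvy hne => h4 y (Finset.mem_filter.mpr ⟨hy, hvy⟩) hne⟩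
  have hl1 : ∀ v ∈ S1, l v ∈ S ∧ A v (l v) ∧ ∀ w ∈ S, A v w → w ≠ l v → A w (l v) := by
    intro v hv
    obtain ⟨h1, w, hw, h2⟩ := (hmem v).mp hv
    obtain ⟨h3, h4⟩ := hl v h1 ⟨w, Finset.mem_filter.mpr ⟨hw, h2⟩⟩
    obtain ⟨h5, h6⟩ := Finset.mem_filter.mp h3
    exact ⟨h5, h6, fun y hy hvy hne => h4 y (Finset.mem_filter.mpr ⟨hy, hvy⟩) hne⟩
  have hS1S : ∀ v ∈ S1, v ∈ S := fun v hv => ((hmem v).mp hv).1
  have hsS1 : ∀ v ∈ S1, s v ∈ S1 := by
    intro v hv
    obtain ⟨h1, h2, -⟩ := hs1 v hv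
    exact (hmem _).mpr ⟨h1, exists_out hx hB (hS1S v hv) h1 h2⟩
  have hlS1 : ∀ v ∈ S1, l v ∈ S1 := by
    intro v hv
    obtain ⟨h1, h2, -⟩ := hl1 v hv
    exact (hmem _).mpr ⟨h1, exists_out hx hB (hS1S v hv) h1 h2⟩
  -- the bound at a vertex
  have hkey : ∀ v ∈ S1, ∀ w ∈ S, e A (l v) w + e A v w + e A w v + (if w = v then 1 else 0) ≤ 1 := by
    intro v hv w hw
    obtain ⟨h1, h2, h3⟩ := hl1 v hv
    have hvS := hS1S v hv
    by_cases hwv : w = v
    · subst hwv
      rw [if_pos rfl, e_zero (fun h => hd w w h h), e_zero (hd w (l w) h2)]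
      norm_num
    · rw [if_neg hwv]
      by_cases hvw : A v w
      · rw [e_one hvw, e_zero (hd v w hvw), e_zero]
        · norm_num
        · intro h
          by_cases hwl : w = l v
          · rw [hwl] at h
            exact hd _ _ h h
          · exact hd _ _ h (h3 w hw hvw hwl)
      · rw [e_zero hvw]
        by_cases hwv' : A w v
        · rw [e_one hwv', e_zero]
          · norm_num
          · intro h
            exact ht v (l v) w h2 h hwv'
        · rw [e_zero hwv']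
          unfold e
          split_ifs <;> norm_num
  have hform : ∀ v ∈ S1, d (l v) + 2 * d v + x v =
      ∑ w ∈ S, x w * (e A (l v) w + e A v w + e A w v + (if w = v then 1 else 0)) := by
    intro v hv
    have hvS := hS1S v hv
    have e1 : x v = ∑ w ∈ S, x w * (if w = v then 1 else 0) := by
      simp [Finset.sum_ite_eq', hvS]
    have h4 : d v = ∑ w ∈ S, x w * e A w v := hB.dd_eq hvS
    have h5 : d v = ∑ w ∈ S, x w * e A v w := rfl
    have h6 : d (l v) = ∑ w ∈ S, x w * e A (l v) w := rfl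
    simp only [mul_add, Finset.sum_add_distrib]
    rw [← h4, ← h5, ← h6, ← e1]
    ring
  have hbound : ∀ v ∈ S1, d (l v) + 2 * d v + x v ≤ ∑ w ∈ S, x w := by
    intro v hv
    rw [hform v hv]
    refine Finset.sum_le_sum fun w hw => ?_
    calc x w * _ ≤ x w * 1 := mul_le_mul_of_nonneg_left (hkey v hv w hw) (hx w hw).le
      _ = x w := mul_one _
  -- the fibres of `l`
  have hfib : ∀ w ∈ S1, ∑ v ∈ S1 with l v = w, x v = d w - d (s w) + x w := by
    intro w hw
    obtain ⟨a1, a2, a3⟩ := hs1 w hw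
    have hwS := hS1S w hw
    have e1 : x w = ∑ v ∈ S, x v * (if v = w then 1 else 0) := by
      simp [Finset.sum_ite_eq', hwS]
    have e2 : d w - d (s w) + x w = ∑ v ∈ S, x v * (e A v w - e A v (s w) + (if v = w then 1 else 0)) := by
      have h4 : d w = ∑ v ∈ S, x v * e A v w := hB.dd_eq hwS
      have h5 : d (s w) = ∑ v ∈ S, x v * e A v (s w) := hB.dd_eq a1
      simp only [mul_add, mul_sub, Finset.sum_add_distrib, Finset.sum_sub_distrib]
      rw [← h4, ← h5, ← e1]
    have e3 : ∑ v ∈ S1 with l v = w, x v = ∑ v ∈ S, x v * (if v ∈ S1 ∧ l v = w then 1 else 0) := by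
      have hfe : S1.filter (fun v => l v = w) = S.filter (fun v => v ∈ S1 ∧ l v = w) := by
        ext v
        simp only [Finset.mem_filter]
        constructor
        · rintro ⟨h1, h2⟩
          exact ⟨hS1S v h1, h1, h2⟩
        · rintro ⟨-, h1, h2⟩
          exact ⟨h1, h2⟩
      rw [hfe, Finset.sum_filter]
      refine Finset.sum_congr rfl fun v _ => ?_
      split_ifs <;> simp
    rw [e2, e3]
    refine Finset.sum_congr rfl fun v hv => ?_
    congr 1
    by_cases hvw : v = w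
    · subst hvw
      rw [if_pos rfl, e_zero (fun h => hd v v h h), e_one a2, if_neg]
      · norm_num
      · rintro ⟨-, h⟩
        have := (hl1 v hw).2.1
        rw [h] at this
        exact hd _ _ this this
    · rw [if_neg hvw, add_zero]
      by_cases hvs : A v (s w)
      · -- then `v → w`
        have hvw' : A v w := by
          rcases hi (s w) a1 v hv w hwS hvs a2 hvw with h | h
          · exact h
          · exfalso
            have hne : v ≠ s w := by
              rintro rfl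
              exact hd _ _ hvs hvs
            exact hd _ _ hvs (a3 v hv h hne)
        rw [e_one hvs, e_one hvw', if_neg]
        · norm_num
        · rintro ⟨h1, h2⟩
          obtain ⟨b1, b2, b3⟩ := hl1 v h1
          rw [h2] at b3
          have hne : s w ≠ w := by
            intro h
            rw [h] at a2
            exact hd _ _ a2 a2
          exact hd _ _ a2 (b3 (s w) a1 hvs hne)
      · rw [e_zero hvs, sub_zero]
        by_cases hvw' : A v w
        · have hv1 : v ∈ S1 := (hmem v).mpr ⟨hv, w, hwS, hvw'⟩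
          obtain ⟨b1, b2, b3⟩ := hl1 v hv1
          rw [e_one hvw', if_pos]
          refine ⟨hv1, ?_⟩
          by_contra hne
          -- `z = l v ≠ w`, `w → z`
          have hwz : A w (l v) := b3 w hwS hvw' (fun h => hne h.symm)
          have hzs : l v ≠ s w := by
            intro h
            exact hvs (h ▸ b2)
          have hsz : A (s w) (l v) := a3 (l v) b1 hwz hzs
          have hne2 : v ≠ s w := by
            rintro h
            rw [← h] at a2
            exact hd _ _ hvw' a2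
          rcases hi (l v) b1 v hv (s w) a1 b2 hsz hne2 with h | h
          · exact hvs h
          · exact ht v w (s w) hvw' a2 h
        · rw [e_zero hvw', if_neg]
          rintro ⟨h1, h2⟩
          apply hvw'
          rw [← h2]
          exact (hl1 v h1).2.1
  -- `s` is injective
  have hinj : Set.InjOn s S1 := by
    intro w hw w' hw' hww
    by_contra hne
    obtain ⟨a1, a2, a3⟩ := hs1 w hw
    obtain ⟨b1, b2, b3⟩ := hs1 w' hw'
    rw [← hww] at b2 b3
    rcases hi (s w) a1 w (hS1S w hw) w' (hS1S w' hw') a2 b2 hne with h | h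
    · have h1 : w' ≠ s w := by
        intro h2
        rw [← h2] at b2
        exact hd _ _ b2 b2
      exact hd _ _ b2 (a3 w' (hS1S w' hw') h h1)
    · have h1 : w ≠ s w := by
        intro h2
        rw [← h2] at a2
        exact hd _ _ a2 a2
      exact hd _ _ a2 (b3 w (hS1S w hw) h h1)
  have hsq : ∑ w ∈ S1, d (s w) ^ 2 ≤ ∑ w ∈ S1, d w ^ 2 := by
    rw [← Finset.sum_image (f := fun w => d w ^ 2) hinj]
    refine Finset.sum_le_sum_of_subset_of_nonneg ?_ (fun _ _ _ => sq_nonneg _)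
    intro y hy
    obtain ⟨w, hw, rfl⟩ := Finset.mem_image.mp hy
    exact hsS1 w hw
  -- the sum of `x v * d (l v)`
  have hsumeq : ∑ v ∈ S1, x v * d (l v) =
      ∑ w ∈ S1, x w * d w + ∑ w ∈ S1, (d w ^ 2 - d w * d (s w)) := by
    have h1 : ∑ v ∈ S1, x v * d (l v) = ∑ w ∈ S1, (d w - d (s w) + x w) * d w := by
      rw [← Finset.sum_fiberwise_of_maps_to hlS1 (fun v => x v * d (l v))]
      refine Finset.sum_congr rfl fun w hw => ?_
      rw [← hfib w hw, Finset.sum_mul]
      refine Finset.sum_congr rfl fun v hv => ?_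
      rw [(Finset.mem_filter.mp hv).2]
    rw [h1, ← Finset.sum_add_distrib]
    exact Finset.sum_congr rfl fun w _ => by ring
  have hhalf : ∑ w ∈ S1, (d w ^ 2 - d w * d (s w)) =
      ∑ w ∈ S1, (1 / 2) * (d w - d (s w)) ^ 2 + (1 / 2) * (∑ w ∈ S1, d w ^ 2 - ∑ w ∈ S1, d (s w) ^ 2) := by
    rw [← Finset.sum_sub_distrib, Finset.mul_sum, ← Finset.sum_add_distrib]
    exact Finset.sum_congr rfl fun w _ => by ring
  have hQ : 0 ≤ ∑ w ∈ S1, (1 / 2) * (d w - d (s w)) ^ 2 :=
    Finset.sum_nonneg fun w _ => by positivity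
  -- the vertices without out-neighbours
  have hd0 : ∀ v ∈ S, v ∉ S1 → d v = 0 := by
    intro v hv hv1
    have h1 : ∀ w ∈ S, ¬ A v w := fun w hw h => hv1 ((hmem v).mpr ⟨hv, w, hw, h⟩)
    show ∑ w ∈ S, x w * e A v w = 0
    exact Finset.sum_eq_zero fun w hw => by rw [e_zero (h1 w hw), mul_zero]
  have hS1sub : S1 ⊆ S := fun v hv => hS1S v hv
  have hDS : D A S x = ∑ v ∈ S1, x v * d v := by
    have h1 : D A S x = ∑ v ∈ S, x v * d v := by
      unfold D
      refine Finset.sum_congr rfl fun v _ => ?_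
      show _ = x v * ∑ w ∈ S, x w * e A v w
      rw [Finset.mul_sum]
      exact Finset.sum_congr rfl fun w _ => by ring
    rw [h1, ← Finset.sum_subset hS1sub]
    intro v hv hv1
    rw [hd0 v hv hv1, mul_zero]
  -- conclusion
  set X := ∑ w ∈ S, x w with hX
  have hlt : ∀ v ∈ S, x v < X := by
    intro v hv
    obtain ⟨w, hw, hwv⟩ : ∃ w ∈ S, w ≠ v := by
      by_contra hno
      push Not at hno
      have : S ⊆ {v} := fun w hw => Finset.mem_singleton.mpr (hno w hw)
      have := Finset.card_le_card this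
      rw [Finset.card_singleton] at this
      omega
    rw [hX, ← Finset.add_sum_erase S x hv]
    have h1 : x w ≤ ∑ y ∈ S.erase v, x y :=
      Finset.single_le_sum (f := x) (fun y hy => (hx y (Finset.mem_of_mem_erase hy)).le)
        (Finset.mem_erase.mpr ⟨hwv, hw⟩)
    linarith [hx w hw]
  have htot : ∑ v ∈ S1, x v * (X - (d (l v) + 2 * d v + x v)) + ∑ v ∈ S \ S1, x v * (X - x v) +
      ∑ w ∈ S1, (1 / 2) * (d w - d (s w)) ^ 2 + (1 / 2) * (∑ w ∈ S1, d w ^ 2 - ∑ w ∈ S1, d (s w) ^ 2) = 0 := by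
    have h3 : ∑ v ∈ S1, x v * X + ∑ v ∈ S \ S1, x v * X = X ^ 2 := by
      rw [← split_sum hS1sub (fun v => x v * X), ← Finset.sum_mul]; ring
    have h4 : ∑ v ∈ S1, x v * (X - (d (l v) + 2 * d v + x v)) =
        ∑ v ∈ S1, x v * X - (∑ v ∈ S1, x v * d (l v) + 2 * ∑ v ∈ S1, x v * d v + ∑ v ∈ S1, x v ^ 2) := by
      rw [Finset.mul_sum, ← Finset.sum_add_distrib, ← Finset.sum_add_distrib, ← Finset.sum_sub_distrib]
      exact Finset.sum_congr rfl fun v _ => by ring
    have h5 : ∑ v ∈ S \ S1, x v * (X - x v) = ∑ v ∈ S \ S1, x v * X - ∑ v ∈ S \ S1, x v ^ 2 := by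
      rw [← Finset.sum_sub_distrib]
      exact Finset.sum_congr rfl fun v _ => by ring
    have h6 : ∑ v ∈ S, x v ^ 2 = ∑ v ∈ S1, x v ^ 2 + ∑ v ∈ S \ S1, x v ^ 2 :=
      split_sum hS1sub (fun v => x v ^ 2)
    rw [hDS, h6] at heq
    rw [h4, h5]
    rw [hhalf] at hsumeq
    linarith
  have t1 : ∀ v ∈ S1, 0 ≤ x v * (X - (d (l v) + 2 * d v + x v)) := fun v hv =>
    mul_nonneg (hx v (hS1S v hv)).le (by linarith [hbound v hv])
  have t2 : ∀ v ∈ S \ S1, 0 ≤ x v * (X - x v) := fun v hv =>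
    mul_nonneg (hx v (Finset.mem_sdiff.mp hv).1).le (by linarith [hlt v (Finset.mem_sdiff.mp hv).1])
  have T1 := Finset.sum_nonneg t1
  have T2 := Finset.sum_nonneg t2
  have hS1eq : ∀ v ∈ S, v ∈ S1 := by
    intro v hv
    by_contra hv1
    have hvm : v ∈ S \ S1 := Finset.mem_sdiff.mpr ⟨hv, hv1⟩
    have h1 : x v * (X - x v) ≤ ∑ v ∈ S \ S1, x v * (X - x v) :=
      Finset.single_le_sum (f := fun v => x v * (X - x v)) t2 hvm
    have h2 : 0 < x v * (X - x v) := mul_pos (hx v hv) (by linarith [hlt v hv])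
    linarith
  have z1 : ∀ v ∈ S, d (l v) + 2 * d v + x v = X := by
    intro v hv
    have h1 : x v * (X - (d (l v) + 2 * d v + x v)) ≤ ∑ v ∈ S1, x v * (X - (d (l v) + 2 * d v + x v)) :=
      Finset.single_le_sum (f := fun v => x v * (X - (d (l v) + 2 * d v + x v))) t1 (hS1eq v hv)
    have h2 : x v * (X - (d (l v) + 2 * d v + x v)) = 0 := by
      have := t1 v (hS1eq v hv)
      linarith
    rcases mul_eq_zero.mp h2 with h3 | h3
    · linarith [hx v hv]
    · linarith
  have z2 : ∀ v ∈ S, d (s v) = d v := by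
    intro v hv
    have h1 : (1 / 2) * (d v - d (s v)) ^ 2 ≤ ∑ w ∈ S1, (1 / 2) * (d w - d (s w)) ^ 2 :=
      Finset.single_le_sum (f := fun w => (1 / 2) * (d w - d (s w)) ^ 2) (fun w _ => by positivity) (hS1eq v hv)
    have h2 : (d v - d (s v)) ^ 2 ≤ 0 := by linarith
    have h3 : d v - d (s v) = 0 := pow_eq_zero_iff (two_ne_zero) |>.mp (le_antisymm h2 (sq_nonneg _))
    linarith
  refine ⟨s, l, fun v hv => hs1 v (hS1eq v hv), fun v hv => ⟨(hl1 v (hS1eq v hv)).1, (hl1 v (hS1eq v hv)).2.1⟩,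
    ?_, ?_, z2, z1⟩
  · intro v hv w hw
    by_contra hcon
    push Not at hcon
    obtain ⟨n1, n2, n3, n4⟩ := hcon
    have hv1 := hS1eq v hv
    have h1 : ∑ y ∈ S, x y * (e A (l v) y + e A v y + e A y v + (if y = v then 1 else 0)) < ∑ y ∈ S, x y := by
      refine Finset.sum_lt_sum (fun y hy => ?_) ⟨w, hw, ?_⟩
      · calc x y * _ ≤ x y * 1 := mul_le_mul_of_nonneg_left (hkey v hv1 y hy) (hx y hy).le
          _ = x y := mul_one _
      · rw [e_zero n4, e_zero n2, e_zero n3, if_neg n1]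
        have := hx w hw
        linarith
    rw [← hform v hv1, z1 v hv] at h1
    exact lt_irrefl _ h1
  · intro v hv w hw h
    exact hinj (hS1eq v hv) (hS1eq w hw) h

end Pool.Agent.P76b2.Forb
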