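import Pool.Agent.Lib.P76b2.Dirty

/-!
# There are no dirty pairs (MP_76b2fe_co)
-/

set_option autoImplicit false
set_option linter.unusedSectionVars false

open Finset

namespace Pool.Agent.P76b2.Forb

variable {V : Type*} [DecidableEq V] {A : V → V → Prop} [DecidableRel A] {S : Finset V} {x : V → ℝ}

/-- All in-neighbours of the vertices of the component are in-neighbours of `w`. -/
lemma Dirty.sub (h : Cls A S) {w z p q : V} (hD : Dirty A S w z p q) :
    ∀ s ∈ comp A (Nin A S w) p, ∀ y ∈ S, A y s → A y w := by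
  have hpN : p ∈ Nin A S w := mem_Nin.mpr ⟨hD.hp, hD.hpw⟩
  refine comp_induction hpN (fun s => ∀ y ∈ S, A y s → A y w)
    (h.loc hD.hw hD.hz hD.hp hD.hq hD.hpq hD.hqz hD.hpw hD.hqw hD.hpz (h.hd _ _ hD.hwz)) ?_
  intro s hs t ht hst hP y hy hyt
  obtain ⟨hsS, hsw⟩ := mem_Nin.mp hs
  obtain ⟨htS, htw⟩ := mem_Nin.mp ht
  by_cases hys : A y s
  · exact hP y hy hys
  · exact h.hi w hD.hw t htS s hsS hst.symm htw hsw y hy hyt hys

/-- Every vertex of the component receives more from `N⁻(w)` outside the component than it sends there. -/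
lemma Dirty.neg (h : Cls A S) (hx : ∀ v ∈ S, 0 < x v) (hB : Bal A S x) {w z p q : V}
    (hD : Dirty A S w z p q) : ∀ s ∈ comp A (Nin A S w) p,
      ∑ r ∈ Nin A S w \ comp A (Nin A S w) p, x r * MM A s r < 0 := by
  classical
  set N := Nin A S w with hN
  set J := comp A N p with hJ
  have hNS : N ⊆ S := Nin_sub
  have hJN : J ⊆ N := comp_sub
  have hpJ : p ∈ J := self_mem_comp (mem_Nin.mpr ⟨hD.hp, hD.hpw⟩)
  set f : V → ℝ := fun s => ∑ r ∈ N \ J, x r * MM A s r with hf
  obtain ⟨s0, hs0, hmax⟩ := Finset.exists_max_image J f ⟨p, hpJ⟩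
  have hmono : ∀ s ∈ J, ∀ t ∈ J, A s t → f t ≤ f s := by
    intro s hs t ht' hst
    refine Finset.sum_le_sum fun r hr => ?_
    obtain ⟨hrN, hrM⟩ := Finset.mem_sdiff.mp hr
    refine mul_le_mul_of_nonneg_left ?_ (hx r (hNS hrN)).le
    rcases comp_adj hs hrN hrM with h3 | h3
    · rw [MM_pos h.hd h3]
      rcases comp_adj ht' hrN hrM with h4 | h4
      · rw [MM_pos h.hd h4]
      · rw [MM_neg h.hd h4]; norm_num
    · rcases comp_adj ht' hrN hrM with h4 | h4
      · exact absurd h3 (h.ht s t r hst h4)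
      · rw [MM_neg h.hd h3, MM_neg h.hd h4]
  have hlt : f s0 < 0 := by
    by_contra hcon
    push Not at hcon
    set Jm := J.filter (fun s => f s = f s0) with hJm
    have hJmJ : Jm ⊆ J := Finset.filter_subset _ _
    have hs0m : s0 ∈ Jm := Finset.mem_filter.mpr ⟨hs0, rfl⟩
    -- the balance at a vertex of `J`
    have hbal : ∀ s ∈ Jm, ∑ t ∈ Jm, x t * MM A s t + ∑ t ∈ J \ Jm, x t * MM A s t + f s0 +
        ∑ v ∈ S \ N, x v * MM A s v = 0 := by
      intro s hs
      obtain ⟨hsJ, hfs⟩ := Finset.mem_filter.mp hs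
      have e1 : ∑ y ∈ S, x y * MM A s y = 0 := hB s (hNS (hJN hsJ))
      rw [split_sum hNS, split_sum hJN, split_sum hJmJ] at e1
      rw [← hfs]
      exact e1
    have hanti : ∑ s ∈ Jm, x s * ∑ t ∈ Jm, x t * MM A s t = 0 := anti A Jm x
    have h1 : ∀ s ∈ Jm, 0 ≤ ∑ t ∈ J \ Jm, x t * MM A s t := by
      intro s hs
      obtain ⟨hsJ, hfs⟩ := Finset.mem_filter.mp hs
      refine Finset.sum_nonneg fun t ht' => ?_
      obtain ⟨htJ, htm⟩ := Finset.mem_sdiff.mp ht'
      refine mul_nonneg (hx t (hNS (hJN htJ))).le ?_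
      have hnts : ¬ A t s := by
        intro hts
        have h2 := hmono t htJ s hsJ hts
        have h3 := hmax t htJ
        apply htm
        rw [hJm, Finset.mem_filter]
        exact ⟨htJ, le_antisymm h3 (hfs ▸ h2)⟩
      unfold MM
      rw [e_zero hnts, sub_zero]
      exact e_nonneg _ _
    have h2 : ∀ s ∈ Jm, x w ≤ ∑ v ∈ S \ N, x v * MM A s v := by
      intro s hs
      obtain ⟨hsJ, hfs⟩ := Finset.mem_filter.mp hs
      have hwm : w ∈ S \ N := Finset.mem_sdiff.mpr ⟨hD.hw, fun h3 => by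
        have := (mem_Nin.mp h3).2
        exact h.hd _ _ this this⟩
      have h3 : x w * MM A s w ≤ ∑ v ∈ S \ N, x v * MM A s v := by
        refine Finset.single_le_sum (f := fun v => x v * MM A s v) (fun v hv => ?_) hwm
        obtain ⟨hvS, hvN⟩ := Finset.mem_sdiff.mp hv
        refine mul_nonneg (hx v hvS).le ?_
        have : ¬ A v s := fun h4 => hvN (mem_Nin.mpr ⟨hvS, hD.sub h s hsJ v hvS h4⟩)
        unfold MM
        rw [e_zero this, sub_zero]
        exact e_nonneg _ _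
      rw [MM_pos h.hd (mem_Nin.mp (hJN hsJ)).2, mul_one] at h3
      exact h3
    have h3 : ∑ s ∈ Jm, x s * (∑ t ∈ Jm, x t * MM A s t + ∑ t ∈ J \ Jm, x t * MM A s t + f s0 +
        ∑ v ∈ S \ N, x v * MM A s v) = 0 :=
      Finset.sum_eq_zero fun s hs => by rw [hbal s hs, mul_zero]
    have h4 : ∑ s ∈ Jm, x s * (∑ t ∈ Jm, x t * MM A s t + ∑ t ∈ J \ Jm, x t * MM A s t + f s0 +
        ∑ v ∈ S \ N, x v * MM A s v) = ∑ s ∈ Jm, x s * ∑ t ∈ Jm, x t * MM A s t +
        ∑ s ∈ Jm, x s * (∑ t ∈ J \ Jm, x t * MM A s t + f s0 + ∑ v ∈ S \ N, x v * MM A s v) := by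
      rw [← Finset.sum_add_distrib]
      exact Finset.sum_congr rfl fun s _ => by ring
    rw [h4, hanti, zero_add] at h3
    have h5 : 0 < ∑ s ∈ Jm, x s * (∑ t ∈ J \ Jm, x t * MM A s t + f s0 + ∑ v ∈ S \ N, x v * MM A s v) := by
      refine Finset.sum_pos (fun s hs => ?_) ⟨s0, hs0m⟩
      refine mul_pos (hx s (hNS (hJN (hJmJ hs)))) ?_
      have a1 := h1 s hs
      have a2 := h2 s hs
      have a3 := hx w hD.hw
      linarith
    linarith
  intro s hs
  exact lt_of_le_of_lt (hmax s hs) hlt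

/-- Any two vertices of the component have a common in-neighbour in `N⁻(w)` outside the component. -/
lemma Dirty.pair (h : Cls A S) (hx : ∀ v ∈ S, 0 < x v) (hB : Bal A S x) {w z p q : V}
    (hD : Dirty A S w z p q) : ∀ s ∈ comp A (Nin A S w) p, ∀ t ∈ comp A (Nin A S w) p,
      ∃ r ∈ Nin A S w, r ∉ comp A (Nin A S w) p ∧ A r s ∧ A r t := by
  intro s hs t ht
  by_contra hcon
  push Not at hcon
  have h1 := hD.neg h hx hB s hs
  have h2 := hD.neg h hx hB t ht
  have h3 : 0 ≤ ∑ r ∈ Nin A S w \ comp A (Nin A S w) p, (x r * MM A s r + x r * MM A t r) := by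
    refine Finset.sum_nonneg fun r hr => ?_
    obtain ⟨hrN, hrJ⟩ := Finset.mem_sdiff.mp hr
    rw [← mul_add]
    refine mul_nonneg (hx r (Nin_sub hrN)).le ?_
    rcases comp_adj hs hrN hrJ with h3 | h3
    · rw [MM_pos h.hd h3]
      rcases comp_adj ht hrN hrJ with h4 | h4
      · rw [MM_pos h.hd h4]; norm_num
      · rw [MM_neg h.hd h4]; norm_num
    · rcases comp_adj ht hrN hrJ with h4 | h4
      · rw [MM_neg h.hd h3, MM_pos h.hd h4]; norm_num
      · exact absurd h4 (hcon r hrN hrJ h3)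
  rw [Finset.sum_add_distrib] at h3
  linarith

/-- The growth step. -/
lemma Dirty.grow (h : Cls A S) (hx : ∀ v ∈ S, 0 < x v) (hB : Bal A S x) (hP : Prm A S) {w z p q : V}
    (hD : Dirty A S w z p q) : ∃ w' z' p' q', Dirty (fl A) S w' z' p' q' ∧
      (comp A (Nin A S w) p).card < (comp (fl A) (Nin (fl A) S w') p').card := by
  classical
  set N := Nin A S w with hN
  set J := comp A N p with hJ
  have hNS : N ⊆ S := Nin_sub
  have hJN : J ⊆ N := comp_sub
  have hpN : p ∈ N := mem_Nin.mpr ⟨hD.hp, hD.hpw⟩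
  have hqN : q ∈ N := mem_Nin.mpr ⟨hD.hq, hD.hqw⟩
  have hpJ : p ∈ J := self_mem_comp hpN
  have hqJ : q ∈ J := comp_closed hpJ hqN hD.hpq
  obtain ⟨r0, hr0N, hr0J, hr0p, -⟩ := hD.pair h hx hB p hpJ p hpJ
  obtain ⟨r, hr, hmax⟩ := Finset.exists_max_image (N \ J) (fun r => (J.filter (fun s => A r s)).card)
    ⟨r0, Finset.mem_sdiff.mpr ⟨hr0N, hr0J⟩⟩
  obtain ⟨hrN, hrJ⟩ := Finset.mem_sdiff.mp hr
  have hrS := hNS hrN
  have hne : ∃ t ∈ J, A r t := by
    have h1 := hmax r0 (Finset.mem_sdiff.mpr ⟨hr0N, hr0J⟩)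
    have h2 : 0 < (J.filter (fun s => A r0 s)).card :=
      Finset.card_pos.mpr ⟨p, Finset.mem_filter.mpr ⟨hpJ, hr0p⟩⟩
    obtain ⟨t, ht⟩ := Finset.card_pos.mp (lt_of_lt_of_le h2 h1)
    exact ⟨t, (Finset.mem_filter.mp ht).1, (Finset.mem_filter.mp ht).2⟩
  -- `r` dominates the whole component
  have hall : ∀ s ∈ J, A r s := by
    by_contra hcon
    push Not at hcon
    obtain ⟨s1, hs1, hrs1⟩ := hcon
    obtain ⟨t1, ht1, hrt1⟩ := hne
    -- a nonadjacent pair `s`, `t` with `s → r → t`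
    have hedge : ∃ s ∈ J, ∃ t ∈ J, NA A s t ∧ A s r ∧ A r t := by
      by_contra hno
      push Not at hno
      have hconst : ∀ y ∈ J, (A r p ↔ A r y) := by
        have : ∀ y ∈ J, y ∈ J ∧ (A r p ↔ A r y) := by
          refine comp_induction hpN (fun y => y ∈ J ∧ (A r p ↔ A r y)) ⟨hpJ, Iff.rfl⟩ ?_
          rintro s hs t ht' hst ⟨hsJ, hiff⟩
          have htJ : t ∈ J := comp_closed hsJ ht' hst
          refine ⟨htJ, hiff.trans ?_⟩
          constructor
          · intro h1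
            by_contra h2
            rcases comp_adj htJ hrN hrJ with h3 | h3
            · exact hno t htJ s hsJ hst.symm h3 h1
            · exact h2 h3
          · intro h1
            by_contra h2
            rcases comp_adj hsJ hrN hrJ with h3 | h3
            · exact hno s hsJ t htJ hst h3 h1
            · exact h2 h3
        exact fun y hy => (this y hy).2
      exact hrs1 ((hconst s1 hs1).mp ((hconst t1 ht1).mpr hrt1))
    obtain ⟨s, hs, t, ht', hst, hsr, hrt⟩ := hedge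
    obtain ⟨r2, hr2N, hr2J, hr2s, hr2t⟩ := hD.pair h hx hB s hs t ht'
    have hsS := hNS (hJN hs)
    have htS := hNS (hJN ht')
    have hr2S := hNS hr2N
    have hnot1 : ¬ A r r2 := fun h1 => h.ht s r r2 hsr h1 hr2s
    by_cases hadj : A r2 r
    · -- then `r2` dominates more
      have hsub : insert s (J.filter (fun y => A r y)) ⊆ J.filter (fun y => A r2 y) := by
        intro y hy
        rcases Finset.mem_insert.mp hy with rfl | hy
        · exact Finset.mem_filter.mpr ⟨hs, hr2s⟩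
        · obtain ⟨hyJ, hry⟩ := Finset.mem_filter.mp hy
          refine Finset.mem_filter.mpr ⟨hyJ, ?_⟩
          rcases comp_adj hyJ hr2N hr2J with h3 | h3
          · exact absurd hadj (h.ht r y r2 hry h3)
          · exact h3
      have hnot : s ∉ J.filter (fun y => A r y) := fun h1 => h.hd _ _ hsr (Finset.mem_filter.mp h1).2
      have h1 := Finset.card_le_card hsub
      rw [Finset.card_insert_of_notMem hnot] at h1
      have h2 := hmax r2 (Finset.mem_sdiff.mpr ⟨hr2N, hr2J⟩)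
      omega
    · have hna : NA A r r2 := ⟨by
        rintro rfl
        exact h.hd _ _ hsr hr2s, hnot1, hadj⟩
      have := h.hi t htS r hrS r2 hr2S hna hrt hr2t s hsS hsr (h.hd _ _ hr2s)
      exact hst.2.1 this
  -- `r → z`
  have hrz : A r z := h.ho r hrS p hD.hp q hD.hq hD.hpq (hall p hpJ) (hall q hqJ) z hD.hz hD.hpz hD.hqz.2.1
  set N' := Nin (fl A) S r with hN'
  have hmemN' : ∀ y, y ∈ N' ↔ y ∈ S ∧ A r y := fun y => mem_Nin
  have hpN' : p ∈ N' := (hmemN' p).mpr ⟨hD.hp, hall p hpJ⟩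
  set K := comp (fl A) N' p with hK
  have hpK : p ∈ K := self_mem_comp hpN'
  have hJK : ∀ y ∈ J, y ∈ J ∧ y ∈ K := by
    refine comp_induction hpN (fun y => y ∈ J ∧ y ∈ K) ⟨hpJ, hpK⟩ ?_
    rintro s hs t ht' hst ⟨hsJ, hsK⟩
    have htJ : t ∈ J := comp_closed hsJ ht' hst
    exact ⟨htJ, comp_closed hsK ((hmemN' t).mpr ⟨hNS ht', hall t htJ⟩) hst.fl⟩
  have hzN : z ∉ N := fun h1 => h.hd _ _ hD.hwz (mem_Nin.mp h1).2
  have hzJ : z ∉ J := fun h1 => hzN (hJN h1)
  have hzK : z ∈ K := comp_closed (hJK q hqJ).2 ((hmemN' z).mpr ⟨hD.hz, hrz⟩) hD.hqz.fl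
  have hcard : J.card < K.card := by
    have h1 : insert z J ⊆ K := by
      intro y hy
      rcases Finset.mem_insert.mp hy with rfl | hy
      · exact hzK
      · exact (hJK y hy).2
    have h2 := Finset.card_le_card h1
    rw [Finset.card_insert_of_notMem hzJ] at h2
    omega
  -- the new component is dirty
  have hPf : Prm (fl A) S := fun ⟨M, hM, h1, h2⟩ => hP ⟨M, hM.of_fl, h1, h2⟩
  obtain ⟨v, hv, hvN', y, hy, hhom⟩ := exists_split h.fl.hd h.fl.ht hx hB.fl hPf hrS hpN' hzK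
    (Or.inr hD.hpz)
  by_contra hcon
  push Not at hcon
  apply hhom
  have hfin : ∀ y ∈ K, y ∈ K ∧ Hom (fl A) v p y := by
    refine comp_induction hpN' (fun y => y ∈ K ∧ Hom (fl A) v p y) ⟨hpK, Hom.refl v p⟩ ?_
    rintro s hs t ht' hst ⟨hsK, hh⟩
    have htK : t ∈ K := comp_closed hsK ht' hst
    refine ⟨htK, hh.trans ?_⟩
    by_contra hh2
    have hsS := (mem_Nin.mp hs).1
    have htS := (mem_Nin.mp ht').1
    rcases h.fl.edge hx hB.fl hrS hsS htS hv hst (mem_Nin.mp hs).2 (mem_Nin.mp ht').2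
      (fun h1 => hvN' (mem_Nin.mpr ⟨hv, h1⟩)) hh2 with h1 | h1
    · have h2 := hcon r v s t h1
      rw [comp_eq hpN' hsK] at h2
      exact absurd hcard (not_lt.mpr h2)
    · have h2 := hcon r v t s h1
      rw [comp_eq hpN' htK] at h2
      exact absurd hcard (not_lt.mpr h2)
  exact (hfin y hy).2

/-- There are no dirty pairs. -/
theorem no_dirty (hx : ∀ v ∈ S, 0 < x v) : ∀ n : ℕ, ∀ (A : V → V → Prop) [DecidableRel A], Cls A S → Bal A S x →
    Prm A S → ∀ w z p q : V, Dirty A S w z p q → S.card - (comp A (Nin A S w) p).card = n → False := by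
  intro n
  induction n using Nat.strong_induction_on with
  | _ n ih =>
    intro A _ h hB hP w z p q hD hn
    obtain ⟨w', z', p', q', hD', hcard⟩ := hD.grow h hx hB hP
    have hPf : Prm (fl A) S := fun ⟨M, hM, h1, h2⟩ => hP ⟨M, hM.of_fl, h1, h2⟩
    have h1 : (comp (fl A) (Nin (fl A) S w') p').card ≤ S.card :=
      Finset.card_le_card (comp_sub.trans Nin_sub)
    exact ih (S.card - (comp (fl A) (Nin (fl A) S w') p').card) (by omega) (fl A) h.fl hB.fl hPf w' z' p' q' hD' rfl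

/-- The condition `Star`. -/
theorem Cls.star (h : Cls A S) (hx : ∀ v ∈ S, 0 < x v) (hB : Bal A S x) (hP : Prm A S) : Star A S := by
  intro w hw p hp q hq hn hpw hqw v hv hh
  by_contra hvw
  rcases h.edge hx hB hw hp hq hv hn hpw hqw hvw hh with h1 | h1
  · exact no_dirty hx _ A h hB hP _ _ _ _ h1 rfl
  · exact no_dirty hx _ A h hB hP _ _ _ _ h1 rfl

lemma Cls.mono {S T : Finset V} (h : Cls A S) (hT : T ⊆ S) : Cls A T where
  hd := h.hd
  ht := h.ht
  ho := fun u hu p hp q hq hn h1 h2 v hv => h.ho u (hT hu) p (hT hp) q (hT hq) hn h1 h2 v (hT hv)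
  hi := fun u hu p hp q hq hn h1 h2 v hv => h.hi u (hT hu) p (hT hp) q (hT hq) hn h1 h2 v (hT hv)

/-- The weighted theorem. -/
theorem weighted3 : ∀ n : ℕ, ∀ S : Finset V, S.card = n → Cls A S → ∀ x : V → ℝ, (∀ v ∈ S, 0 < x v) →
    Bal A S x → 3 * D A S x + ∑ v ∈ S, x v ^ 2 ≤ (∑ v ∈ S, x v) ^ 2 := by
  intro n
  induction n using Nat.strong_induction_on with
  | _ n ih =>
    intro S hS h x hx hB
    by_cases hP : Prm A S
    · exact weighted h.hd h.ht _ S rfl (h.star hx hB hP) x hx hB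
    · unfold Prm at hP
      push Not at hP
      obtain ⟨M, hM, hM2, hMS⟩ := hP
      obtain ⟨m, hm⟩ : M.Nonempty := by
        rw [← Finset.card_pos]; omega
      refine hM.glue hm (fun h1 => h.hd m m h1 h1) ?_ ?_
      · exact ih M.card (hS ▸ hMS) M rfl (h.mono hM.1) x (fun v hv => hx v (hM.1 hv)) (hM.bal hx hB)
      · exact ih (qS S M m).card (hS ▸ card_qS hM hm hM2) _ rfl (h.mono (qS_sub hM hm)) _
          (qx_pos hM hm hx) (hM.qbal hx hB hm)

end Pool.Agent.P76b2.Forb
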