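import Mathlib

/-!
# Weighted Eulerian digraphs: modules and substitution (MP_76b2fe_co)

`e A u w` is the indicator of the arc `u → w`. All sums run over a finite set `S` of vertices with weights `x`.
-/

set_option autoImplicit false
set_option linter.unusedSectionVars false

open Finset

namespace Pool.Agent.P76b2.Forb

variable {V : Type*} [DecidableEq V] (A : V → V → Prop) [DecidableRel A]

/-- The indicator of the arc `u → w`. -/
def e (u w : V) : ℝ := if A u w then 1 else 0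

/-- `S` with the weights `x` is balanced. -/
def Bal (S : Finset V) (x : V → ℝ) : Prop := ∀ v ∈ S, ∑ w ∈ S, x w * (e A v w - e A w v) = 0

/-- The weight of the arcs in `S`. -/
def D (S : Finset V) (x : V → ℝ) : ℝ := ∑ u ∈ S, ∑ w ∈ S, x u * x w * e A u w

/-- `M` is a module of `S`. -/
def IsMod (S M : Finset V) : Prop :=
  M ⊆ S ∧ ∀ v ∈ S, v ∉ M → ∀ a ∈ M, ∀ b ∈ M, (A v a ↔ A v b) ∧ (A a v ↔ A b v)

omit [DecidableEq V] in
/-- Antisymmetric double sums vanish. -/
lemma anti (M : Finset V) (x : V → ℝ) : ∑ a ∈ M, x a * ∑ w ∈ M, x w * (e A a w - e A w a) = 0 := by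
  have h1 : ∑ a ∈ M, x a * ∑ w ∈ M, x w * (e A a w - e A w a) =
      ∑ a ∈ M, ∑ w ∈ M, x a * x w * e A a w - ∑ a ∈ M, ∑ w ∈ M, x a * x w * e A w a := by
    rw [← Finset.sum_sub_distrib]
    refine Finset.sum_congr rfl fun a _ => ?_
    rw [← Finset.sum_sub_distrib, Finset.mul_sum]
    exact Finset.sum_congr rfl fun w _ => by ring
  rw [h1, sub_eq_zero, Finset.sum_comm]
  exact Finset.sum_congr rfl fun a _ => Finset.sum_congr rfl fun w _ => by ring

section

variable {A} {S M : Finset V} {x : V → ℝ} {m : V}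

lemma e_congr {v a b : V} (h : A v a ↔ A v b) : e A v a = e A v b := by
  unfold e; simp only [h]

lemma e_congr' {v a b : V} (h : A a v ↔ A b v) : e A a v = e A b v := by
  unfold e; simp only [h]

lemma IsMod.sum_out (hM : IsMod A S M) {a b : V} (ha : a ∈ M) (hb : b ∈ M) :
    ∑ w ∈ S \ M, x w * (e A a w - e A w a) = ∑ w ∈ S \ M, x w * (e A b w - e A w b) := by
  refine Finset.sum_congr rfl fun w hw => ?_
  obtain ⟨hwS, hwM⟩ := Finset.mem_sdiff.mp hw
  obtain ⟨h1, h2⟩ := hM.2 w hwS hwM a ha b hb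
  rw [e_congr h1, e_congr' h2]

lemma split_sum (hM : M ⊆ S) (f : V → ℝ) : ∑ w ∈ S, f w = ∑ w ∈ M, f w + ∑ w ∈ S \ M, f w := by
  rw [add_comm, Finset.sum_sdiff hM]

/-- Both parts of the sum at a vertex of the module vanish. -/
lemma IsMod.parts (hM : IsMod A S M) (hx : ∀ v ∈ S, 0 < x v) (hB : Bal A S x) :
    ∀ a ∈ M, ∑ w ∈ M, x w * (e A a w - e A w a) = 0 ∧ ∑ w ∈ S \ M, x w * (e A a w - e A w a) = 0 := by
  intro a ha
  set c := ∑ w ∈ S \ M, x w * (e A a w - e A w a) with hc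
  have h1 : ∀ b ∈ M, ∑ w ∈ M, x w * (e A b w - e A w b) = -c := by
    intro b hb
    have h2 := hB b (hM.1 hb)
    rw [split_sum hM.1, hM.sum_out hb ha] at h2
    linarith
  have h3 := anti A M x
  have h4 : ∑ b ∈ M, x b * ∑ w ∈ M, x w * (e A b w - e A w b) = (∑ b ∈ M, x b) * (-c) := by
    rw [Finset.sum_mul]
    exact Finset.sum_congr rfl fun b hb => by rw [h1 b hb]
  have h5 : 0 < ∑ b ∈ M, x b := Finset.sum_pos (fun b hb => hx b (hM.1 hb)) ⟨a, ha⟩
  rw [h4] at h3
  have h6 : c = 0 := by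
    rcases mul_eq_zero.mp h3 with h | h
    · linarith
    · linarith
  exact ⟨by rw [h1 a ha, h6, neg_zero], h6⟩

lemma IsMod.bal (hM : IsMod A S M) (hx : ∀ v ∈ S, 0 < x v) (hB : Bal A S x) : Bal A M x :=
  fun a ha => (hM.parts hx hB a ha).1

/-- The quotient: the module is replaced by its vertex `m` with the whole weight. -/
def qS (S M : Finset V) (m : V) : Finset V := insert m (S \ M)

/-- The weights of the quotient. -/
def qx (x : V → ℝ) (M : Finset V) (m : V) : V → ℝ := Function.update x m (∑ v ∈ M, x v)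

lemma sum_q (hm : m ∈ M) (f : V → ℝ → ℝ) :
    ∑ v ∈ qS S M m, f v (qx x M m v) = f m (∑ v ∈ M, x v) + ∑ v ∈ S \ M, f v (x v) := by
  have hm' : m ∉ S \ M := fun h => (Finset.mem_sdiff.mp h).2 hm
  unfold qS
  rw [Finset.sum_insert hm']
  congr 1
  · unfold qx; rw [Function.update_self]
  · refine Finset.sum_congr rfl fun v hv => ?_
    have hne : v ≠ m := fun h => hm' (h ▸ hv)
    unfold qx
    rw [Function.update_of_ne hne]

lemma IsMod.sum_in (hM : IsMod A S M) (hm : m ∈ M) {v : V} (hv : v ∈ S) (hvM : v ∉ M) :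
    ∑ w ∈ M, x w * (e A v w - e A w v) = (∑ w ∈ M, x w) * (e A v m - e A m v) := by
  rw [Finset.sum_mul]
  refine Finset.sum_congr rfl fun w hw => ?_
  obtain ⟨h1, h2⟩ := hM.2 v hv hvM w hw m hm
  rw [e_congr h1, e_congr' h2]

lemma IsMod.qbal (hM : IsMod A S M) (hx : ∀ v ∈ S, 0 < x v) (hB : Bal A S x) (hm : m ∈ M) :
    Bal A (qS S M m) (qx x M m) := by
  intro v hv
  rw [sum_q hm (fun w y => y * (e A v w - e A w v))]
  unfold qS at hv
  rcases Finset.mem_insert.mp hv with rfl | hv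
  · rw [sub_self, mul_zero, zero_add]
    exact (hM.parts hx hB v hm).2
  · obtain ⟨hvS, hvM⟩ := Finset.mem_sdiff.mp hv
    rw [← hM.sum_in hm hvS hvM, ← split_sum hM.1]
    exact hB v hvS

lemma IsMod.qD (hM : IsMod A S M) (hm : m ∈ M) (hl : ¬ A m m) :
    D A S x = D A M x + D A (qS S M m) (qx x M m) := by
  have hq : D A (qS S M m) (qx x M m) =
      ((∑ v ∈ M, x v) * ∑ w ∈ S \ M, x w * e A m w) +
        ((∑ v ∈ M, x v) * ∑ u ∈ S \ M, x u * e A u m + ∑ u ∈ S \ M, ∑ w ∈ S \ M, x u * x w * e A u w) := by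
    unfold D
    rw [sum_q hm (fun u y => ∑ w ∈ qS S M m, y * qx x M m w * e A u w)]
    rw [sum_q hm (fun w y => (∑ v ∈ M, x v) * y * e A m w)]
    have h0 : e A m m = 0 := by unfold e; rw [if_neg hl]
    rw [h0, mul_zero, zero_add]
    congr 1
    · rw [Finset.mul_sum]
      exact Finset.sum_congr rfl fun w _ => by ring
    · rw [Finset.mul_sum, ← Finset.sum_add_distrib]
      refine Finset.sum_congr rfl fun u _ => ?_
      rw [sum_q hm (fun w y => x u * y * e A u w)]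
      ring
  have h1 : D A S x = ∑ u ∈ M, ∑ w ∈ M, x u * x w * e A u w + ∑ u ∈ M, ∑ w ∈ S \ M, x u * x w * e A u w +
      (∑ u ∈ S \ M, ∑ w ∈ M, x u * x w * e A u w + ∑ u ∈ S \ M, ∑ w ∈ S \ M, x u * x w * e A u w) := by
    unfold D
    rw [split_sum hM.1]
    rw [← Finset.sum_add_distrib, ← Finset.sum_add_distrib]
    congr 1 <;> exact Finset.sum_congr rfl fun u _ => split_sum hM.1 _
  have h2 : ∑ u ∈ M, ∑ w ∈ S \ M, x u * x w * e A u w = (∑ v ∈ M, x v) * ∑ w ∈ S \ M, x w * e A m w := by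
    rw [Finset.sum_mul]
    refine Finset.sum_congr rfl fun u hu => ?_
    rw [Finset.mul_sum]
    refine Finset.sum_congr rfl fun w hw => ?_
    obtain ⟨hwS, hwM⟩ := Finset.mem_sdiff.mp hw
    rw [e_congr' (hM.2 w hwS hwM u hu m hm).2]
    ring
  have h3 : ∑ u ∈ S \ M, ∑ w ∈ M, x u * x w * e A u w = (∑ v ∈ M, x v) * ∑ u ∈ S \ M, x u * e A u m := by
    rw [Finset.sum_comm, Finset.sum_mul]
    refine Finset.sum_congr rfl fun w hw => ?_
    rw [Finset.mul_sum]
    refine Finset.sum_congr rfl fun u hu => ?_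
    obtain ⟨huS, huM⟩ := Finset.mem_sdiff.mp hu
    rw [e_congr (hM.2 u huS huM w hw m hm).1]
    ring
  rw [h1, hq, h2, h3]
  unfold D
  ring

/-- The inequality passes from the module and the quotient to `S`. -/
lemma IsMod.glue (hM : IsMod A S M) (hm : m ∈ M) (hl : ¬ A m m)
    (h1 : 3 * D A M x + ∑ v ∈ M, x v ^ 2 ≤ (∑ v ∈ M, x v) ^ 2)
    (h2 : 3 * D A (qS S M m) (qx x M m) + ∑ v ∈ qS S M m, qx x M m v ^ 2 ≤ (∑ v ∈ qS S M m, qx x M m v) ^ 2) :
    3 * D A S x + ∑ v ∈ S, x v ^ 2 ≤ (∑ v ∈ S, x v) ^ 2 := by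
  rw [sum_q hm (fun _ y => y ^ 2), sum_q hm (fun _ y => y)] at h2
  rw [hM.qD hm hl, split_sum hM.1 (fun v => x v ^ 2), split_sum hM.1 x]
  linarith

lemma card_qS (hM : IsMod A S M) (hm : m ∈ M) (h2 : 2 ≤ M.card) : (qS S M m).card < S.card := by
  have hm' : m ∉ S \ M := fun h => (Finset.mem_sdiff.mp h).2 hm
  unfold qS
  rw [Finset.card_insert_of_notMem hm', Finset.card_sdiff_of_subset hM.1]
  have := Finset.card_le_card hM.1
  omega

lemma qS_sub (hM : IsMod A S M) (hm : m ∈ M) : qS S M m ⊆ S := by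
  intro v hv
  unfold qS at hv
  rcases Finset.mem_insert.mp hv with rfl | hv
  · exact hM.1 hm
  · exact (Finset.mem_sdiff.mp hv).1

lemma qx_pos (hM : IsMod A S M) (hm : m ∈ M) (hx : ∀ v ∈ S, 0 < x v) :
    ∀ v ∈ qS S M m, 0 < qx x M m v := by
  intro v hv
  unfold qx
  by_cases h : v = m
  · subst h
    rw [Function.update_self]
    exact Finset.sum_pos (fun b hb => hx b (hM.1 hb)) ⟨v, hm⟩
  · rw [Function.update_of_ne h]
    exact hx v (qS_sub hM hm hv)

end

end Pool.Agent.P76b2.Forb
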